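import Mathlib

/-! Statement definitions for MP_340ce7_lc: expansions of the group of integers by cyclic orders. -/

namespace Pool.Agent.Work.MP_340ce7_lc

/-- The cyclic group order `C_α` on the integers. -/
def Cyc (α : ℝ) (a b c : ℤ) : Prop :=
  (Int.fract (a * α) < Int.fract (b * α) ∧ Int.fract (b * α) < Int.fract (c * α)) ∨
  (Int.fract (b * α) < Int.fract (c * α) ∧ Int.fract (c * α) < Int.fract (a * α)) ∨
  (Int.fract (c * α) < Int.fract (a * α) ∧ Int.fract (a * α) < Int.fract (b * α))

/-- One binary function symbol. -/
inductive Fn : ℕ → Type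
  | add : Fn 2

/-- One ternary relation symbol for each member of `A`. -/
inductive Rl (A : Set ℝ) : ℕ → Type
  | cyc (α : A) : Rl A 3

/-- A first-order structure with universe the integers, in any language. -/
structure Str : Type 1 where
  L : FirstOrder.Language.{0, 0}
  S : L.Structure ℤ

/-- The structure `(ℤ; +, (C_α)_{α ∈ A})`. -/
def cycStr (A : Set ℝ) : Str where
  L := ⟨Fn, Rl A⟩
  S :=
    { funMap := fun f v => match f, v with
        | Fn.add, v => v 0 + v 1
      RelMap := fun r v => match r, v with
        | Rl.cyc α, v => Cyc α (v 0) (v 1) (v 2) }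

/-- Every set definable with parameters in `M` is definable with parameters in `M'`. -/
def Below (M M' : Str) : Prop :=
  ∀ (n : ℕ) (X : Set (Fin n → ℤ)),
    @Set.Definable ℤ Set.univ M.L M.S (Fin n) X → @Set.Definable ℤ Set.univ M'.L M'.S (Fin n) X

/-- Every subset of `A` with no member of the form `p + q α` for another member `α` and
rationals `p`, `q` is, together with `1`, linearly independent over the rationals. -/
def Indep (A : Set ℝ) : Prop :=
  ∀ B ⊆ A, (B.Pairwise fun α β => ∀ p q : ℚ, β ≠ p + q * α) →
    LinearIndepOn ℚ id (insert (1 : ℝ) B)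

end Pool.Agent.Work.MP_340ce7_lc
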