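import Pool.Agent.Work.MP_340ce7_lc.Defs
import Pool.Agent.Work.MP_666b5d_gt.Br2

-- merged part: Pool.Agent.Work.MP_340ce7_lc.Basic
section
/-! Elementary notions on the circle and unary classes of sets. -/

namespace Pool.Agent.Work.MP_340ce7_lc

open Set Filter Topology

def In (v a b : ℝ) : Prop := ∃ n : ℤ, a < v - n ∧ v - n < b

def Near (v d : ℝ) : Prop := ∃ n : ℤ, |v - n| < d

def H (v : ℝ) : Prop := Int.fract v < 1 / 2

def Ind (A : Set ℝ) : Prop :=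
  ∀ (s : Finset ℝ) (c : ℝ → ℚ) (c0 : ℚ), (↑s : Set ℝ) ⊆ A →
    ∑ α ∈ s, (c α : ℝ) * α = c0 → ∀ α ∈ s, c α = 0

noncomputable def Sp (γ : ℝ) : Submodule ℚ ℝ := Submodule.span ℚ {1, γ}

structure Good1 (D : Set ℤ → Prop) : Prop where
  inter : ∀ {Y Z : Set ℤ}, D Y → D Z → D (Y ∩ Z)
  compl : ∀ {Y : Set ℤ}, D Y → D Yᶜ
  single : ∀ c : ℤ, D {c}
  conv : ∀ {Y Z : Set ℤ} (a b c : ℤ), D Y → D Z → D {t | ∃ u ∈ Y, a * t + b * u + c ∈ Z}

def Nb (D : Set ℤ → Prop) (γ : ℝ) : Prop :=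
  ∀ κ : ℝ, 0 < κ → ∃ η : ℝ, 0 < η ∧ ∃ V : Set ℤ, D V ∧
    (∀ t : ℤ, Near (t * γ) η → t ∈ V) ∧ ∀ t ∈ V, Near (t * γ) κ

def Edge (D : Set ℤ → Prop) (γ : ℝ) : Prop :=
  ∃ (Q : Set ℤ) (c η : ℝ), 0 < η ∧ D Q ∧
    ∀ t : ℤ, (In (t * γ) (c - η) c → t ∈ Q) ∧ (In (t * γ) c (c + η) → t ∉ Q)

def Full (D : Set ℤ → Prop) (γ : ℝ) : Prop :=
  ∀ β ∈ Sp γ, ∀ r ∈ Sp γ, D {t : ℤ | H (t * β + r)}

def NoWall (K : Finset ℝ) (a b : ℝ) : Prop := ∀ k ∈ K, ∀ j : ℤ, k + j ∉ uIcc a b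

def Same (K : Finset ℝ) (θ θ' : ℝ) : Prop := ∃ n : ℤ, NoWall K θ (θ' + n)

def Tame (A0 K : Finset ℝ) (Φ Y : Set ℤ) : Prop :=
  ∀ t t' : ℤ, t ∉ Φ → t' ∉ Φ → (∀ α ∈ A0, Same K (t * α) (t' * α)) → t ∈ Y → t' ∈ Y

def Dep (A0 : Finset ℝ) (Φ Y : Set ℤ) (α : ℝ) : Prop :=
  ∃ (c ε ρ : ℝ) (θ : ℝ → ℝ), 0 < ε ∧ 0 < ρ ∧ ∀ t : ℤ, t ∉ Φ →
    (∀ β ∈ A0, β ≠ α → Near (t * β - θ β) ρ) →
      (In (t * α) (c - ε) c → t ∈ Y) ∧ (In (t * α) c (c + ε) → t ∉ Y)

def TameCl (A : Set ℝ) (D : Set ℤ → Prop) : Prop :=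
  ∀ Y, D Y → ∃ N : ℕ, 0 < N ∧ ∃ (A0 K : Finset ℝ) (Φ : Set ℤ),
    (↑A0 : Set ℝ) ⊆ A ∧ Φ.Finite ∧ Tame A0 K Φ {k | (N : ℤ) * k ∈ Y}

/-- `Z` contains, off the finite set `Φ`, the box with `α`-side `(p, q)` and radius `ρ`
around `θ` in the other coordinates. -/
def Box (A0 : Finset ℝ) (α : ℝ) (Φ : Set ℤ) (p q ρ : ℝ) (θ : ℝ → ℝ) (Z : Set ℤ) : Prop :=
  ∀ t : ℤ, t ∉ Φ → In (t * α) p q → (∀ β ∈ A0, β ≠ α → Near (t * β - θ β) ρ) → t ∈ Z

theorem mem_Sp {x γ : ℝ} : x ∈ Sp γ ↔ ∃ p q : ℚ, x = p + q * γ := by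
  unfold Sp
  rw [Submodule.mem_span_pair]
  constructor
  · rintro ⟨p, q, h⟩
    exact ⟨p, q, by rw [← h]; simp [Rat.smul_def]⟩
  · rintro ⟨p, q, h⟩
    exact ⟨p, q, by rw [h]; simp [Rat.smul_def]⟩

theorem one_mem_Sp (γ : ℝ) : (1 : ℝ) ∈ Sp γ := mem_Sp.2 ⟨1, 0, by simp⟩

theorem self_mem_Sp (γ : ℝ) : γ ∈ Sp γ := mem_Sp.2 ⟨0, 1, by simp⟩

theorem rat_mem_Sp (γ : ℝ) (q : ℚ) : (q : ℝ) ∈ Sp γ := mem_Sp.2 ⟨q, 0, by simp⟩

theorem rat_mul_mem {K : Submodule ℚ ℝ} {x : ℝ} (hx : x ∈ K) (q : ℚ) : (q : ℝ) * x ∈ K := by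
  have := K.smul_mem q hx
  rwa [Rat.smul_def] at this

theorem Sp_le {β γ : ℝ} (h : β ∈ Sp γ) : Sp β ≤ Sp γ := by
  unfold Sp
  rw [Submodule.span_le]
  rintro x (rfl | rfl)
  · exact one_mem_Sp γ
  · exact h

theorem Sp_eq {β γ : ℝ} (hβ : Irrational β) (h : β ∈ Sp γ) : Sp β = Sp γ := by
  refine le_antisymm (Sp_le h) (Sp_le ?_)
  obtain ⟨p, q, rfl⟩ := mem_Sp.1 h
  have hq : q ≠ 0 := by
    rintro rfl
    exact hβ ⟨p, by simp⟩
  refine mem_Sp.2 ⟨-p / q, 1 / q, ?_⟩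
  have : (q : ℝ) ≠ 0 := by exact_mod_cast hq
  push_cast
  field_simp
  ring

theorem Full.of_eq {D : Set ℤ → Prop} {β γ : ℝ} (h : Sp β = Sp γ) (hF : Full D β) :
    Full D γ := by
  unfold Full at *
  rwa [← h]

theorem Ind.mono {A B : Set ℝ} (h : Ind A) (hB : B ⊆ A) : Ind B :=
  fun s c c0 hs => h s c c0 (hs.trans hB)

theorem Ind.irrational {A : Set ℝ} (h : Ind A) {α : ℝ} (hα : α ∈ A) : Irrational α := by
  rintro ⟨q, hq⟩
  have := h {α} (fun _ => 1) q (by simpa using hα) (by simp [hq]) α (by simp)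
  simp at this

theorem ind_single {γ : ℝ} (hγ : Irrational γ) : Ind {γ} := by
  intro s c c0 hs h α hα
  have h1 : α = γ := hs hα
  subst h1
  have hs' : s = {α} := by
    ext x
    simp only [Finset.mem_singleton]
    exact ⟨fun hx => hs hx, fun hx => hx ▸ hα⟩
  rw [hs', Finset.sum_singleton] at h
  by_contra hc
  have : (c α : ℝ) ≠ 0 := by exact_mod_cast hc
  exact hγ ⟨c0 / c α, by push_cast; rw [← h]; field_simp⟩

theorem H_add_int (v : ℝ) (n : ℤ) : H (v + n) ↔ H v := by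
  simp [H]

theorem H_sub_int (v : ℝ) (n : ℤ) : H (v - n) ↔ H v := by
  simp [H]

theorem H_iff (v : ℝ) : H v ↔ ∃ n : ℤ, 0 ≤ v - n ∧ v - n < 1 / 2 := by
  constructor
  · intro h
    exact ⟨⌊v⌋, Int.fract_nonneg v, h⟩
  · rintro ⟨n, h1, h2⟩
    rw [← H_sub_int v n, H, Int.fract_eq_self.2 ⟨h1, by linarith only [h2]⟩]
    exact h2

theorem not_H_iff (v : ℝ) : ¬ H v ↔ ∃ n : ℤ, -(1 / 2) ≤ v - n ∧ v - n < 0 := by
  constructor
  · intro h
    have h1 := Int.fract_lt_one v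
    have h2 : 1 / 2 ≤ Int.fract v := not_lt.1 h
    unfold Int.fract at h1 h2
    exact ⟨⌊v⌋ + 1, by push_cast; linarith only [h2], by push_cast; linarith⟩
  · rintro ⟨n, h1, h2⟩ h
    obtain ⟨m, h3, h4⟩ := (H_iff v).1 h
    have h5 : (m : ℝ) < n := by linarith only [h2, h3]
    have h6 : (n : ℝ) < m + 1 := by linarith only [h1, h4]
    have h7 : m < n := by exact_mod_cast h5
    have h8 : n < m + 1 := by exact_mod_cast h6
    omega

/-- For a small real number, `H` is the sign. -/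
theorem H_small {x : ℝ} (h : |x| < 1 / 2) : H x ↔ 0 ≤ x := by
  have h' := abs_lt.1 h
  constructor
  · intro hx
    by_contra hn
    exact (not_H_iff x).2 ⟨0, by simp only [Int.cast_zero]; linarith only [h'],
      by simp only [Int.cast_zero]; linarith only [hn]⟩ hx
  · intro hx
    exact (H_iff x).2 ⟨0, by simpa using hx, by simp only [Int.cast_zero]; linarith only [h']⟩

theorem H_add_half (v : ℝ) : H (v + 1 / 2) ↔ ¬ H v := by
  rw [H_iff, not_H_iff]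
  constructor
  · rintro ⟨n, h1, h2⟩
    exact ⟨n, by linarith only [h1], by linarith only [h2]⟩
  · rintro ⟨n, h1, h2⟩
    exact ⟨n, by linarith only [h1], by linarith only [h2]⟩

/-- `H` is constant on a segment without half-integers. -/
theorem H_const {a b : ℝ} (h : ∀ l : ℤ, (l : ℝ) / 2 ∉ uIcc a b) : H a ↔ H b := by
  have key : ∀ a b : ℝ, (∀ l : ℤ, (l : ℝ) / 2 ∉ uIcc a b) → H a → H b := by
    intro a b h ha
    obtain ⟨n, h1, h2⟩ := (H_iff a).1 ha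
    refine (H_iff b).2 ⟨n, ?_, ?_⟩
    · by_contra hn
      refine h (2 * n) (mem_uIcc.2 (Or.inr ⟨?_, ?_⟩)) <;> push_cast <;> linarith only [hn, h1]
    · by_contra hn
      refine h (2 * n + 1) (mem_uIcc.2 (Or.inl ⟨?_, ?_⟩)) <;> push_cast <;> linarith only [h2, hn]
  exact ⟨key a b h, key b a (by rwa [uIcc_comm])⟩

/-- An arc shorter than a half circle is cut out by two `H` conditions. -/
theorem In_iff_H {v a b : ℝ} (h1 : a < b) (h2 : b < a + 1 / 2) :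
    In v a b ↔ ¬ H (a - v) ∧ ¬ H (v - b) := by
  rw [not_H_iff, not_H_iff]
  constructor
  · rintro ⟨n, h3, h4⟩
    exact ⟨⟨-n, by push_cast; linarith only [h2, h4], by push_cast; linarith⟩, ⟨n, by linarith only [h2, h3], by linarith⟩⟩
  · rintro ⟨⟨n, h3, h4⟩, m, h5, h6⟩
    have h7 : (-n : ℝ) < m + 1 := by linarith only [h1, h2, h4, h6]
    have h8 : (m : ℝ) < -n + 1 := by linarith only [h1, h3, h5]
    have h9 : -n < m + 1 := by exact_mod_cast h7
    have h10 : m < -n + 1 := by exact_mod_cast h8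
    have h11 : m = -n := by omega
    subst h11
    push_cast at h5 h6
    exact ⟨-n, by push_cast; linarith only [h4], by push_cast; linarith only [h6]⟩

/-- Walls are locally finite. -/
theorem wall_isolated (K : Finset ℝ) (x : ℝ) :
    ∃ ε : ℝ, 0 < ε ∧ ∀ k ∈ K, ∀ j : ℤ, |k + j - x| < ε → k + j = x := by
  have h1 : ∀ k : ℝ, ∀ᶠ ε in 𝓝[>] (0 : ℝ), ∀ j : ℤ, |k + j - x| < ε → k + j = x := by
    intro k
    have h0 : ∃ e : ℝ, 0 < e ∧ ∀ j : ℤ, |k + j - x| < e → k + j = x := by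
      by_cases hf : Int.fract (x - k) = 0
      · refine ⟨1, one_pos, fun j hj => ?_⟩
        have h2 : x - k = (⌊x - k⌋ : ℤ) := by
          have := Int.floor_add_fract (x - k)
          linarith only [hf, this]
        have h3 : |((j - ⌊x - k⌋ : ℤ) : ℝ)| < 1 := by
          push_cast
          rw [← h2]
          have : (j : ℝ) - (x - k) = k + j - x := by ring
          rwa [this]
        have h4 : |j - ⌊x - k⌋| < 1 := by exact_mod_cast h3
        have h5 : j = ⌊x - k⌋ := by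
          have := abs_lt.1 h4
          omega
        rw [h5, ← h2]
        ring
      · have h2 : 0 < Int.fract (x - k) := lt_of_le_of_ne (Int.fract_nonneg _) (Ne.symm hf)
        have h3 := Int.fract_lt_one (x - k)
        refine ⟨min (Int.fract (x - k)) (1 - Int.fract (x - k)), lt_min h2 (by linarith),
          fun j hj => ?_⟩
        exfalso
        have h4 := abs_lt.1 (hj.trans_le (min_le_left _ _))
        have h5 := abs_lt.1 (hj.trans_le (min_le_right _ _))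
        unfold Int.fract at h4 h5
        have h6 : ((⌊x - k⌋ : ℤ) : ℝ) < j := by linarith [h4.1]
        have h7 : (j : ℝ) < (⌊x - k⌋ : ℤ) + 1 := by linarith [h5.2]
        have h8 : ⌊x - k⌋ < j := by exact_mod_cast h6
        have h9 : j < ⌊x - k⌋ + 1 := by exact_mod_cast h7
        omega
    obtain ⟨e, he, h⟩ := h0
    filter_upwards [Ioo_mem_nhdsGT he] with ε hε j hj using h j (hj.trans hε.2)
  have h2 := (K.eventually_all (l := 𝓝[>] (0 : ℝ))
    (p := fun k ε => ∀ j : ℤ, |k + j - x| < ε → k + j = x)).2 (fun k _ => h1 k)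
  obtain ⟨ε, h3, h4⟩ := (h2.and self_mem_nhdsWithin).exists
  exact ⟨ε, h4, h3⟩

/-- Only finitely many integers are on a wall. -/
theorem finite_on_wall (K : Finset ℝ) {β : ℝ} (hβ : Irrational β) :
    {t : ℤ | ∃ k ∈ K, ∃ j : ℤ, (t : ℝ) * β = k + j}.Finite := by
  have : {t : ℤ | ∃ k ∈ K, ∃ j : ℤ, (t : ℝ) * β = k + j} =
      ⋃ k ∈ (K : Set ℝ), {t : ℤ | ∃ j : ℤ, (t : ℝ) * β = k + j} := by
    ext t
    simp
  rw [this]
  refine K.finite_toSet.biUnion fun k _ => Set.Subsingleton.finite ?_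
  rintro t ⟨j, hj⟩ t' ⟨j', hj'⟩
  by_contra hne
  have h1 : ((t - t' : ℤ) : ℝ) ≠ 0 := by exact_mod_cast sub_ne_zero.2 hne
  refine hβ ⟨((j - j' : ℤ) : ℚ) / ((t - t' : ℤ) : ℚ), ?_⟩
  push_cast at h1 ⊢
  field_simp
  linarith only [hj, hj']

namespace Good1

variable {D : Set ℤ → Prop} (hD : Good1 D)
include hD

theorem empty : D ∅ := by
  have := hD.inter (hD.single 0) (hD.compl (hD.single 0))
  rwa [inter_compl_self] at this

theorem univ : D univ := by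
  have := hD.compl hD.empty
  rwa [compl_empty] at this

theorem union {Y Z : Set ℤ} (hY : D Y) (hZ : D Z) : D (Y ∪ Z) := by
  have := hD.compl (hD.inter (hD.compl hY) (hD.compl hZ))
  rwa [compl_inter, compl_compl, compl_compl] at this

theorem diff {Y Z : Set ℤ} (hY : D Y) (hZ : D Z) : D (Y \ Z) :=
  hD.inter hY (hD.compl hZ)

theorem aff {Z : Set ℤ} (a c : ℤ) (hZ : D Z) : D {t | a * t + c ∈ Z} := by
  have := hD.conv a 0 c (hD.single 0) hZ
  simpa using this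

theorem biUnion {ι : Type*} {s : Set ι} (hs : s.Finite) {f : ι → Set ℤ}
    (hf : ∀ i ∈ s, D (f i)) : D (⋃ i ∈ s, f i) := by
  induction s, hs using Set.Finite.induction_on with
  | empty => simpa using hD.empty
  | insert _ _ ih =>
    rw [biUnion_insert]
    exact hD.union (hf _ (mem_insert _ _)) (ih fun i hi => hf i (mem_insert_of_mem _ hi))

theorem biInter {ι : Type*} {s : Set ι} (hs : s.Finite) {f : ι → Set ℤ}
    (hf : ∀ i ∈ s, D (f i)) : D (⋂ i ∈ s, f i) := by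
  induction s, hs using Set.Finite.induction_on with
  | empty => simpa using hD.univ
  | insert _ _ ih =>
    rw [biInter_insert]
    exact hD.inter (hf _ (mem_insert _ _)) (ih fun i hi => hf i (mem_insert_of_mem _ hi))

theorem ex {ι : Type*} {s : Set ι} (hs : s.Finite) {f : ι → ℤ → Prop}
    (hf : ∀ i ∈ s, D {t | f i t}) : D {t | ∃ i ∈ s, f i t} := by
  have h := hD.biUnion hs hf
  have e : (⋃ i ∈ s, {t | f i t}) = {t | ∃ i ∈ s, f i t} := by
    ext t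
    simp
  rwa [e] at h

theorem all {ι : Type*} {s : Set ι} (hs : s.Finite) {f : ι → ℤ → Prop}
    (hf : ∀ i ∈ s, D {t | f i t}) : D {t | ∀ i ∈ s, f i t} := by
  have h := hD.biInter hs hf
  have e : (⋂ i ∈ s, {t | f i t}) = {t | ∀ i ∈ s, f i t} := by
    ext t
    simp
  rwa [e] at h

theorem finite {Φ : Set ℤ} (h : Φ.Finite) : D Φ := by
  have := hD.biUnion h (f := fun i => {i}) fun i _ => hD.single i
  rwa [biUnion_of_singleton] at this

end Good1

theorem Full.arc {D : Set ℤ → Prop} (hD : Good1 D) {γ β a b : ℝ} (hF : Full D γ)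
    (hβ : β ∈ Sp γ) (ha : a ∈ Sp γ) (hb : b ∈ Sp γ) (h1 : a < b) (h2 : b < a + 1 / 2) :
    D {t : ℤ | In (t * β) a b} := by
  have e : {t : ℤ | In (t * β) a b} =
      {t : ℤ | H (t * (-β) + a)}ᶜ ∩ {t : ℤ | H (t * β + -b)}ᶜ := by
    ext t
    simp only [mem_ofPred_eq, mem_inter_iff, mem_compl_iff, In_iff_H h1 h2]
    rw [show (t : ℝ) * (-β) + a = a - t * β by ring, show (t : ℝ) * β + -b = t * β - b by ring]
  rw [e]
  exact hD.inter (hD.compl (hF _ ((Sp γ).neg_mem hβ) _ ha))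
    (hD.compl (hF _ hβ _ ((Sp γ).neg_mem hb)))

end Pool.Agent.Work.MP_340ce7_lc
end

-- merged part: Pool.Agent.Work.MP_340ce7_lc.Good
section
/-! Step F4: classes of sets closed under the first-order operations. -/

namespace Pool.Agent.Work.MP_340ce7_lc

open Set

inductive IsAff {ι : Type} : ((ι → ℤ) → ℤ) → Prop
  | var (i : ι) : IsAff fun x => x i
  | const (c : ℤ) : IsAff fun _ => c
  | add {f g : (ι → ℤ) → ℤ} : IsAff f → IsAff g → IsAff fun x => f x + g x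
  | neg {f : (ι → ℤ) → ℤ} : IsAff f → IsAff fun x => -f x

def oc {ι R : Type} (y : R) (x : ι → R) : Option ι → R := fun o => o.elim y x

@[simp] theorem oc_none {ι R : Type} (y : R) (x : ι → R) : oc y x none = y := rfl

@[simp] theorem oc_some {ι R : Type} (y : R) (x : ι → R) (i : ι) : oc y x (some i) = x i := rfl

structure Good (P : ∀ ι : Type, Set (ι → ℤ) → Prop) : Prop where
  inter : ∀ {ι : Type} [Finite ι] {X Y : Set (ι → ℤ)}, P ι X → P ι Y → P ι (X ∩ Y)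
  compl : ∀ {ι : Type} [Finite ι] {X : Set (ι → ℤ)}, P ι X → P ι Xᶜ
  zero : P Unit {x | x () = 0}
  aff : ∀ {ι κ : Type} [Finite ι] [Finite κ] (T : (κ → ℤ) → ι → ℤ),
    (∀ i, IsAff fun x => T x i) → ∀ {X : Set (ι → ℤ)}, P ι X → P κ (T ⁻¹' X)
  proj : ∀ {ι : Type} [Finite ι] {X : Set (Option ι → ℤ)}, P (Option ι) X →
    P ι {x | ∃ y, oc y x ∈ X}

def D1 (P : ∀ ι : Type, Set (ι → ℤ) → Prop) (Y : Set ℤ) : Prop := P Unit {x | x () ∈ Y}

def Df (M : Str) (ι : Type) (X : Set (ι → ℤ)) : Prop := @Set.Definable ℤ univ M.L M.S ι X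

namespace IsAff

variable {ι κ : Type}

theorem sub {f g : (ι → ℤ) → ℤ} (hf : IsAff f) (hg : IsAff g) : IsAff fun x => f x - g x := by
  simpa only [sub_eq_add_neg] using hf.add hg.neg

theorem const_mul {f : (ι → ℤ) → ℤ} (hf : IsAff f) (c : ℤ) : IsAff fun x => c * f x := by
  induction c using Int.induction_on with
  | zero => simpa using IsAff.const 0
  | succ n ih => simpa only [add_mul, one_mul] using ih.add hf
  | pred n ih => simpa only [sub_mul, one_mul] using ih.sub hf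

theorem sum {J : Type} (s : Finset J) {f : J → (ι → ℤ) → ℤ} (hf : ∀ j ∈ s, IsAff (f j)) :
    IsAff fun x => ∑ j ∈ s, f j x := by
  classical
  induction s using Finset.induction_on with
  | empty => simpa using IsAff.const 0
  | insert a s ha ih =>
    simp only [Finset.sum_insert ha]
    exact (hf a (Finset.mem_insert_self _ _)).add
      (ih fun j hj => hf j (Finset.mem_insert_of_mem hj))

theorem comp {f : (ι → ℤ) → ℤ} (hf : IsAff f) {T : (κ → ℤ) → ι → ℤ}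
    (hT : ∀ i, IsAff fun x => T x i) : IsAff fun x => f (T x) := by
  induction hf with
  | var i => exact hT i
  | const c => exact IsAff.const c
  | add _ _ h1 h2 => exact h1.add h2
  | neg _ h1 => exact h1.neg

end IsAff

namespace Good

variable {P : ∀ ι : Type, Set (ι → ℤ) → Prop} (hP : Good P) {ι : Type} [Finite ι]
include hP

theorem d1 {Y : Set ℤ} (hY : D1 P Y) {g : (ι → ℤ) → ℤ} (hg : IsAff g) : P ι {x | g x ∈ Y} :=
  hP.aff (ι := Unit) (fun x _ => g x) (fun _ => hg) hY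

theorem eq {f g : (ι → ℤ) → ℤ} (hf : IsAff f) (hg : IsAff g) : P ι {x | f x = g x} := by
  have := hP.aff (ι := Unit) (fun x _ => f x - g x) (fun _ => hf.sub hg) hP.zero
  simpa only [preimage_ofPred_eq, sub_eq_zero] using this

theorem univ : P ι univ := by
  simpa using hP.eq (ι := ι) (IsAff.const 0) (IsAff.const 0)

theorem empty : P ι ∅ := by
  simpa using hP.compl (hP.univ (ι := ι))

theorem union {X Y : Set (ι → ℤ)} (hX : P ι X) (hY : P ι Y) : P ι (X ∪ Y) := by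
  have := hP.compl (hP.inter (hP.compl hX) (hP.compl hY))
  rwa [compl_inter, compl_compl, compl_compl] at this

theorem biUnion {J : Type*} {s : Set J} (hs : s.Finite) {f : J → Set (ι → ℤ)}
    (hf : ∀ i ∈ s, P ι (f i)) : P ι (⋃ i ∈ s, f i) := by
  induction s, hs using Set.Finite.induction_on with
  | empty => simpa using hP.empty
  | insert _ _ ih =>
    rw [biUnion_insert]
    exact hP.union (hf _ (mem_insert _ _)) (ih fun i hi => hf i (mem_insert_of_mem _ hi))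

theorem biInter {J : Type*} {s : Set J} (hs : s.Finite) {f : J → Set (ι → ℤ)}
    (hf : ∀ i ∈ s, P ι (f i)) : P ι (⋂ i ∈ s, f i) := by
  induction s, hs using Set.Finite.induction_on with
  | empty => simpa using hP.univ
  | insert _ _ ih =>
    rw [biInter_insert]
    exact hP.inter (hf _ (mem_insert _ _)) (ih fun i hi => hf i (mem_insert_of_mem _ hi))

theorem comp {κ : Type} [Finite κ] (σ : ι → κ) {X : Set (ι → ℤ)} (hX : P ι X) :
    P κ {x | x ∘ σ ∈ X} :=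
  hP.aff (fun x => x ∘ σ) (fun i => IsAff.var (σ i)) hX

omit [Finite ι] in
theorem good1 : Good1 (D1 P) where
  inter hY hZ := hP.inter hY hZ
  compl hY := hP.compl hY
  single c := hP.eq (IsAff.var ()) (IsAff.const c)
  conv a b c hY hZ :=
    hP.proj (hP.inter (hP.d1 hY (IsAff.var none))
      (hP.d1 hZ ((((IsAff.var (some ())).const_mul a).add
        ((IsAff.var none).const_mul b)).add (IsAff.const c))))

end Good

/-- A set determined by finitely many members of a good class is in the class. -/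
theorem Good.of_finite {P : ∀ ι : Type, Set (ι → ℤ) → Prop} (hP : Good P) {ι : Type} [Finite ι]
    {S : Set (Set (ι → ℤ))} (hS : S.Finite) (hSP : ∀ Y ∈ S, P ι Y) {X : Set (ι → ℤ)}
    (h : ∀ x x', (∀ Y ∈ S, (x ∈ Y ↔ x' ∈ Y)) → x ∈ X → x' ∈ X) : P ι X := by
  classical
  let cell : Set (Set (ι → ℤ)) → Set (ι → ℤ) := fun T => ⋂ Y ∈ S, if Y ∈ T then Y else Yᶜ
  have hc : ∀ T x, x ∈ cell T ↔ ∀ Y ∈ S, (x ∈ Y ↔ Y ∈ T) := by
    intro T x
    simp only [cell, mem_iInter]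
    refine forall₂_congr fun Y _ => ?_
    by_cases hY : Y ∈ T <;> simp [hY]
  have e : X = ⋃ T ∈ {T | T ⊆ S ∧ cell T ⊆ X}, cell T := by
    ext x
    simp only [mem_iUnion, mem_ofPred_eq, exists_prop]
    constructor
    · intro hx
      have h1 : x ∈ cell {Y ∈ S | x ∈ Y} := (hc _ _).2 fun Y hY => by simp [hY]
      refine ⟨{Y ∈ S | x ∈ Y}, ⟨fun _ hY => hY.1, fun x' hx' => h x x' (fun Y hY => ?_) hx⟩, h1⟩
      rw [(hc _ _).1 hx' Y hY]
      simp [hY]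
    · rintro ⟨T, hT, hx⟩
      exact hT.2 hx
  rw [e]
  refine hP.biUnion (hS.finite_subsets.subset fun T hT => hT.1) fun T _ =>
    hP.biInter hS fun Y hY => ?_
  by_cases hT : Y ∈ T
  · simpa [hT] using hSP Y hY
  · simpa [hT] using hP.compl (hSP Y hY)

end Pool.Agent.Work.MP_340ce7_lc
end

-- merged part: Pool.Agent.Work.MP_340ce7_lc.Switch
section
/-! Unary sets determined by finitely many half-circle conditions. -/

namespace Pool.Agent.Work.MP_340ce7_lc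

open Set Filter Topology

/-- One-sided limit of `H` in direction `m`. -/
def Hs (m v : ℝ) : Prop := if 0 ≤ m then H v else ¬ H (-v)

theorem ev_Hs (m v : ℝ) : ∀ᶠ s in 𝓝[>] (0 : ℝ), (H (v + m * s) ↔ Hs m v) := by
  have key : ∀ e : ℝ, 0 < e → ∀ᶠ s in 𝓝[>] (0 : ℝ), 0 < s ∧ -e < m * s ∧ m * s < e := by
    intro e he
    have h1 : Tendsto (fun s : ℝ => m * s) (𝓝 0) (𝓝 (m * 0)) := tendsto_id.const_mul m
    rw [mul_zero] at h1
    exact eventually_mem_nhdsWithin.and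
      ((h1.eventually (Ioo_mem_nhds (neg_lt_zero.2 he) he)).filter_mono nhdsWithin_le_nhds)
  unfold Hs
  split_ifs with hm
  · by_cases hv : H v
    · obtain ⟨n, h1, h2⟩ := (H_iff v).1 hv
      filter_upwards [key _ (sub_pos.2 h2)] with s ⟨h3, _, h5⟩
      exact iff_of_true ((H_iff _).2 ⟨n, by linarith only [h1, hm, h3, mul_nonneg hm h3.le], by linarith only [h5]⟩) hv
    · obtain ⟨n, h1, h2⟩ := (not_H_iff v).1 hv
      filter_upwards [key _ (neg_pos.2 h2)] with s ⟨h3, _, h5⟩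
      exact iff_of_false ((not_H_iff _).2
        ⟨n, by linarith only [h1, hm, h3, mul_nonneg hm h3.le], by linarith⟩) hv
  · by_cases hv : H (-v)
    · obtain ⟨n, h1, h2⟩ := (H_iff _).1 hv
      filter_upwards [key _ (sub_pos.2 h2)] with s ⟨h3, h4, _⟩
      have := mul_neg_of_neg_of_pos (not_le.1 hm) h3
      exact iff_of_false ((not_H_iff _).2 ⟨-n, by push_cast; linarith only [h4], by push_cast; linarith only [h1, this]⟩)
        (not_not.2 hv)
    · obtain ⟨n, h1, h2⟩ := (not_H_iff _).1 hv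
      filter_upwards [key _ (neg_pos.2 h2)] with s ⟨h3, h4, _⟩
      have := mul_neg_of_neg_of_pos (not_le.1 hm) h3
      exact iff_of_true ((H_iff _).2 ⟨-n, by push_cast; linarith only [h4], by push_cast; linarith only [h1, this]⟩) hv

/-- Membership in `Y` off `Φ` is determined by the conditions `H (m (t α) + g)`,
`(α, m, g) ∈ G`. -/
def PatDet (G : Finset (ℝ × ℤ × ℝ)) (Φ Y : Set ℤ) : Prop :=
  ∀ t t' : ℤ, t ∉ Φ → t' ∉ Φ →
    (∀ q ∈ G, (H (q.2.1 * (t * q.1) + q.2.2) ↔ H (q.2.1 * (t' * q.1) + q.2.2))) →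
      t ∈ Y → t' ∈ Y

theorem Switch_const {m g a b : ℝ} (h : ∀ x ∈ uIcc a b, ∀ l : ℤ, m * x + g ≠ l / 2) :
    H (m * a + g) ↔ H (m * b + g) := H_const fun l hl => by
  obtain ⟨x, hx, e⟩ := intermediate_value_uIcc (f := fun x => m * x + g) (by fun_prop) hl
  exact h x hx l e

theorem Switch_per (m : ℤ) (g x : ℝ) (n : ℤ) : H (m * (x + n) + g) ↔ H (m * x + g) := by
  rw [← H_add_int (m * x + g) (m * n), Int.cast_mul, mul_add, add_right_comm]

theorem tame_of_pat {G : Finset (ℝ × ℤ × ℝ)} {Φ Y : Set ℤ} (h : PatDet G Φ Y)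
    {A0 : Finset ℝ} (h0 : ∀ q ∈ G, q.1 ∈ A0) :
    ∃ K : Finset ℝ, Tame A0 K Φ Y ∧
      ∀ k ∈ K, ∃ q ∈ G, ∃ l : ℤ, q.2.1 ≠ 0 ∧ k = (l / 2 - q.2.2) / q.2.1 := by
  classical
  refine ⟨(G.filter fun q => q.2.1 ≠ 0).biUnion fun q => (Finset.Ico (0 : ℤ) |2 * q.2.1|).image
    fun l : ℤ => ((l : ℝ) / 2 - q.2.2) / q.2.1, fun t t' ht ht' hs => h t t' ht ht' fun q hq => ?_,
    fun k hk => ?_⟩
  · by_cases hm : q.2.1 = 0
    · rw [hm, Int.cast_zero, zero_mul, zero_mul]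
    obtain ⟨n, hn⟩ := hs q.1 (h0 q hq)
    rw [← Switch_per q.2.1 q.2.2 (t' * q.1) n]
    refine Switch_const fun x hx l e => hn (((l % (2 * q.2.1) : ℤ) / 2 - q.2.2) / q.2.1)
      (Finset.mem_biUnion.2 ⟨q, Finset.mem_filter.2 ⟨hq, hm⟩, Finset.mem_image_of_mem _
        (Finset.mem_Ico.2 ⟨Int.emod_nonneg _ (by omega), Int.emod_lt_abs _ (by omega)⟩)⟩)
      (l / (2 * q.2.1)) ?_
    have h1 : ((l % (2 * q.2.1) : ℤ) : ℝ) + 2 * q.2.1 * (l / (2 * q.2.1) : ℤ) = l := by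
      exact_mod_cast Int.emod_add_mul_ediv l (2 * q.2.1)
    have h2 : (q.2.1 : ℝ) ≠ 0 := Int.cast_ne_zero.2 hm
    have h3 : (((l % (2 * q.2.1) : ℤ) : ℝ) / 2 - q.2.2) / q.2.1 + (l / (2 * q.2.1) : ℤ) = x := by
      rw [div_add' _ _ _ h2, div_eq_iff h2]
      linarith only [e, h1]
    rwa [h3]
  · obtain ⟨q, hq, h1⟩ := Finset.mem_biUnion.1 hk
    obtain ⟨l, -, rfl⟩ := Finset.mem_image.1 h1
    exact ⟨q, (Finset.mem_filter.1 hq).1, l, (Finset.mem_filter.1 hq).2, rfl⟩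

/-- The points `x`, `y` have the same pattern in the coordinate `α`. -/
def Switch_R (G : Finset (ℝ × ℤ × ℝ)) (α x y : ℝ) : Prop :=
  ∀ q ∈ G, q.1 = α → (H (q.2.1 * x + q.2.2) ↔ H (q.2.1 * y + q.2.2))

theorem Switch_H {v : ℝ} (h : ∀ l : ℤ, v ≠ l / 2) : ∀ᶠ x in 𝓝 v, (H x ↔ H v) := by
  by_cases hv : H v
  · obtain ⟨n, h1, h2⟩ := (H_iff v).1 hv
    have h3 : (n : ℝ) < v := lt_of_le_of_ne (by linarith only [h1]) fun e => h (2 * n) (by push_cast; linarith only [h1, e])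
    filter_upwards [Ioo_mem_nhds h3 (show v < n + 1 / 2 by linarith only [h2])] with x hx
    exact iff_of_true ((H_iff x).2 ⟨n, by linarith [hx.1], by linarith only [hx, hx.2]⟩) hv
  · obtain ⟨n, h1, h2⟩ := (not_H_iff v).1 hv
    have h3 : (n : ℝ) - 1 / 2 < v :=
      lt_of_le_of_ne (by linarith only [h1]) fun e => h (2 * n - 1) (by push_cast; linarith only [h1, e])
    filter_upwards [Ioo_mem_nhds h3 (show v < n by linarith only [h2])] with x hx
    exact iff_of_false ((not_H_iff x).2 ⟨n, by linarith only [hx, hx.1], by linarith only [hx, hx.2]⟩) hv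

theorem Switch_loc {G : Finset (ℝ × ℤ × ℝ)} {t : ℤ}
    (hw : ∀ q ∈ G, q.2.1 ≠ 0 → ∀ l : ℤ, q.2.1 * (t * q.1) + q.2.2 ≠ l / 2) (α : ℝ) :
    ∀ᶠ x in 𝓝 (t * α), Switch_R G α x (t * α) := by
  refine G.eventually_all.2 fun q hq => eventually_imp_distrib_left.2 fun e => ?_
  by_cases hm : q.2.1 = 0
  · exact Eventually.of_forall fun x => by rw [hm, Int.cast_zero, zero_mul, zero_mul]
  · subst e
    exact ((tendsto_id.const_mul _).add_const _).eventually (Switch_H (hw q hq hm))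

theorem Switch_side (G : Finset (ℝ × ℤ × ℝ)) (α c : ℝ) : ∃ ε : ℝ, 0 < ε ∧
    (∀ x ∈ Ioo (c - ε) c, ∀ y ∈ Ioo (c - ε) c, Switch_R G α x y) ∧
      ∀ x ∈ Ioo c (c + ε), ∀ y ∈ Ioo c (c + ε), Switch_R G α x y := by
  obtain ⟨ε, hε, h⟩ := mem_nhdsGT_iff_exists_Ioo_subset.1 (G.eventually_all.2 fun q _ =>
    (ev_Hs (-q.2.1) (q.2.1 * c + q.2.2)).and (ev_Hs q.2.1 (q.2.1 * c + q.2.2)))
  have h1 : ∀ x ∈ Ioo (c - ε) c, ∀ q ∈ G,
      (H (q.2.1 * x + q.2.2) ↔ Hs (-q.2.1) (q.2.1 * c + q.2.2)) := fun x hx q hq => by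
    rw [← (h (show c - x ∈ Ioo 0 ε from ⟨by linarith [hx.2], by linarith [hx.1]⟩) q hq).1]
    exact Iff.of_eq (congrArg H (by ring))
  have h2 : ∀ x ∈ Ioo c (c + ε), ∀ q ∈ G,
      (H (q.2.1 * x + q.2.2) ↔ Hs q.2.1 (q.2.1 * c + q.2.2)) := fun x hx q hq => by
    rw [← (h (show x - c ∈ Ioo 0 ε from ⟨by linarith [hx.1], by linarith [hx.2]⟩) q hq).2]
    exact Iff.of_eq (congrArg H (by ring))
  exact ⟨ε, hε, fun x hx y hy q hq _ => (h1 x hx q hq).trans (h1 y hy q hq).symm,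
    fun x hx y hy q hq _ => (h2 x hx q hq).trans (h2 y hy q hq).symm⟩

theorem Switch_flip {ι : Type} [DecidableEq ι] (P : Finset ι → Prop) (S : Finset ι) (h0 : P ∅)
    (h1 : ¬ P S) : ∃ (T : Finset ι) (α : ι), α ∈ S ∧ α ∉ T ∧ P T ∧ ¬ P (insert α T) := by
  by_contra h
  exact h1 (S.induction_on' h0 fun _ _ h2 _ h3 h4 => not_not.1 fun h5 => h ⟨_, _, h2, h3, h4, h5⟩)

theorem Switch_cut {f : ℝ → Prop} {a b : ℝ} (hab : a < b) (ha : ∀ᶠ x in 𝓝 a, f x)
    (hb : ∀ᶠ x in 𝓝 b, ¬ f x) (h : ∀ c, ∃ ε : ℝ, 0 < ε ∧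
      (∀ x ∈ Ioo (c - ε) c, ∀ y ∈ Ioo (c - ε) c, f x → f y) ∧
        ∀ x ∈ Ioo c (c + ε), ∀ y ∈ Ioo c (c + ε), f x → f y) :
    ∃ c ε : ℝ, 0 < ε ∧ (∀ x ∈ Ioo (c - ε) c, f x) ∧ ∀ x ∈ Ioo c (c + ε), ¬ f x := by
  have h1 := isLUB_csSup (s := {x | x ≤ b ∧ ∀ᶠ y in 𝓝 x, f y}) ⟨a, hab.le, ha⟩ ⟨b, fun x hx => hx.1⟩
  generalize sSup {x | x ≤ b ∧ ∀ᶠ y in 𝓝 x, f y} = c at h1
  obtain ⟨ε, hε, h2, h3⟩ := h c
  have h4 : ∀ x ∈ Icc (c - ε) c, ∃ᶠ y in 𝓝 x, y ∈ Ioo (c - ε) c := fun x hx =>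
    mem_closure_iff_frequently.1 (closure_Ioo (sub_lt_self c hε).ne ▸ hx)
  have h5 : ∀ x ∈ Ioo (c - ε) c, f x := fun x hx => by
    obtain ⟨z, hz, h6⟩ := h1.exists_between (sub_lt_self c hε)
    obtain ⟨y, h7, h8⟩ := ((h4 z ⟨h6.1.le, h6.2⟩).and_eventually hz.2).exists
    exact h2 y h7 x hx h8
  refine ⟨c, ε, hε, h5, fun x hx hf => ?_⟩
  have h6 : c < b := lt_of_le_of_ne (h1.2 fun x hx => hx.1) fun e => by
    obtain ⟨y, h7, h8⟩ := ((h4 c ⟨(sub_lt_self c hε).le, le_rfl⟩).and_eventually (e ▸ hb)).exists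
    exact h8 (h5 y h7)
  obtain ⟨z, h7, h8⟩ := exists_between (lt_min h6 (lt_add_of_pos_right c hε))
  refine h7.not_ge (h1.1 ⟨(h8.trans_le (min_le_left _ _)).le, ?_⟩)
  filter_upwards [Ioo_mem_nhds h7 (h8.trans_le (min_le_right _ _))] with y hy
  exact h3 x hx y hy hf

theorem switch {G : Finset (ℝ × ℤ × ℝ)} {Φ Y : Set ℤ} (h : PatDet G Φ Y)
    {A0 : Finset ℝ} (h0 : ∀ q ∈ G, q.1 ∈ A0) (B : Set ℝ) {t0 t1 : ℤ} (ht0 : t0 ∉ Φ)
    (ht1 : t1 ∉ Φ) (hY0 : t0 ∈ Y) (hY1 : t1 ∉ Y)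
    (hw0 : ∀ q ∈ G, q.2.1 ≠ 0 → ∀ l : ℤ, q.2.1 * (t0 * q.1) + q.2.2 ≠ l / 2)
    (hw1 : ∀ q ∈ G, q.2.1 ≠ 0 → ∀ l : ℤ, q.2.1 * (t1 * q.1) + q.2.2 ≠ l / 2)
    (hB : ∀ q ∈ G, q.1 ∈ B →
      (H (q.2.1 * (t0 * q.1) + q.2.2) ↔ H (q.2.1 * (t1 * q.1) + q.2.2))) :
    ∃ α ∈ A0, α ∉ B ∧ Dep A0 Φ Y α := by
  classical
  let Ψ : (ℝ → ℝ) → Prop := fun θ => ∃ t : ℤ, t ∉ Φ ∧ t ∈ Y ∧ ∀ α ∈ A0, Switch_R G α (t * α) (θ α)
  have hΨ : ∀ (θ : ℝ → ℝ) (t : ℤ), t ∉ Φ → (∀ α ∈ A0, Switch_R G α (t * α) (θ α)) →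
      (t ∈ Y ↔ Ψ θ) := fun θ t ht h1 => ⟨fun h2 => ⟨t, ht, h2, h1⟩, fun ⟨u, hu, h2, h3⟩ =>
    h u t hu ht (fun q hq => (h3 _ (h0 q hq) q hq rfl).trans (h1 _ (h0 q hq) q hq rfl).symm) h2⟩
  let th : Finset ℝ → ℝ → ℝ := fun S β => if β ∈ S then t1 * β else t0 * β
  obtain ⟨S, α, hα, h1, h2, h3⟩ := Switch_flip (fun S => Ψ (th S)) (A0.filter fun β => β ∉ B)
    ⟨t0, ht0, hY0, fun α _ q _ _ => Iff.rfl⟩ fun h4 => hY1 ((hΨ _ t1 ht1 fun α hα q hq e => by
      by_cases hb : α ∈ B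
      · simp only [th, Finset.mem_filter, hb, not_true, and_false, if_false]
        subst e
        exact (hB q hq hb).symm
      · simp only [th, Finset.mem_filter, hb, hα, not_false_iff, and_self, if_true]).2 h4)
  have hf : ∀ x y, Switch_R G α x y → Ψ (Function.update (th S) α x) →
      Ψ (Function.update (th S) α y) := by
    rintro x y hxy ⟨t, h4, h5, h6⟩
    refine ⟨t, h4, h5, fun β hβ => ?_⟩
    have h7 := h6 β hβ
    by_cases e : β = α
    · subst e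
      rw [Function.update_self] at h7 ⊢
      exact fun q hq e => (h7 q hq e).trans (hxy q hq e)
    · rwa [Function.update_of_ne e] at h7 ⊢
  have e0 : Function.update (th S) α (t0 * α) = th S := Function.update_eq_self_iff.2 (if_neg h1).symm
  have e1 : Function.update (th S) α (t1 * α) = th (insert α S) := by
    funext β
    by_cases e : β = α
    · subst e
      simp [th]
    · simp [th, e]
  obtain ⟨n, hn⟩ := exists_int_gt (t0 * α - t1 * α)
  have hn' : Tendsto (fun x : ℝ => x - n) (𝓝 (t1 * α + n)) (𝓝 (t1 * α)) :=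
    Continuous.tendsto' (by fun_prop) _ _ (add_sub_cancel_right _ _)
  obtain ⟨c, ε, hε, h4, h5⟩ := Switch_cut (f := fun x => Ψ (Function.update (th S) α x))
    (a := t0 * α) (b := t1 * α + n) (by linarith)
    ((Switch_loc hw0 α).mono fun x hx => hf _ _ (fun q hq e => (hx q hq e).symm) (e0.symm ▸ h2))
    ((hn'.eventually (Switch_loc hw1 α)).mono fun x hx h6 => h3 (e1 ▸ hf _ _
        (fun q hq e => by rw [← hx q hq e, ← Switch_per _ _ (x - n) n, sub_add_cancel]) h6))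
    fun c => (Switch_side G α c).imp fun ε hε => ⟨hε.1, fun x hx y hy => hf x y (hε.2.1 x hx y hy),
      fun x hx y hy => hf x y (hε.2.2 x hx y hy)⟩
  have h6 : ∀ β, ∀ᶠ s in 𝓝 (0 : ℝ), Switch_R G β (th S β + s) (th S β) := fun β => by
    have h7 : Tendsto (fun s : ℝ => th S β + s) (𝓝 0) (𝓝 (th S β + 0)) := tendsto_id.const_add _
    rw [add_zero] at h7
    refine h7.eventually (p := fun x => Switch_R G β x (th S β)) ?_
    by_cases hb : β ∈ S
    · simp only [th, if_pos hb]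
      exact Switch_loc hw1 β
    · simp only [th, if_neg hb]
      exact Switch_loc hw0 β
  obtain ⟨ρ, hρ, h7⟩ := Metric.eventually_nhds_iff.1 ((A0.eventually_all).2 fun β _ => h6 β)
  refine ⟨α, (Finset.mem_filter.1 hα).1, (Finset.mem_filter.1 hα).2, c, ε, ρ, th S, hε, hρ,
    fun t ht h8 => ?_⟩
  have h9 : ∀ j : ℤ, t ∈ Y ↔ Ψ (Function.update (th S) α (t * α - j)) := fun j => by
    refine hΨ _ t ht fun β hβ q hq e => ?_
    by_cases e' : β = α
    · rw [e', Function.update_self, ← Switch_per _ _ (t * α - j) j, sub_add_cancel]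
    · obtain ⟨k, hk⟩ := h8 β hβ e'
      rw [Function.update_of_ne e', ← h7 (by rwa [Real.dist_0_eq_abs]) β hβ q hq e,
        ← Switch_per _ _ (_ + _) k]
      exact Iff.of_eq (congrArg H (by ring))
  exact ⟨fun ⟨j, hj⟩ => (h9 j).2 (h4 _ hj), fun ⟨j, hj⟩ hY => h5 _ hj ((h9 j).1 hY)⟩

theorem Switch_last {m : ℝ} (g θ : ℝ) (hm : m ≠ 0) : ∃ l : ℤ, (l / 2 - g) / m ≤ θ ∧
    ∀ x, (l / 2 - g) / m < x → x ≤ θ → ∀ j : ℤ, m * x + g ≠ j / 2 := by
  rcases hm.lt_or_gt with h | h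
  · have h1 := Int.le_ceil (2 * (m * θ + g))
    refine ⟨⌈2 * (m * θ + g)⌉, (div_le_iff_of_neg h).2 (by linarith only [h1]), fun x h2 h3 j e => ?_⟩
    rw [div_lt_iff_of_neg h] at h2
    have h4 := Int.cast_le (R := ℝ).2 (Int.ceil_le.2 (show 2 * (m * θ + g) ≤ j by
      linarith only [e, h3, h, mul_le_mul_of_nonpos_left h3 h.le]))
    linarith only [h2, e, h4]
  · have h1 := Int.floor_le (2 * (m * θ + g))
    refine ⟨⌊2 * (m * θ + g)⌋, (div_le_iff₀ h).2 (by linarith), fun x h2 h3 j e => ?_⟩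
    rw [div_lt_iff₀ h] at h2
    have h4 := Int.cast_le (R := ℝ).2 (Int.le_floor.2 (show (j : ℝ) ≤ 2 * (m * θ + g) by
      linarith only [e, h3, h, mul_le_mul_of_nonneg_left h3 h.le]))
    linarith only [h2, e, h4]

/-- Abstract elimination of one real variable: the pattern at `θ` is the right limit pattern at
the last wall below `θ`. -/
theorem last_wall {ι : Type} (I : Finset ι) (m g : ι → ℝ) (θ : ℝ) (hne : ∃ i ∈ I, m i ≠ 0)
    (hw : ∀ i ∈ I, m i ≠ 0 → ∀ l : ℤ, m i * θ + g i ≠ l / 2) :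
    ∃ i ∈ I, ∃ l : ℤ, m i ≠ 0 ∧ ∀ k ∈ I,
      (H (m k * θ + g k) ↔ Hs (m k) (m k * ((l / 2 - g i) / m i) + g k)) := by
  classical
  choose! l h1 h2 using fun i => Switch_last (m := m i) (g i) θ
  obtain ⟨i, hi, h3⟩ := (I.filter fun i => m i ≠ 0).exists_max_image
    (fun i => ((l i : ℝ) / 2 - g i) / m i) (hne.imp fun i hi => Finset.mem_filter.2 hi)
  obtain ⟨hi, hm⟩ := Finset.mem_filter.1 hi
  refine ⟨i, hi, l i, hm, fun k hk => ?_⟩
  have h4 : ((l i : ℝ) / 2 - g i) / m i < θ := lt_of_le_of_ne (h1 i hm) fun e =>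
    hw i hi hm (l i) (by rw [← e, mul_div_cancel₀ _ hm, sub_add_cancel])
  generalize ((l i : ℝ) / 2 - g i) / m i = w at h3 h4
  by_cases hk0 : m k = 0
  · simp [Hs, hk0]
  obtain ⟨s, h5, h6⟩ := ((ev_Hs (m k) (m k * w + g k)).and (Ioo_mem_nhdsGT (sub_pos.2 h4))).exists
  rw [← h5, add_right_comm, ← mul_add]
  refine Switch_const fun x hx => ?_
  rw [uIcc_of_ge (by linarith [h6.2])] at hx
  exact h2 k hk0 x (by linarith only [h6, h3, hk, hk0, hx, h3 k (Finset.mem_filter.2 ⟨hk, hk0⟩), hx.1, h6.1]) hx.2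

end Pool.Agent.Work.MP_340ce7_lc
end

-- merged part: Pool.Agent.Work.MP_340ce7_lc.Det
section
/-! Step F2: sets determined by finitely many atoms. -/

namespace Pool.Agent.Work.MP_340ce7_lc

open Set Filter

abbrev Fu (ι : Type) : Type := (ι → ℚ) →ₗ[ℚ] ℚ

structure Frm (ι : Type) where
  α : ℝ
  b : Fu ι
  r : ℝ

variable {ι κ : Type}

def Frm.ev (f : Frm ι) (x : ι → ℚ) : ℝ := (f.b x : ℝ) * f.α + f.r

def Cong (N : ℕ) (x x' : ι → ℚ) : Prop := ∀ i, ∃ n : ℤ, x' i - x i = N * n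

structure Agree (N : ℕ) (E : Set (Fu ι × ℚ)) (F : Set (Frm ι)) (x x' : ι → ℚ) : Prop where
  cong : Cong N x x'
  eqn : ∀ e ∈ E, (e.1 x = e.2 ↔ e.1 x' = e.2)
  frm : ∀ f ∈ F, (H (f.ev x) ↔ H (f.ev x'))

def Ok (A : Set ℝ) (K : ℝ → Submodule ℚ ℝ) (f : Frm ι) : Prop := f.α ∈ A ∧ f.r ∈ K f.α

theorem Cong.of_mul_left {N N' : ℕ} {x x' : ι → ℚ} (h : Cong (N * N') x x') : Cong N x x' :=
  fun i => by
    obtain ⟨n, hn⟩ := h i
    exact ⟨N' * n, by rw [hn]; push_cast; ring⟩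

theorem Cong.of_mul_right {N N' : ℕ} {x x' : ι → ℚ} (h : Cong (N * N') x x') : Cong N' x x' :=
  Cong.of_mul_left (N' := N) (by rwa [mul_comm])

theorem Cong.refl (N : ℕ) (x : ι → ℚ) : Cong N x x := fun _ => ⟨0, by simp⟩

theorem Cong.symm {N : ℕ} {x x' : ι → ℚ} (h : Cong N x x') : Cong N x' x := fun i => by
  obtain ⟨n, hn⟩ := h i
  exact ⟨-n, by push_cast; linarith⟩

theorem Cong.trans {N : ℕ} {x y z : ι → ℚ} (h : Cong N x y) (h' : Cong N y z) : Cong N x z :=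
  fun i => by
    obtain ⟨n, hn⟩ := h i
    obtain ⟨m, hm⟩ := h' i
    exact ⟨n + m, by push_cast; linarith only [hn, hm]⟩

theorem Agree.refl (N : ℕ) (E : Set (Fu ι × ℚ)) (F : Set (Frm ι)) (x : ι → ℚ) :
    Agree N E F x x :=
  ⟨Cong.refl N x, fun _ _ => Iff.rfl, fun _ _ => Iff.rfl⟩

theorem Agree.symm {N : ℕ} {E : Set (Fu ι × ℚ)} {F : Set (Frm ι)} {x x' : ι → ℚ}
    (h : Agree N E F x x') : Agree N E F x' x :=
  ⟨h.cong.symm, fun e he => (h.eqn e he).symm, fun f hf => (h.frm f hf).symm⟩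

theorem Agree.trans {N : ℕ} {E : Set (Fu ι × ℚ)} {F : Set (Frm ι)} {x y z : ι → ℚ}
    (h : Agree N E F x y) (h' : Agree N E F y z) : Agree N E F x z :=
  ⟨h.cong.trans h'.cong, fun e he => (h.eqn e he).trans (h'.eqn e he),
    fun f hf => (h.frm f hf).trans (h'.frm f hf)⟩

/-- The filter of pairs of points which agree on more and more atoms. -/
def U (A : Set ℝ) (K : ℝ → Submodule ℚ ℝ) (ι : Type) : Filter ((ι → ℚ) × (ι → ℚ)) where
  sets := {S | ∃ (N : ℕ) (E : Set (Fu ι × ℚ)) (F : Set (Frm ι)), 0 < N ∧ E.Finite ∧ F.Finite ∧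
    (∀ f ∈ F, Ok A K f) ∧ ∀ x x', Agree N E F x x' → (x, x') ∈ S}
  univ_sets := ⟨1, ∅, ∅, one_pos, finite_empty, finite_empty, by simp, fun _ _ _ => trivial⟩
  sets_of_superset := by
    rintro S T ⟨N, E, F, h1, h2, h3, h4, h5⟩ h
    exact ⟨N, E, F, h1, h2, h3, h4, fun x x' hx => h (h5 x x' hx)⟩
  inter_sets := by
    rintro S T ⟨N, E, F, h1, h2, h3, h4, h5⟩ ⟨N', E', F', h1', h2', h3', h4', h5'⟩
    refine ⟨N * N', E ∪ E', F ∪ F', Nat.mul_pos h1 h1', h2.union h2', h3.union h3',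
      fun f hf => hf.elim (h4 f) (h4' f), fun x x' hx => ⟨h5 x x' ?_, h5' x x' ?_⟩⟩
    · exact ⟨hx.cong.of_mul_left, fun e he => hx.eqn e (Or.inl he),
        fun f hf => hx.frm f (Or.inl hf)⟩
    · exact ⟨hx.cong.of_mul_right, fun e he => hx.eqn e (Or.inr he),
        fun f hf => hx.frm f (Or.inr hf)⟩

variable {A : Set ℝ} {K : ℝ → Submodule ℚ ℝ}

theorem ev_U {p : (ι → ℚ) × (ι → ℚ) → Prop} : (∀ᶠ z in U A K ι, p z) ↔
    ∃ (N : ℕ) (E : Set (Fu ι × ℚ)) (F : Set (Frm ι)), 0 < N ∧ E.Finite ∧ F.Finite ∧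
      (∀ f ∈ F, Ok A K f) ∧ ∀ x x', Agree N E F x x' → p (x, x') := Iff.rfl

theorem ev_cong {N : ℕ} (hN : 0 < N) : ∀ᶠ z in U A K ι, Cong N z.1 z.2 :=
  ev_U.2 ⟨N, ∅, ∅, hN, finite_empty, finite_empty, by simp, fun _ _ h => h.cong⟩

theorem ev_eqn (a : Fu ι) (c : ℚ) : ∀ᶠ z in U A K ι, (a z.1 = c ↔ a z.2 = c) :=
  ev_U.2 ⟨1, {(a, c)}, ∅, one_pos, finite_singleton _, finite_empty, by simp,
    fun _ _ h => h.eqn (a, c) rfl⟩

theorem ev_frm {f : Frm ι} (hf : Ok A K f) : ∀ᶠ z in U A K ι, (H (f.ev z.1) ↔ H (f.ev z.2)) :=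
  ev_U.2 ⟨1, ∅, {f}, one_pos, finite_empty, finite_singleton _, by simpa using hf,
    fun _ _ h => h.frm f rfl⟩

theorem ev_agree {X : Type*} {l : Filter X} {u v : X → ι → ℚ} {N : ℕ} {E : Set (Fu ι × ℚ)}
    {F : Set (Frm ι)} (hE : E.Finite) (hF : F.Finite) (h1 : ∀ᶠ z in l, Cong N (u z) (v z))
    (h2 : ∀ e ∈ E, ∀ᶠ z in l, (e.1 (u z) = e.2 ↔ e.1 (v z) = e.2))
    (h3 : ∀ f ∈ F, ∀ᶠ z in l, (H (f.ev (u z)) ↔ H (f.ev (v z)))) :
    ∀ᶠ z in l, Agree N E F (u z) (v z) := by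
  filter_upwards [h1, (eventually_all_finite hE).2 h2, (eventually_all_finite hF).2 h3]
    with z a b c using ⟨a, b, c⟩

def cz (x : ι → ℤ) : ι → ℚ := fun i => x i

def Det (A : Set ℝ) (K : ℝ → Submodule ℚ ℝ) (ι : Type) (X : Set (ι → ℤ)) : Prop :=
  ∃ (N : ℕ) (E : Set (Fu ι × ℚ)) (F : Set (Frm ι)), 0 < N ∧ E.Finite ∧ F.Finite ∧
    (∀ f ∈ F, Ok A K f) ∧ ∀ x x', Agree N E F (cz x) (cz x') → x ∈ X → x' ∈ X

theorem det_iff {X : Set (ι → ℤ)} : Det A K ι X ↔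
    ∀ᶠ z in U A K ι, ∀ x x', cz x = z.1 → cz x' = z.2 → x ∈ X → x' ∈ X := by
  rw [ev_U]
  constructor
  · rintro ⟨N, E, F, h1, h2, h3, h4, h5⟩
    refine ⟨N, E, F, h1, h2, h3, h4, ?_⟩
    rintro _ _ h x x' rfl rfl
    exact h5 x x' h
  · rintro ⟨N, E, F, h1, h2, h3, h4, h5⟩
    exact ⟨N, E, F, h1, h2, h3, h4, fun x x' h => h5 _ _ h x x' rfl rfl⟩

theorem Det_den {J : Type} [Finite J] (q : J → ℚ) :
    ∃ D : ℕ, 0 < D ∧ ∀ j, ∃ n : ℤ, (n : ℚ) = D * q j := by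
  cases nonempty_fintype J
  refine ⟨∏ j, (q j).den, Finset.prod_pos fun j _ => (q j).den_pos, fun j => ?_⟩
  obtain ⟨m, hm⟩ := Finset.dvd_prod_of_mem (fun j => (q j).den) (Finset.mem_univ j)
  refine ⟨m * (q j).num, ?_⟩
  rw [hm]
  push_cast
  rw [← Rat.den_mul_eq_num]
  ring

theorem Det_cz (z v : ι → ℤ) (t : ℤ) : (cz fun i => z i + t * v i) = cz z + (t : ℚ) • cz v :=
  funext fun i => by simp [cz]

/-- A rational functional has bounded denominators on integer points. -/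
theorem den_aff [Finite ι] (a : Fu ι) :
    ∃ D : ℕ, 0 < D ∧ ∃ g : (ι → ℤ) → ℤ, IsAff g ∧ ∀ x, (g x : ℚ) = D * a (cz x) := by
  classical
  cases nonempty_fintype ι
  obtain ⟨D, hD, h⟩ := Det_den fun i : ι => a fun j => if i = j then 1 else 0
  choose n hn using h
  refine ⟨D, hD, fun x => ∑ i, n i * x i, IsAff.sum _ fun i _ => (IsAff.var i).const_mul _,
    fun x => ?_⟩
  rw [LinearMap.pi_apply_eq_sum_univ a, Finset.mul_sum]
  push_cast
  exact Finset.sum_congr rfl fun i _ => by rw [hn, smul_eq_mul, cz]; ring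

/-- Common denominator for finitely many functionals. -/
theorem den_common [Finite ι] {S : Set (Fu ι)} (hS : S.Finite) :
    ∃ D : ℕ, 0 < D ∧ ∀ a ∈ S, ∀ (N : ℕ) (x x' : ι → ℚ), Cong (N * D) x x' →
      ∃ n : ℤ, a x' - a x = N * n := by
  classical
  cases nonempty_fintype ι
  have := hS.to_subtype
  obtain ⟨D, hD, h⟩ := Det_den fun p : S × ι => p.1.1 fun j => if p.2 = j then 1 else 0
  choose m hm using h
  refine ⟨D, hD, fun a ha N x x' hx => ?_⟩
  choose n hn using hx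
  refine ⟨∑ i, n i * m (⟨a, ha⟩, i), ?_⟩
  rw [← map_sub, LinearMap.pi_apply_eq_sum_univ a]
  push_cast
  rw [Finset.mul_sum]
  refine Finset.sum_congr rfl fun i _ => ?_
  rw [hm, smul_eq_mul, Pi.sub_apply, hn]
  push_cast
  ring

theorem IsAff.rat {g : (ι → ℤ) → ℤ} (hg : IsAff g) :
    ∃ (a : Fu ι) (c : ℚ), ∀ x, (g x : ℚ) = a (cz x) + c := by
  induction hg with
  | var i => exact ⟨LinearMap.proj i, 0, fun x => (add_zero _).symm⟩
  | const c => exact ⟨0, c, fun x => (zero_add _).symm⟩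
  | add _ _ h1 h2 =>
    obtain ⟨a, c, h1⟩ := h1
    obtain ⟨a', c', h2⟩ := h2
    exact ⟨a + a', c + c', fun x => by rw [Int.cast_add, h1, h2, LinearMap.add_apply]; ring⟩
  | neg _ h1 =>
    obtain ⟨a, c, h1⟩ := h1
    exact ⟨-a, -c, fun x => by rw [Int.cast_neg, h1, LinearMap.neg_apply]; ring⟩

/-- Rational affine maps preserve agreement. -/
theorem ev_affine [Finite ι] [Finite κ] (hK : ∀ α ∈ A, α ∈ K α) (L : (κ → ℚ) →ₗ[ℚ] (ι → ℚ))
    (c : ι → ℚ) {N : ℕ} {E : Set (Fu ι × ℚ)} {F : Set (Frm ι)} (hN : 0 < N) (hE : E.Finite)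
    (hF : F.Finite) (hok : ∀ f ∈ F, Ok A K f) :
    ∀ᶠ z in U A K κ, Agree N E F (L z.1 + c) (L z.2 + c) := by
  obtain ⟨D, hD, h⟩ := den_common (finite_range fun i : ι => (LinearMap.proj i).comp L)
  refine ev_agree hE hF ((ev_cong (Nat.mul_pos hN hD)).mono fun z hz i => ?_) (fun e _ => ?_)
    fun f hf => ?_
  · obtain ⟨n, hn⟩ := h _ ⟨i, rfl⟩ N _ _ hz
    exact ⟨n, (add_sub_add_right_eq_sub _ _ _).trans hn⟩
  · simpa only [map_add, LinearMap.comp_apply, eq_sub_iff_add_eq] using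
      ev_eqn (A := A) (K := K) (e.1.comp L) (e.2 - e.1 c)
  · have := ev_frm (A := A) (K := K) (f := ⟨f.α, f.b.comp L, f.b c * f.α + f.r⟩)
      ⟨(hok f hf).1, add_mem (rat_mul_mem (hK _ (hok f hf).1) _) (hok f hf).2⟩
    simpa only [Frm.ev, map_add, LinearMap.comp_apply, Rat.cast_add, add_mul, add_assoc] using this

theorem det_H {α r : ℝ} (hα : α ∈ A) (hr : r ∈ K α) (q : ℚ) :
    D1 (Det A K) {t : ℤ | H (t * (q * α) + r)} := by
  refine ⟨1, ∅, {⟨α, q • LinearMap.proj (), r⟩}, one_pos, finite_empty, finite_singleton _,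
    fun f hf => hf ▸ ⟨hα, hr⟩, fun x x' h => ?_⟩
  have e : ∀ y : Unit → ℤ, Frm.ev ⟨α, q • LinearMap.proj (), r⟩ (cz y) = y () * (q * α) + r :=
    fun y => by simp [Frm.ev, cz, mul_comm, mul_left_comm]
  have := h.frm _ rfl
  rw [e, e] at this
  exact this.1

/-- Sets determined by atoms over `B` are in every good class which is full for `B`. -/
theorem det_sub {P : ∀ ι : Type, Set (ι → ℤ) → Prop} (hP : Good P) {B : Set ℝ}
    (hB : ∀ α ∈ B, Full (D1 P) α) [Finite ι] {X : Set (ι → ℤ)} (hX : Det B Sp ι X) : P ι X := by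
  obtain ⟨N, E, F, hN, hE, hF, hok, h⟩ := hX
  have hN' : (0 : ℤ) < N := by exact_mod_cast hN
  have hM : D1 P {t | (N : ℤ) ∣ t} := by
    have := hP.good1.conv 1 (-N) 0 hP.good1.univ (hP.good1.single 0)
    refine Eq.mp (congrArg _ (Set.ext fun t => ?_)) this
    simp [add_neg_eq_zero, Dvd.dvd]
  refine hP.of_finite (S := (fun p : ι × ℤ => {x | (N : ℤ) ∣ x p.1 - p.2}) ''
    ((univ : Set ι) ×ˢ Ico (0 : ℤ) N) ∪ ((fun e : Fu ι × ℚ => {x | e.1 (cz x) = e.2}) '' E ∪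
      (fun f : Frm ι => {x | H (f.ev (cz x))}) '' F))
    (((finite_univ.prod (finite_Ico _ _)).image _).union ((hE.image _).union (hF.image _))) ?_
    fun x x' hx => h x x' ⟨fun i => ?_, fun e he => hx _ (Or.inr (Or.inl ⟨e, he, rfl⟩)),
      fun f hf => hx _ (Or.inr (Or.inr ⟨f, hf, rfl⟩))⟩
  · rintro _ (⟨p, -, rfl⟩ | ⟨e, -, rfl⟩ | ⟨f, hf, rfl⟩)
    · exact hP.d1 hM ((IsAff.var p.1).sub (IsAff.const p.2))
    · obtain ⟨D, hD, g, hg, hx⟩ := den_aff e.1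
      refine Eq.mp (congrArg _ (Set.ext fun x => ?_))
        (hP.eq (hg.const_mul e.2.den) (IsAff.const (D * e.2.num)))
      have h1 : (D : ℚ) ≠ 0 := by exact_mod_cast hD.ne'
      have h2 : (e.2.den : ℚ) ≠ 0 := by exact_mod_cast e.2.den_nz
      change _ = _ ↔ _ = _
      rw [← Int.cast_inj (α := ℚ)]
      push_cast
      rw [hx, ← Rat.den_mul_eq_num, mul_left_comm, mul_right_inj' h1, mul_right_inj' h2]
    · obtain ⟨D, hD, g, hg, hx⟩ := den_aff f.b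
      refine Eq.mp (congrArg _ (Set.ext fun x => ?_)) (hP.d1 (hB _ (hok f hf).1 _
        (rat_mul_mem (self_mem_Sp f.α) (D : ℚ)⁻¹) _ (hok f hf).2) hg)
      have h1 : (D : ℝ) ≠ 0 := by exact_mod_cast hD.ne'
      have h2 : (g x : ℝ) = D * (f.b (cz x) : ℝ) := by exact_mod_cast hx x
      change H _ ↔ H _
      rw [h2, Frm.ev]
      push_cast
      rw [mul_mul_mul_comm, mul_inv_cancel₀ h1, one_mul]
  · have h1 := (hx _ (Or.inl ⟨(i, x i % N), ⟨trivial, Int.emod_nonneg _ hN'.ne',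
      Int.emod_lt_of_pos _ hN'⟩, rfl⟩)).1 (Int.dvd_self_sub_emod)
    obtain ⟨n, hn⟩ := h1.sub (Int.dvd_self_sub_emod (x := x i))
    rw [sub_sub_sub_cancel_right] at hn
    exact ⟨n, by simp only [cz]; exact_mod_cast hn⟩

/-- Restriction to a line. -/
theorem line {N : ℕ} {E : Set (Fu ι × ℚ)} {F : Set (Frm ι)} (hE : E.Finite) (hF : F.Finite)
    {X : Set (ι → ℤ)} (hX : ∀ x x', Agree N E F (cz x) (cz x') → x ∈ X → x' ∈ X)
    (z v : ι → ℤ) (hv : ∀ i, (N : ℤ) ∣ v i) (hm : ∀ f ∈ F, ∃ m : ℤ, f.b (cz v) = m) :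
    ∃ (G : Finset (ℝ × ℤ × ℝ)) (Φ : Set ℤ), Φ.Finite ∧
      PatDet G Φ {t | (fun i => z i + t * v i) ∈ X} ∧
      (∀ t ∈ Φ, ∃ e ∈ E, e.1 ≠ 0 ∧ e.1 (cz fun i => z i + t * v i) = e.2) ∧
      ∀ q ∈ G, ∃ f ∈ F, q.1 = f.α ∧ f.b (cz v) = q.2.1 ∧ q.2.2 = f.ev (cz z) := by
  classical
  choose! m hm using hm
  refine ⟨hF.toFinset.image fun f => (f.α, m f, f.ev (cz z)),
    {t | ∃ e ∈ E, e.1 (cz v) ≠ 0 ∧ e.1 (cz fun i => z i + t * v i) = e.2}, ?_,
    fun t t' ht ht' h => hX _ _ ⟨fun i => ?_, fun e he => ?_, fun f hf => ?_⟩, ?_, fun q hq => ?_⟩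
  · refine (hE.biUnion (t := fun e => {t : ℤ | e.1 (cz v) ≠ 0 ∧
      e.1 (cz fun i => z i + t * v i) = e.2}) fun e _ => Set.Subsingleton.finite ?_).subset
        fun t ⟨e, he, h⟩ => mem_biUnion he h
    rintro t ⟨h0, h1⟩ t' ⟨-, h2⟩
    rw [← h2, Det_cz, Det_cz, map_add, map_add, map_smul, map_smul, add_right_inj] at h1
    exact_mod_cast mul_right_cancel₀ h0 h1
  · obtain ⟨k, hk⟩ := hv i
    exact ⟨(t' - t) * k, by simp only [cz, hk]; push_cast; ring⟩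
  · by_cases h0 : e.1 (cz v) = 0
    · simp only [Det_cz, map_add, map_smul, h0, smul_zero]
    · exact iff_of_false (fun h1 => ht ⟨e, he, h0, h1⟩) fun h1 => ht' ⟨e, he, h0, h1⟩
  · have e : ∀ s : ℤ, f.ev (cz fun i => z i + s * v i) = m f * (s * f.α) + f.ev (cz z) :=
      fun s => by
        rw [Det_cz, Frm.ev, Frm.ev, map_add, map_smul, hm f hf, smul_eq_mul]
        push_cast
        ring
    rw [e, e]
    exact h _ (Finset.mem_image_of_mem _ (hF.mem_toFinset.2 hf))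
  · rintro t ⟨e, he, h0, h1⟩
    exact ⟨e, he, fun h => h0 (by rw [h, LinearMap.zero_apply]), h1⟩
  · obtain ⟨f, hf, rfl⟩ := Finset.mem_image.1 hq
    exact ⟨f, hF.mem_toFinset.1 hf, rfl, hm f (hF.mem_toFinset.1 hf), rfl⟩

theorem tame_of_det (hK : ∀ α ∈ A, (1 : ℝ) ∈ K α) {Y : Set ℤ} (hY : D1 (Det A K) Y) :
    ∃ N : ℕ, 0 < N ∧ ∃ (A0 W : Finset ℝ) (Φ : Set ℤ), (↑A0 : Set ℝ) ⊆ A ∧ Φ.Finite ∧
      Tame A0 W Φ {k | (N : ℤ) * k ∈ Y} ∧ ∀ w ∈ W, ∃ α ∈ A, w ∈ K α := by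
  classical
  obtain ⟨N, E, F, hN, hE, hF, hok, h⟩ := hY
  obtain ⟨D, hD, hd⟩ := den_common (hF.image Frm.b)
  obtain ⟨G, Φ, h1, h2, -, h3⟩ := line hE hF h 0 (fun _ => (N * D : ℕ))
    (fun _ => by push_cast; exact dvd_mul_right _ _) fun f hf => by
      obtain ⟨n, hn⟩ := hd _ ⟨f, hf, rfl⟩ N 0 (cz fun _ => (N * D : ℕ)) fun _ => ⟨1, by simp [cz]⟩
      rw [map_zero, sub_zero] at hn
      exact ⟨N * n, by rw [hn]; push_cast; rfl⟩
  obtain ⟨W, h4, h5⟩ := tame_of_pat h2 (A0 := G.image Prod.fst) fun q => Finset.mem_image_of_mem _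
  refine ⟨N * D, Nat.mul_pos hN hD, _, W, Φ, fun α hα => ?_, h1,
    by simpa only [Pi.zero_apply, zero_add, mul_comm, mem_ofPred_eq] using h4, fun w hw => ?_⟩
  · obtain ⟨q, hq, rfl⟩ := Finset.mem_image.1 hα
    obtain ⟨f, hf, e, -⟩ := h3 q hq
    exact e ▸ (hok f hf).1
  · obtain ⟨q, hq, l, -, rfl⟩ := h5 w hw
    obtain ⟨f, hf, -, -, e⟩ := h3 q hq
    have e0 : cz (0 : Unit → ℤ) = 0 := funext fun _ => Int.cast_zero
    have := rat_mul_mem (sub_mem (rat_mul_mem (hK _ (hok f hf).1) (l / 2)) (hok f hf).2)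
      (q.2.1 : ℚ)⁻¹
    refine ⟨f.α, (hok f hf).1, ?_⟩
    rw [e, e0, Frm.ev, map_zero, Rat.cast_zero, zero_mul, zero_add, div_eq_inv_mul]
    simpa using this

end Pool.Agent.Work.MP_340ce7_lc
end

-- merged part: Pool.Agent.Work.MP_340ce7_lc.Kron
section
/-! Kronecker's simultaneous approximation theorem. -/

namespace Pool.Agent.Work.MP_340ce7_lc

open Set

theorem Kron_aux {A : Set ℝ} (hA : Ind A) (A0 : Finset ℝ) (h0 : (↑A0 : Set ℝ) ⊆ A) (m : ℝ → ℚ)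
    (hm : ∀ α ∈ A0, m α ≠ 0) (θ : ℝ → ℝ) {δ : ℝ} (hδ : 0 < δ) :
    ∃ k : ℤ, ∀ α ∈ A0, Near (k * (m α * α) - θ α) δ := by
  classical
  have p0 : (2 * Real.pi) ≠ 0 := by positivity
  let x : A0 → Circle := fun a => Circle.exp (2 * Real.pi * (m a * a))
  have h1 := RB.torus_dual (Subgroup.zpowers x).topologicalClosure
    (Subgroup.isClosed_topologicalClosure _) (fun a => Circle.exp (2 * Real.pi * θ a)) fun n hn => by
      have h2 := hn x (Subgroup.le_topologicalClosure _ (Subgroup.mem_zpowers x))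
      have h3 : ∀ s : Finset A0, ∏ a ∈ s, x a ^ n a =
          Circle.exp (2 * Real.pi * ∑ a ∈ s, n a * (m a * a : ℝ)) := fun s => by
        induction s using Finset.induction_on with
        | empty => simp
        | insert a s ha ih =>
          rw [Finset.prod_insert ha, Finset.sum_insert ha, ih, mul_add, Circle.exp_add,
            ← Circle.exp_zsmul, zsmul_eq_mul, mul_left_comm]
      obtain ⟨j, hj⟩ := Circle.exp_eq_one.1 (h3 _ ▸ h2)
      have h4 := hA A0 (fun a => if h : a ∈ A0 then n ⟨a, h⟩ * m a else 0) j h0 (by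
        rw [← Finset.sum_coe_sort, Rat.cast_intCast, ← mul_right_inj' p0, mul_comm _ (j : ℝ), ← hj]
        exact congrArg _ (Finset.sum_congr rfl fun a _ => by simp [mul_assoc]))
      refine Finset.prod_eq_one fun a _ => ?_
      have h5 := h4 a a.2
      rw [dif_pos a.2, mul_eq_zero, or_iff_left (hm a a.2), Int.cast_eq_zero] at h5
      rw [h5, zpow_zero]
  obtain ⟨_, h2, k, rfl⟩ := mem_closure_iff.1 h1
    (univ.pi fun a => Circle.exp '' ((2 * Real.pi * ·) '' Metric.ball (θ a) δ))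
    (isOpen_set_pi finite_univ fun a _ => isLocalHomeomorph_circleExp.isOpenMap _
      ((Homeomorph.mulLeft₀ _ p0).isOpenMap _ Metric.isOpen_ball))
    fun a _ => ⟨_, ⟨_, Metric.mem_ball_self hδ, rfl⟩, rfl⟩
  refine ⟨k, fun a ha => ?_⟩
  obtain ⟨_, ⟨r, h3, rfl⟩, h4⟩ := h2 ⟨a, ha⟩ trivial
  obtain ⟨j, hj⟩ := Circle.exp_eq_exp.1 ((Circle.exp_zsmul _ k).trans h4.symm)
  have h5 : k * (m a * a) = r + j := by
    rw [← mul_right_inj' p0, mul_add, mul_comm _ (j : ℝ), ← hj, zsmul_eq_mul, mul_left_comm]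
  exact ⟨j, by rwa [h5, add_sub_right_comm, add_sub_cancel_right]⟩

theorem kron {A : Set ℝ} (hA : Ind A) (A0 : Finset ℝ) (h0 : (↑A0 : Set ℝ) ⊆ A) (m : ℝ → ℚ)
    (hm : ∀ α ∈ A0, m α ≠ 0) (θ : ℝ → ℝ) {δ : ℝ} (hδ : 0 < δ) {Φ : Set ℤ} (hΦ : Φ.Finite) :
    ∃ k : ℤ, k ∉ Φ ∧ ∀ α ∈ A0, Near (k * (m α * α) - θ α) δ := by
  obtain ⟨B, hB⟩ := (hΦ.image Int.natAbs).bddAbove
  obtain ⟨k, hk⟩ := Kron_aux hA A0 h0 (fun a => 2 * (B + 1) * m a)
    (fun a ha => mul_ne_zero (by positivity) (hm a ha)) (fun a => θ a - (B + 1) * (m a * a)) hδ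
  refine ⟨(B + 1) * (2 * k + 1), fun h => ?_, fun a ha => ?_⟩
  · have h1 : ((B + 1 : ℤ) * (2 * k + 1)).natAbs ≤ B := hB ⟨_, h, rfl⟩
    rw [Int.natAbs_mul] at h1
    have h2 := Nat.le_mul_of_pos_right (B + 1 : ℤ).natAbs
      (Int.natAbs_pos.2 (show 2 * k + 1 ≠ 0 by omega))
    omega
  · have := hk a ha
    push_cast at this ⊢
    rwa [show ((B : ℝ) + 1) * (2 * k + 1) * (m a * a) - θ a =
      k * (2 * (B + 1) * m a * a) - (θ a - (B + 1) * (m a * a)) by ring]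

/-- The form with all multipliers equal to one. -/
theorem kron1 {A : Set ℝ} (hA : Ind A) (A0 : Finset ℝ) (h0 : (↑A0 : Set ℝ) ⊆ A)
    (θ : ℝ → ℝ) {δ : ℝ} (hδ : 0 < δ) {Φ : Set ℤ} (hΦ : Φ.Finite) :
    ∃ k : ℤ, k ∉ Φ ∧ ∀ α ∈ A0, Near (k * α - θ α) δ := by
  simpa using kron hA A0 h0 (fun _ => 1) (fun _ _ => one_ne_zero) θ hδ hΦ

/-- One irrational number. -/
theorem kron0 {γ : ℝ} (hγ : Irrational γ) {a b : ℝ} (hab : a < b) {Φ : Set ℤ}
    (hΦ : Φ.Finite) : ∃ k : ℤ, k ∉ Φ ∧ In (k * γ) a b := by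
  obtain ⟨k, hk, h⟩ := kron1 (ind_single hγ) {γ} (by simp) (fun _ => (a + b) / 2)
    (δ := (b - a) / 2) (by linarith only [hab]) hΦ
  obtain ⟨n, hn⟩ := h γ (by simp)
  have := abs_lt.1 hn
  exact ⟨k, hk, n, by linarith only [this, this.1], by linarith only [this, this.2]⟩

end Pool.Agent.Work.MP_340ce7_lc
end

-- merged part: Pool.Agent.Work.MP_340ce7_lc.QE
section
/-! Step F3: elimination of one quantifier. -/

namespace Pool.Agent.Work.MP_340ce7_lc

open Set Filter Topology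

variable {ι : Type} {A : Set ℝ} {K : ℝ → Submodule ℚ ℝ}

def ocL (φ : Fu ι) : (ι → ℚ) →ₗ[ℚ] (Option ι → ℚ) :=
  LinearMap.pi fun o => o.elim φ LinearMap.proj

theorem ocL_apply (φ : Fu ι) (x : ι → ℚ) : ocL φ x = oc (φ x) x := by
  funext o
  cases o <;> rfl

def hd (a : Fu (Option ι)) : ℚ := a (oc 1 0)

def tl (a : Fu (Option ι)) : Fu ι := a ∘ₗ ocL 0

theorem apply_oc (a : Fu (Option ι)) (y : ℚ) (x : ι → ℚ) : a (oc y x) = hd a * y + tl a x := by
  have : oc y x = y • oc (1 : ℚ) (0 : ι → ℚ) + ocL 0 x := by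
    funext o
    cases o <;> simp [ocL_apply]
  rw [this, map_add, map_smul, hd, tl, smul_eq_mul, mul_comm]
  rfl

def tlF (f : Frm (Option ι)) : Frm ι := ⟨f.α, tl f.b, f.r⟩

theorem ev_oc (f : Frm (Option ι)) (y : ℚ) (x : ι → ℚ) :
    f.ev (oc y x) = (hd f.b : ℝ) * (y * f.α) + (tlF f).ev x := by
  simp only [Frm.ev, apply_oc, tlF]
  push_cast
  ring

theorem ev_shift (hK : ∀ α ∈ A, (1 : ℝ) ∈ K α) {f : Frm ι} (hf : Ok A K f) (q : ℚ) :
    ∀ᶠ z in U A K ι, ∀ l : ℤ, (H (f.ev z.1 + l * q) ↔ H (f.ev z.2 + l * q)) := by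
  have h1 : ∀ j ∈ Ico (0 : ℤ) q.den, ∀ᶠ z in U A K ι,
      (H (f.ev z.1 + j * q) ↔ H (f.ev z.2 + j * q)) := by
    intro j _
    have h2 : Ok A K (⟨f.α, f.b, f.r + j * q⟩ : Frm ι) := by
      refine ⟨hf.1, (K f.α).add_mem hf.2 ?_⟩
      have := rat_mul_mem (hK _ hf.1) (j * q)
      simpa using this
    simpa only [Frm.ev, add_assoc] using ev_frm h2
  filter_upwards [(eventually_all_finite (finite_Ico _ _)).2 h1] with z hz l
  have hd0 : (0 : ℤ) < q.den := by exact_mod_cast q.den_pos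
  have h3 : (l : ℝ) * q = (l % q.den : ℤ) * (q : ℝ) + ((l / q.den * q.num : ℤ) : ℝ) := by
    have h4 : (l : ℝ) = (l % q.den : ℤ) + (q.den : ℝ) * (l / q.den : ℤ) := by
      exact_mod_cast (Int.emod_add_mul_ediv l q.den).symm
    have h5 : (q.num : ℝ) = q * q.den := by exact_mod_cast (Rat.mul_den_eq_num q).symm
    rw [Int.cast_mul, h5]
    nth_rewrite 1 [h4]
    ring
  rw [h3, ← add_assoc, ← add_assoc, H_add_int, H_add_int]
  exact hz _ ⟨Int.emod_nonneg _ hd0.ne', Int.emod_lt_of_pos _ hd0⟩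

theorem ev_shift_Hs (hK : ∀ α ∈ A, (1 : ℝ) ∈ K α) {f : Frm ι} (hf : Ok A K f) (q : ℚ) (m : ℝ) :
    ∀ᶠ z in U A K ι, ∀ l : ℤ, (Hs m (f.ev z.1 + l * q) ↔ Hs m (f.ev z.2 + l * q)) := by
  have h2 : Ok A K (⟨f.α, -f.b, -f.r⟩ : Frm ι) := ⟨hf.1, (K f.α).neg_mem hf.2⟩
  filter_upwards [ev_shift hK hf q, ev_shift hK h2 (-q)] with z h3 h4 l
  unfold Hs
  split_ifs
  · exact h3 l
  · have e : ∀ x, -(f.ev x + l * q) = (⟨f.α, -f.b, -f.r⟩ : Frm ι).ev x + l * ((-q : ℚ) : ℝ) := by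
      intro x
      simp only [Frm.ev, LinearMap.neg_apply]
      push_cast
      ring
    rw [e, e, h4 l]

/-- The derived forms agree eventually. -/
theorem ev_derived (hK : ∀ α ∈ A, (1 : ℝ) ∈ K α) {f g : Frm (Option ι)} (hf : Ok A K f)
    (hg : Ok A K g) (hα : f.α = g.α) (hm : hd f.b ≠ 0) :
    ∀ᶠ z in U A K ι, ∀ l : ℤ,
      (Hs (hd g.b) (hd g.b * ((l / 2 - (tlF f).ev z.1) / hd f.b) + (tlF g).ev z.1) ↔
        Hs (hd g.b) (hd g.b * ((l / 2 - (tlF f).ev z.2) / hd f.b) + (tlF g).ev z.2)) := by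
  set q : ℚ := hd g.b / hd f.b with hq
  have h2 : Ok A K (⟨g.α, tl g.b - q • tl f.b, g.r - q * f.r⟩ : Frm ι) :=
    ⟨hg.1, (K g.α).sub_mem hg.2 (rat_mul_mem (hα ▸ hf.2) q)⟩
  have hm' : (hd f.b : ℝ) ≠ 0 := by exact_mod_cast hm
  have e : ∀ (l : ℤ) x, (hd g.b : ℝ) * ((l / 2 - (tlF f).ev x) / hd f.b) + (tlF g).ev x =
      (⟨g.α, tl g.b - q • tl f.b, g.r - q * f.r⟩ : Frm ι).ev x + l * ((q / 2 : ℚ) : ℝ) := by
    intro l x
    simp only [Frm.ev, tlF, LinearMap.sub_apply, LinearMap.smul_apply, smul_eq_mul, hq, hα]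
    push_cast
    field_simp
    ring
  filter_upwards [ev_shift_Hs hK h2 (q / 2) (hd g.b)] with z hz l
  rw [e, e]
  exact hz l

theorem common_den {J : Type} {S : Set J} (hS : S.Finite) (m : J → ℚ) :
    ∃ D : ℕ, 0 < D ∧ ∀ j ∈ S, ∃ n : ℤ, m j * D = n := by
  induction S, hS using Set.Finite.induction_on with
  | empty => exact ⟨1, one_pos, by simp⟩
  | @insert a s _ _ ih =>
    obtain ⟨D, hD, h⟩ := ih
    refine ⟨(m a).den * D, Nat.mul_pos (m a).den_pos hD, ?_⟩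
    rintro j (rfl | hj)
    · exact ⟨(m j).num * D, by push_cast; rw [← mul_assoc, Rat.mul_den_eq_num]⟩
    · obtain ⟨n, hn⟩ := h j hj
      exact ⟨(m a).den * n, by push_cast; rw [← hn]; ring⟩

/-- The rational values at which a form is on a wall. -/
theorem crit_subsingleton {α r : ℝ} (hα : Irrational α) :
    {s : ℚ | ∃ l : ℤ, (s : ℝ) * α + r = l / 2}.Subsingleton := by
  rintro s ⟨l, hl⟩ s' ⟨l', hl'⟩
  by_contra hne
  have h1 : ((s - s' : ℚ) : ℝ) ≠ 0 := by exact_mod_cast sub_ne_zero.2 hne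
  refine hα ⟨((l - l' : ℤ) : ℚ) / 2 / (s - s'), ?_⟩
  push_cast at h1 ⊢
  field_simp
  linarith only [hl, hl']

theorem qe [Finite ι] (hA : Ind A) (hK : ∀ α ∈ A, (1 : ℝ) ∈ K α ∧ α ∈ K α) {N : ℕ}
    {E : Set (Fu (Option ι) × ℚ)} {F : Set (Frm (Option ι))} (hN : 0 < N) (hE : E.Finite)
    (hF : F.Finite) (hok : ∀ f ∈ F, Ok A K f) :
    ∀ᶠ z in U A K ι, ∀ y : ℚ, ∃ y' : ℚ, Agree N E F (oc y z.1) (oc y' z.2) := by
  classical
  have hK1 : ∀ α ∈ A, (1 : ℝ) ∈ K α := fun α hα => (hK α hα).1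
  let C : Set (Fu (Option ι) × ℚ) :=
    E ∪ ⋃ f ∈ F, (fun s => (f.b, s)) '' {s : ℚ | ∃ l : ℤ, (s : ℝ) * f.α + f.r = l / 2}
  have hC : C.Finite := hE.union (hF.biUnion fun f hf =>
    (crit_subsingleton (hA.irrational (hok f hf).1)).finite.image _)
  have hA1 : ∀ e ∈ C, ∀ᶠ z in U A K ι, hd e.1 ≠ 0 → ∀ y : ℚ, e.1 (oc y z.1) = e.2 →
      ∃ y' : ℚ, Agree N E F (oc y z.1) (oc y' z.2) := by
    intro e _
    have e1 : ∀ x, ocL (-(hd e.1)⁻¹ • tl e.1) x + oc (e.2 / hd e.1) 0 =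
        oc ((e.2 - tl e.1 x) / hd e.1) x := by
      intro x
      funext o
      cases o
      · simp only [ocL_apply, Pi.add_apply, oc_none, LinearMap.smul_apply, smul_eq_mul]
        ring
      · simp [ocL_apply]
    filter_upwards [ev_affine (fun α hα => (hK α hα).2) (ocL (-(hd e.1)⁻¹ • tl e.1))
      (oc (e.2 / hd e.1) 0) hN hE hF hok] with z hz hm y hy
    rw [e1, e1] at hz
    have : y = (e.2 - tl e.1 z.1) / hd e.1 := by
      rw [apply_oc] at hy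
      field_simp
      linarith only [hy]
    exact ⟨_, this ▸ hz⟩
  have hB2 : ∀ e ∈ E, ∀ᶠ z in U A K ι, (tl e.1 z.1 = e.2 ↔ tl e.1 z.2 = e.2) :=
    fun e _ => ev_eqn _ _
  have hB3 : ∀ f ∈ F, ∀ᶠ z in U A K ι, (H ((tlF f).ev z.1) ↔ H ((tlF f).ev z.2)) :=
    fun f hf => ev_frm (f := tlF f) (hok f hf)
  have hB4 : ∀ f ∈ F, ∀ᶠ z in U A K ι, ∀ g ∈ F, f.α = g.α → hd f.b ≠ 0 → ∀ l : ℤ,
      (Hs (hd g.b) (hd g.b * ((l / 2 - (tlF f).ev z.1) / hd f.b) + (tlF g).ev z.1) ↔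
        Hs (hd g.b) (hd g.b * ((l / 2 - (tlF f).ev z.2) / hd f.b) + (tlF g).ev z.2)) := by
    intro f hf
    refine (eventually_all_finite hF).2 fun g hg => ?_
    by_cases h : f.α = g.α ∧ hd f.b ≠ 0
    · filter_upwards [ev_derived hK1 (hok f hf) (hok g hg) h.1 h.2] with z hz _ _ using hz
    · exact Eventually.of_forall fun z h1 h2 => absurd ⟨h1, h2⟩ h
  obtain ⟨D, hD, hden⟩ := common_den hF fun f => hd f.b
  filter_upwards [(eventually_all_finite hC).2 hA1, ev_cong hN, (eventually_all_finite hE).2 hB2,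
    (eventually_all_finite hF).2 hB3, (eventually_all_finite hF).2 hB4] with z a1 b1 b2 b3 b4 y
  by_cases hc : ∃ e ∈ C, hd e.1 ≠ 0 ∧ e.1 (oc y z.1) = e.2
  · obtain ⟨e, he, h1, h2⟩ := hc
    exact a1 e he h1 y h2
  push Not at hc
  have hblock : ∀ α : ℝ, ∃ w : ℝ, ∀ᶠ s in 𝓝[>] (0 : ℝ), ∀ g ∈ F, g.α = α →
      (H (g.ev (oc y z.1)) ↔ H (hd g.b * (w + s) + (tlF g).ev z.2)) := by
    intro α
    by_cases hne : ∃ f ∈ hF.toFinset.filter (fun f => f.α = α), (hd f.b : ℝ) ≠ 0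
    · obtain ⟨f, hf, l, hm, h⟩ := last_wall (hF.toFinset.filter fun f => f.α = α)
        (fun f => (hd f.b : ℝ)) (fun f => (tlF f).ev z.1) (y * α) hne (by
          intro f hf hm l hl
          simp only [Finset.mem_filter, Finite.mem_toFinset] at hf
          refine hc (f.b, f.b (oc y z.1)) (Or.inr ?_) (by exact_mod_cast hm) rfl
          simp only [mem_iUnion]
          refine ⟨f, hf.1, f.b (oc y z.1), ⟨l, ?_⟩, rfl⟩
          rw [← hl, ← hf.2, ← ev_oc]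
          rfl)
      simp only [Finset.mem_filter, Finite.mem_toFinset] at hf h
      refine ⟨(l / 2 - (tlF f).ev z.2) / hd f.b, (eventually_all_finite hF).2 fun g hg => ?_⟩
      filter_upwards [ev_Hs (hd g.b) (hd g.b * ((l / 2 - (tlF f).ev z.2) / hd f.b) +
        (tlF g).ev z.2)] with s hs hgα
      rw [ev_oc, hgα, h g ⟨hg, hgα⟩, b4 f hf.1 g hg (hf.2.trans hgα.symm)
        (by exact_mod_cast hm) l, ← hs]
      exact iff_of_eq (congrArg H (by ring))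
    · push Not at hne
      refine ⟨0, Eventually.of_forall fun s g hg hgα => ?_⟩
      have h0 : (hd g.b : ℝ) = 0 := hne g (by simp [hg, hgα])
      rw [ev_oc, h0, zero_mul, zero_mul, zero_add, zero_add]
      exact b3 g hg
  choose w hw using hblock
  let A0 : Finset ℝ := hF.toFinset.image Frm.α
  have h0 : (↑A0 : Set ℝ) ⊆ A := by
    intro α hα
    simp only [A0, Finset.coe_image, Finite.coe_toFinset] at hα
    obtain ⟨f, hf, rfl⟩ := hα
    exact (hok f hf).1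
  have h1 := (A0.eventually_all (l := 𝓝[>] (0 : ℝ))).2 fun α _ => hw α
  obtain ⟨δ, hδ, h2⟩ := (mem_nhdsGT_iff_exists_Ioo_subset).1 h1
  have hδ0 : 0 < δ := hδ
  have hD0 : (0 : ℝ) < D := by exact_mod_cast hD
  have hNq : (N : ℚ) ≠ 0 := by exact_mod_cast hN.ne'
  have hΦ : {k : ℤ | ∃ e ∈ E, hd e.1 ≠ 0 ∧ e.1 (oc (y + N * k) z.2) = e.2}.Finite := by
    have e : {k : ℤ | ∃ e ∈ E, hd e.1 ≠ 0 ∧ e.1 (oc (y + N * k) z.2) = e.2} =
        ⋃ e ∈ E, {k : ℤ | hd e.1 ≠ 0 ∧ e.1 (oc (y + N * k) z.2) = e.2} := by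
      ext k
      simp only [mem_iUnion, mem_ofPred_eq, exists_prop]
    rw [e]
    refine hE.biUnion fun e _ => Set.Subsingleton.finite ?_
    rintro k ⟨h3, h4⟩ k' ⟨_, h5⟩
    rw [apply_oc] at h4 h5
    have h6 : hd e.1 * N * ((k : ℚ) - k') = 0 := by linarith only [h4, h5]
    have h7 : (k : ℚ) - k' = 0 := (mul_eq_zero.1 h6).resolve_left (mul_ne_zero h3 hNq)
    exact_mod_cast sub_eq_zero.1 h7
  obtain ⟨k, hk, h3⟩ := kron hA A0 h0 (fun _ => N / D)
    (fun _ _ => div_ne_zero hNq (by exact_mod_cast hD.ne'))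
    (fun α => (w α + δ / 2 - y * α) / D) (δ := δ / 2 / D) (by positivity) hΦ
  refine ⟨y + N * k, ?_, fun e he => ?_, fun g hg => ?_⟩
  · rintro (_ | i)
    · exact ⟨k, by simp⟩
    · exact b1 i
  · by_cases hm : hd e.1 = 0
    · rw [apply_oc, apply_oc, hm, zero_mul, zero_mul, zero_add, zero_add]
      exact b2 e he
    · exact iff_of_false (hc e (Or.inl he) hm) fun h => hk ⟨e, he, hm, h⟩
  · have hg0 : g.α ∈ A0 := Finset.mem_image_of_mem _ (by simpa using hg)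
    obtain ⟨n, hn⟩ := h3 g.α hg0
    obtain ⟨j, hj⟩ := hden g hg
    have hj' : (hd g.b : ℝ) * D = j := by exact_mod_cast hj
    set s : ℝ := ((y + N * k : ℚ) : ℝ) * g.α - w g.α - D * n with hs
    have h4 : (k : ℝ) * (((N / D : ℚ) : ℝ) * g.α) - (w g.α + δ / 2 - y * g.α) / D - n =
        (s - δ / 2) / D := by
      rw [hs]
      push_cast
      field_simp
      ring
    rw [h4, abs_div, abs_of_pos hD0, div_lt_div_iff_of_pos_right hD0, abs_lt] at hn
    rw [h2 (show s ∈ Ioo 0 δ from ⟨by linarith only [hn, hn.1], by linarith only [hn, hn.2]⟩) g.α hg0 g hg rfl,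
      ev_oc, ← H_add_int _ (j * n)]
    refine iff_of_eq (congrArg H ?_)
    rw [hs, Int.cast_mul, ← hj']
    ring

theorem cz_oc (y : ℤ) (x : ι → ℤ) : cz (oc y x) = oc (y : ℚ) (cz x) := by
  funext o
  cases o <;> rfl

theorem good_det (hA : Ind A) (hK : ∀ α ∈ A, (1 : ℝ) ∈ K α ∧ α ∈ K α) : Good (Det A K) where
  inter hX hY := by
    rw [det_iff] at *
    filter_upwards [hX, hY] with z h1 h2 x x' e1 e2 hx using
      ⟨h1 x x' e1 e2 hx.1, h2 x x' e1 e2 hx.2⟩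
  compl := by
    rintro ι _ X ⟨N, E, F, h1, h2, h3, h4, h5⟩
    exact ⟨N, E, F, h1, h2, h3, h4, fun x x' h hx hx' => hx (h5 x' x h.symm hx')⟩
  zero := by
    rw [det_iff]
    filter_upwards [ev_eqn (LinearMap.proj ()) 0] with z hz x x' e1 e2 hx
    rw [← e1, ← e2] at hz
    simp only [LinearMap.proj_apply, cz, Int.cast_eq_zero] at hz
    exact hz.1 hx
  aff := by
    rintro ι κ _ _ T hT X ⟨N, E, F, h1, h2, h3, h4, h5⟩
    choose a c hac using fun i => (hT i).rat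
    rw [det_iff]
    have e : ∀ x, LinearMap.pi a (cz x) + c = cz (T x) := by
      intro x
      funext i
      simp [cz, hac i x]
    filter_upwards [ev_affine (fun α hα => (hK α hα).2) (LinearMap.pi a) c h1 h2 h3 h4]
      with z hz x x' e1 e2 hx
    rw [← e1, ← e2, e, e] at hz
    exact h5 _ _ hz hx
  proj := by
    rintro ι _ X ⟨N, E, F, h1, h2, h3, h4, h5⟩
    rw [det_iff]
    filter_upwards [qe hA hK h1 h2 h3 h4] with z hz
    rintro x x' e1 e2 ⟨y, hy⟩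
    obtain ⟨y', h⟩ := hz y
    obtain ⟨n, hn⟩ := h.cong none
    have e : y' = ((y + N * n : ℤ) : ℚ) := by
      simp only [oc_none] at hn
      push_cast
      linarith only [hn]
    rw [e, ← e1, ← e2, ← cz_oc, ← cz_oc] at h
    exact ⟨_, h5 _ _ h hy⟩

end Pool.Agent.Work.MP_340ce7_lc
end

-- merged part: Pool.Agent.Work.MP_340ce7_lc.Model
section
/-! Step F4: the link with first-order definability. -/

namespace Pool.Agent.Work.MP_340ce7_lc

open Set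

theorem Df.pre {M : Str} {ι κ : Type} (σ : ι → κ) {X : Set (ι → ℤ)} (hX : Df M ι X) :
    Df M κ ((fun g : κ → ℤ => g ∘ σ) ⁻¹' X) := by
  let _ := M.S
  exact Set.Definable.preimage_comp σ hX

theorem below_iff {M M' : Str} :
    Below M M' ↔ ∀ (ι : Type) [Finite ι] (X : Set (ι → ℤ)), Df M ι X → Df M' ι X := by
  constructor
  · intro h ι _ X hX
    obtain ⟨n, ⟨e⟩⟩ := Finite.exists_equiv_fin ι
    have h1 : Df M' (Fin n) _ := h n _ (hX.pre e)
    have h2 := h1.pre e.symm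
    have e1 : (fun g : ι → ℤ => g ∘ e.symm) ⁻¹' ((fun g : Fin n → ℤ => g ∘ e) ⁻¹' X) = X := by
      ext x
      have e2 : (x ∘ e.symm) ∘ e = x := by
        funext i
        simp
      simp only [mem_preimage, e2]
    rwa [e1] at h2
  · intro h n X hX
    exact h (Fin n) X hX

/-- Affine functions have definable graphs. -/
theorem aff_fun {M : Str} (h : Df M (Fin 3) {v | v 0 + v 1 = v 2}) {ι : Type} [Finite ι]
    {g : (ι → ℤ) → ℤ} (hg : IsAff g) : Df M (Option ι) {v | g (v ∘ some) = v none} := by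
  let _ := M.S
  have lift : ∀ f : (ι → ℤ) → ℤ, Df M (Option ι) {v | f (v ∘ some) = v none} →
      (univ : Set ℤ).DefinableFun M.L fun v : Option ι → ℤ => f (v ∘ some) := by
    intro f hf
    have h1 : (univ : Set ℤ).DefinableFun M.L f := hf
    exact Set.DefinableFun.comp (g := fun v : Option ι → ℤ => v ∘ some)
      (fun i => Set.DefinableFun.proj M.L (i := some i)) h1
  induction hg with
  | var i => exact Set.DefinableFun.proj M.L (A := univ) (i := i)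
  | const c => exact M.L.definableFun_const ι (mem_univ c)
  | @add f g _ _ h1 h2 =>
    have h3 : (univ : Set ℤ).DefinableMap M.L
        fun v : Option ι → ℤ => ![f (v ∘ some), g (v ∘ some), v none] := by
      intro i
      fin_cases i
      · exact lift f h1
      · exact lift g h2
      · exact Set.DefinableFun.proj M.L (i := none)
    exact Set.Definable.preimage_map h3 h
  | @neg f _ h1 =>
    have h3 : (univ : Set ℤ).DefinableMap M.L
        fun v : Option ι → ℤ => ![v none, f (v ∘ some), 0] := by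
      intro i
      fin_cases i
      · exact Set.DefinableFun.proj M.L (i := none)
      · exact lift f h1
      · exact M.L.definableFun_const _ (mem_univ 0)
    have h4 := Set.Definable.preimage_map h3 h
    have e : (fun v : Option ι → ℤ => ![v none, f (v ∘ some), 0]) ⁻¹'
        {v : Fin 3 → ℤ | v 0 + v 1 = v 2} = {v | -f (v ∘ some) = v none} := by
      ext v
      change v none + f (v ∘ some) = 0 ↔ -f (v ∘ some) = v none
      constructor <;> intro h5 <;> linarith only [h5]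
    rw [e] at h4
    exact h4

theorem good_df {M : Str} (h : Df M (Fin 3) {v | v 0 + v 1 = v 2}) : Good (Df M) := by
  let _ := M.S
  refine ⟨fun hX hY => Set.Definable.inter hX hY, fun hX => Set.Definable.compl hX, ?_, ?_, ?_⟩
  · exact Set.DefinableFun.ofPred_eq_const (Set.DefinableFun.proj M.L (i := ())) (mem_univ 0)
  · intro ι κ _ _ T hT X hX
    exact Set.Definable.preimage_map (fun i => aff_fun h (hT i)) hX
  · intro ι _ X hX
    have h1 := Set.Definable.image_comp hX (some : ι → Option ι)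
    have e : (fun g : Option ι → ℤ => g ∘ some) '' X = {x | ∃ y, oc y x ∈ X} := by
      ext x
      constructor
      · rintro ⟨g, hg, rfl⟩
        refine ⟨g none, ?_⟩
        have e1 : oc (g none) (g ∘ some) = g := by
          funext o
          cases o <;> rfl
        change oc (g none) (g ∘ some) ∈ X
        rwa [e1]
      · rintro ⟨y, hy⟩
        exact ⟨oc y x, hy, rfl⟩
    rw [e] at h1
    exact h1

theorem term_aff (M : Str) (hf : ∀ (n : ℕ) (f : M.L.Functions n), IsAff (M.S.funMap f))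
    {β κ : Type} (val : (κ → ℤ) → β → ℤ) (hval : ∀ b, IsAff fun w => val w b)
    (t : M.L.Term β) :
    IsAff fun w => @FirstOrder.Language.Term.realize M.L ℤ M.S β (val w) t := by
  let _ := M.S
  induction t with
  | var b => exact hval b
  | func f ts ih => exact (hf _ f).comp (T := fun w i => (ts i).realize (val w)) ih

theorem form_sub {P : ∀ ι : Type, Set (ι → ℤ) → Prop} (hP : Good P) (M : Str)
    (hf : ∀ (n : ℕ) (f : M.L.Functions n), IsAff (M.S.funMap f))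
    (hr : ∀ (n : ℕ) (r : M.L.Relations n), P (Fin n) {v | M.S.RelMap r v})
    {β : Type} {k : ℕ} (φ : M.L.BoundedFormula β k) :
    ∀ (κ : Type) [Finite κ] (val : (κ → ℤ) → β → ℤ) (xs : (κ → ℤ) → Fin k → ℤ),
      (∀ b, IsAff fun w => val w b) → (∀ i, IsAff fun w => xs w i) →
      P κ {w | @FirstOrder.Language.BoundedFormula.Realize M.L ℤ M.S β k φ (val w) (xs w)} := by
  let _ := M.S
  have hs : ∀ {k : ℕ} {κ : Type} (val : (κ → ℤ) → β → ℤ) (xs : (κ → ℤ) → Fin k → ℤ),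
      (∀ b, IsAff fun w => val w b) → (∀ i, IsAff fun w => xs w i) →
      ∀ j, IsAff fun w => Sum.elim (val w) (xs w) j := by
    intro k κ val xs h1 h2 j
    cases j with
    | inl b => exact h1 b
    | inr i => exact h2 i
  induction φ with
  | falsum =>
    intro κ _ val xs _ _
    exact hP.empty
  | equal t1 t2 =>
    intro κ _ val xs h1 h2
    exact hP.eq (term_aff M hf _ (hs val xs h1 h2) t1) (term_aff M hf _ (hs val xs h1 h2) t2)
  | rel R ts =>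
    intro κ _ val xs h1 h2
    exact hP.aff (fun w i => (ts i).realize (Sum.elim (val w) (xs w)))
      (fun i => term_aff M hf _ (hs val xs h1 h2) (ts i)) (hr _ R)
  | imp f1 f2 ih1 ih2 =>
    intro κ _ val xs h1 h2
    have h3 := hP.union (hP.compl (ih1 κ val xs h1 h2)) (ih2 κ val xs h1 h2)
    have e : {w | f1.Realize (val w) (xs w)}ᶜ ∪ {w | f2.Realize (val w) (xs w)} =
        {w | (f1.imp f2).Realize (val w) (xs w)} := by
      ext w
      simp only [mem_union, mem_compl_iff, mem_ofPred_eq,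
        FirstOrder.Language.BoundedFormula.realize_imp]
      exact imp_iff_not_or.symm
    rwa [e] at h3
  | @all k f ih =>
    intro κ _ val xs h1 h2
    have hsome : ∀ i : κ, IsAff fun u : Option κ → ℤ => (u ∘ some) i := fun i => IsAff.var (some i)
    have h3 := ih (Option κ) (fun u => val (u ∘ some))
      (fun u => Fin.snoc (α := fun _ => ℤ) (xs (u ∘ some)) (u none))
      (fun b => (h1 b).comp hsome) (by
        intro i
        refine Fin.lastCases ?_ (fun j => ?_) i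
        · simp only [Fin.snoc_last]
          exact IsAff.var none
        · simp only [Fin.snoc_castSucc]
          exact (h2 j).comp hsome)
    have h4 := hP.compl (hP.proj (hP.compl h3))
    have e : {x : κ → ℤ | ∃ y, oc y x ∈ {u : Option κ → ℤ | f.Realize (val (u ∘ some))
        (Fin.snoc (α := fun _ => ℤ) (xs (u ∘ some)) (u none))}ᶜ}ᶜ =
        {w | f.all.Realize (val w) (xs w)} := by
      ext w
      simp only [mem_compl_iff, mem_ofPred_eq, not_exists, not_not,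
        FirstOrder.Language.BoundedFormula.realize_all]
      rfl
    rwa [e] at h4

theorem df_sub {P : ∀ ι : Type, Set (ι → ℤ) → Prop} (hP : Good P) (M : Str)
    (hf : ∀ (n : ℕ) (f : M.L.Functions n), IsAff (M.S.funMap f))
    (hr : ∀ (n : ℕ) (r : M.L.Relations n), P (Fin n) {v | M.S.RelMap r v})
    (ι : Type) [Finite ι] (X : Set (ι → ℤ)) (hX : Df M ι X) : P ι X := by
  let _ := M.S
  obtain ⟨φ, rfl⟩ := Set.definable_iff_exists_formula_sum.1 hX
  have h1 := form_sub hP M hf hr φ ι (fun v => Sum.elim (↑) v) (fun _ => Fin.elim0) (by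
    intro b
    cases b with
    | inl a => exact IsAff.const (a : ℤ)
    | inr i => exact IsAff.var i) (fun i => i.elim0)
  have e : {w : ι → ℤ | FirstOrder.Language.BoundedFormula.Realize φ (Sum.elim (↑) w) Fin.elim0} =
      {v : ι → ℤ | φ.Realize (Sum.elim (↑) v)} := by
    ext v
    simp only [mem_ofPred_eq, FirstOrder.Language.Formula.Realize]
    exact iff_of_eq (congrArg _ (Subsingleton.elim _ _))
  rwa [e] at h1

theorem df_rel (M : Str) {n : ℕ} (r : M.L.Relations n) : Df M (Fin n) {v | M.S.RelMap r v} := by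
  let _ := M.S
  refine Set.Definable.mono (A := ∅) ?_ (empty_subset _)
  refine Set.empty_definable_iff.2 ⟨r.formula FirstOrder.Language.Term.var, ?_⟩
  ext v
  simp

theorem df_fun (M : Str) (f : M.L.Functions 2) :
    Df M (Fin 3) {v | M.S.funMap f ![v 0, v 1] = v 2} := by
  let _ := M.S
  have h1 : (univ : Set ℤ).DefinableFun M.L (M.S.funMap f) :=
    (Set.DefinableFun.fun_symbol f).of_empty
  have h2 : (univ : Set ℤ).DefinableMap M.L fun v : Fin 3 → ℤ => ![v 0, v 1] := by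
    intro i
    fin_cases i
    · exact Set.DefinableFun.proj M.L (i := 0)
    · exact Set.DefinableFun.proj M.L (i := 1)
  exact (Set.DefinableFun.comp h2 h1).ofPred_eq (Set.DefinableFun.proj M.L (i := 2))

theorem df_add (A : Set ℝ) : Df (cycStr A) (Fin 3) {v | v 0 + v 1 = v 2} := by
  exact df_fun (cycStr A) Fn.add

theorem df_cyc {A : Set ℝ} {α : ℝ} (hα : α ∈ A) :
    Df (cycStr A) (Fin 3) {x | Cyc α (x 0) (x 1) (x 2)} :=
  df_rel (cycStr A) (Rl.cyc ⟨α, hα⟩)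

theorem cyc_sub {P : ∀ ι : Type, Set (ι → ℤ) → Prop} (hP : Good P) {A : Set ℝ}
    (h : ∀ α ∈ A, P (Fin 3) {x | Cyc α (x 0) (x 1) (x 2)})
    (ι : Type) [Finite ι] (X : Set (ι → ℤ)) (hX : Df (cycStr A) ι X) : P ι X := by
  refine df_sub hP (cycStr A) ?_ ?_ ι X hX
  · intro n f
    cases f
    exact (IsAff.var 0).add (IsAff.var 1)
  · intro n r
    cases r with
    | cyc α => exact h α α.2

inductive RlQ : ℕ → Type
  | q : RlQ 1

/-- The structure `(ℤ; +, Q)`. -/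
def unStr (Q : Set ℤ) : Str where
  L := ⟨Fn, RlQ⟩
  S :=
    { funMap := fun f v => match f, v with
        | Fn.add, v => v 0 + v 1
      RelMap := fun r v => match r, v with
        | RlQ.q, v => v 0 ∈ Q }

theorem df_add_un (Q : Set ℤ) : Df (unStr Q) (Fin 3) {v | v 0 + v 1 = v 2} := by
  exact df_fun (unStr Q) Fn.add

theorem d1_un (Q : Set ℤ) : D1 (Df (unStr Q)) Q := by
  exact (df_rel (unStr Q) RlQ.q).pre fun _ : Fin 1 => ()

theorem un_sub {P : ∀ ι : Type, Set (ι → ℤ) → Prop} (hP : Good P) {Q : Set ℤ} (h : D1 P Q)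
    (ι : Type) [Finite ι] (X : Set (ι → ℤ)) (hX : Df (unStr Q) ι X) : P ι X := by
  refine df_sub hP (unStr Q) ?_ ?_ ι X hX
  · intro n f
    cases f
    exact (IsAff.var 0).add (IsAff.var 1)
  · intro n r
    cases r
    exact hP.d1 h (IsAff.var 0)

end Pool.Agent.Work.MP_340ce7_lc
end

-- merged part: Pool.Agent.Work.MP_340ce7_lc.Circuit
section
/-! A minimal rational relation and the exotic arc. -/

namespace Pool.Agent.Work.MP_340ce7_lc

open Set

theorem ind_iff {B : Set ℝ} (hB : ∀ α ∈ B, Irrational α) :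
    Ind B ↔ LinearIndepOn ℚ id (insert (1 : ℝ) B) := by
  classical
  have h1 : (1 : ℝ) ∉ B := fun h => hB 1 h ⟨1, by simp⟩
  rw [linearIndepOn_iff']
  simp only [id, Rat.smul_def]
  constructor
  · intro h t g ht hg
    have h2 : (↑(t.erase 1) : Set ℝ) ⊆ B := fun x hx =>
      (ht (Finset.mem_of_mem_erase hx)).resolve_left (Finset.mem_erase.1 hx).1
    by_cases h3 : (1 : ℝ) ∈ t
    · rw [← Finset.add_sum_erase _ _ h3] at hg
      have h4 := h _ g (-g 1) h2 (by push_cast; linarith)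
      rw [Finset.sum_eq_zero fun i hi => by rw [h4 i hi]; simp] at hg
      intro i hi
      by_cases h5 : i = 1
      · rw [h5]; simpa using hg
      · exact h4 i (Finset.mem_erase.2 ⟨h5, hi⟩)
    · rw [Finset.erase_eq_of_notMem h3] at h2
      exact h t g 0 h2 (by simpa using hg)
  · intro h s c c0 hs hc α hα
    have h2 : ∀ i ∈ s, Function.update c 1 (-c0) i = c i := fun i hi =>
      Function.update_of_ne (fun e : i = 1 => h1 (e ▸ hs hi)) _ _
    rw [← h2 α hα]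
    refine h (insert 1 s) _ (by rw [Finset.coe_insert]; exact insert_subset_insert hs) ?_ α
      (Finset.mem_insert_of_mem hα)
    rw [Finset.sum_insert fun e => h1 (hs e), Finset.sum_congr rfl fun i hi => by rw [h2 i hi], hc]
    simp

/-- A minimal relation. -/
theorem circuit {A : Set ℝ} (hA : ∀ α ∈ A, Irrational α) (h : ¬ Indep A) :
    ∃ (s : Finset ℝ) (δ α β : ℝ) (m : ℝ → ℤ) (m0 md : ℤ), (↑s : Set ℝ) ⊆ A ∧ δ ∈ A ∧
      Ind (↑s : Set ℝ) ∧ α ∈ s ∧ β ∈ s ∧ α ≠ β ∧ (∀ i ∈ s, m i ≠ 0) ∧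
        md * δ = m0 + ∑ i ∈ s, m i * i := by
  classical
  obtain ⟨B, hBA, hp, hB⟩ : ∃ B ⊆ A, (B.Pairwise fun α β => ∀ p q : ℚ, β ≠ p + q * α) ∧
      ¬ Ind B := by
    by_contra hc
    exact h fun B h1 h2 => (ind_iff fun α hα => hA α (h1 hα)).1
      (not_not.1 fun h3 => hc ⟨B, h1, h2, h3⟩)
  have ex : ∃ n : ℕ, ∃ (s : Finset ℝ) (c : ℝ → ℚ) (c0 : ℚ), s.card = n ∧ (↑s : Set ℝ) ⊆ B ∧
      ∑ α ∈ s, (c α : ℝ) * α = c0 ∧ ∃ α ∈ s, c α ≠ 0 := by
    by_contra hc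
    exact hB fun s c c0 h1 h2 α hα => not_not.1 fun h3 => hc ⟨_, s, c, c0, rfl, h1, h2, α, hα, h3⟩
  obtain ⟨s, c, c0, hn, hs, hc, δ, hδ, hcδ⟩ := Nat.find_spec ex
  have hmin : ∀ i ∈ s, Ind (↑(s.erase i) : Set ℝ) := fun i hi t d d0 ht hd α hα =>
    not_not.1 fun h3 => Nat.find_min ex (hn ▸ (Finset.card_le_card
      (Finset.coe_subset.1 ht)).trans_lt (Finset.card_erase_lt_of_mem hi)) ⟨t, d, d0, rfl,
        ht.trans ((Finset.coe_subset.2 (Finset.erase_subset _ _)).trans hs), hd, α, hα, h3⟩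
  have h0 : ∀ i ∈ s, c i ≠ 0 := fun i hi e => hcδ (hmin i hi _ c c0 subset_rfl (by
    rw [← hc, ← Finset.add_sum_erase _ _ hi, e]; simp) δ
      (Finset.mem_erase.2 ⟨fun e2 => hcδ (e2 ▸ e), hδ⟩))
  have d0 : (c δ : ℝ) ≠ 0 := by exact_mod_cast hcδ
  rw [← Finset.add_sum_erase _ _ hδ] at hc
  obtain ⟨α, hα, β, hβ, hne⟩ : ∃ α ∈ s.erase δ, ∃ β ∈ s.erase δ, α ≠ β := by
    rw [← Finset.one_lt_card, ← not_le, Finset.card_le_one_iff_subset_singleton]
    rintro ⟨x, hx⟩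
    rcases Finset.subset_singleton_iff.1 hx with e | e
    · rw [e, Finset.sum_empty, add_zero] at hc
      exact hA δ (hBA (hs hδ)) ⟨c0 / c δ, by push_cast; rw [← hc]; field_simp⟩
    · obtain ⟨x1, x2⟩ := Finset.mem_erase.1 (e ▸ Finset.mem_singleton_self x)
      rw [e, Finset.sum_singleton] at hc
      refine hp (hs x2) (hs hδ) x1 (c0 / c δ) (-c x / c δ) ?_
      push_cast
      rw [← hc]
      field_simp
      ring
  obtain ⟨⟨N, hN⟩, hz⟩ := IsLocalization.exist_integer_multiples_of_finset (nonZeroDivisors ℤ)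
    (insert c0 (s.image c))
  choose! z hz using hz
  have hz2 : ∀ q ∈ insert c0 (s.image c), (z q : ℝ) = N * q := fun q hq => by
    have : (z q : ℚ) = N * q := by simpa using hz q hq
    exact_mod_cast this
  have hz3 : ∀ i ∈ s, (z (c i) : ℝ) = N * c i := fun i hi =>
    hz2 _ (Finset.mem_insert_of_mem (Finset.mem_image_of_mem _ hi))
  refine ⟨s.erase δ, δ, α, β, fun i => -z (c i), z c0, z (c δ),
    (Finset.coe_subset.2 (Finset.erase_subset _ _)).trans (hs.trans hBA), hBA (hs hδ), hmin δ hδ,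
    hα, hβ, hne, fun i hi e => ?_, ?_⟩
  · have h1 := hz3 i (Finset.mem_of_mem_erase hi)
    rw [neg_eq_zero.1 e, Int.cast_zero, eq_comm, mul_eq_zero] at h1
    rcases h1 with h1 | h1
    · exact nonZeroDivisors.ne_zero hN (by exact_mod_cast h1)
    · exact h0 i (Finset.mem_of_mem_erase hi) (by exact_mod_cast h1)
  · rw [hz3 δ hδ, hz2 _ (Finset.mem_insert_self _ _), ← hc, mul_add, Finset.mul_sum, add_assoc,
      ← Finset.sum_add_distrib, Finset.sum_eq_zero fun i hi => by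
        rw [Int.cast_neg, hz3 i (Finset.mem_of_mem_erase hi)]; ring]
    ring

theorem In_sum {s : Finset ℝ} (hs : s.Nonempty) {w : ℝ → ℝ} {p q : ℝ}
    (h : ∀ i ∈ s, In (w i) p q) : In (∑ i ∈ s, w i) (s.card * p) (s.card * q) := by
  choose! n h1 h2 using h
  refine ⟨∑ i ∈ s, n i, ?_, ?_⟩ <;>
    rw [Int.cast_sum, ← Finset.sum_sub_distrib, ← nsmul_eq_mul, ← Finset.sum_const]
  · exact Finset.sum_lt_sum_of_nonempty hs h1
  · exact Finset.sum_lt_sum_of_nonempty hs h2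

/-- An arc with an endpoint outside `ℚ + ℚ α`. -/
theorem exotic_arc {A : Set ℝ} (hA : ∀ α ∈ A, Irrational α) (h : ¬ Indep A)
    {D : Set ℤ → Prop} (hD : Good1 D) (hF : ∀ α ∈ A, Full D α) :
    ∃ α ∈ A, ∃ (m : ℤ) (a b : ℝ), m ≠ 0 ∧ a < b ∧ b < a + 1 / 2 ∧ b ∉ Sp α ∧
      D {t : ℤ | In (t * (m * α)) a b} := by
  classical
  obtain ⟨s, δ, α, β, m, m0, md, hs, hδ, hI, hα, hβ, hne, hm, hrel⟩ := circuit hA h
  have n0 : (0 : ℝ) < s.card := by exact_mod_cast Finset.card_pos.2 ⟨α, hα⟩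
  have n1 : (1 : ℝ) ≤ s.card := by exact_mod_cast Finset.card_pos.2 ⟨α, hα⟩
  have iS : ∀ (z : ℤ) (i : ℝ), (z : ℝ) * i ∈ Sp i := fun z i => mem_Sp.2 ⟨0, z, by simp⟩
  have hZ : ∀ i ∈ s, D {t : ℤ | In (t * (m i * i)) 0 (1 / 100 / s.card)} := fun i hi =>
    Full.arc hD (hF i (hs hi)) (iS _ _) (Sp i).zero_mem
      (mem_Sp.2 ⟨1 / 100 / s.card, 0, by simp⟩) (by positivity)
      (by rw [div_lt_iff₀ n0]; linarith only [n0, n1])
  have hQ := hD.conv (-1) 1 0 (hD.inter (hD.all (s.erase α).finite_toSet fun i hi =>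
    hD.aff 1 (-if i = β then 1 else 0) (hZ i (Finset.mem_of_mem_erase hi)))
    (Full.arc hD (hF δ hδ) (iS md δ) (mem_Sp.2 ⟨2 / 5, 0, by simp⟩)
      (mem_Sp.2 ⟨1 / 2, 0, by simp⟩) (a := 2 / 5) (b := 1 / 2) (by norm_num) (by norm_num)))
    (hZ α hα)
  refine ⟨α, hs hα, m α, 39 / 100 - m β * β, 1 / 2 - m β * β, hm α hα, by linarith only [], by linarith only [],
    fun hb => ?_, (congrArg D (Set.ext fun t => ?_)).mp hQ⟩
  · obtain ⟨p, q, e⟩ := mem_Sp.1 hb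
    have := hI {α, β} (fun i => if i = β then m β else q) (1 / 2 - p)
      (by rw [Finset.coe_pair]; exact insert_subset hα (singleton_subset_iff.2 hβ))
      (by rw [Finset.sum_pair hne, if_neg hne, if_pos rfl]; push_cast; linarith only [e]) β (by simp)
    exact hm β hβ (by simpa using this)
  let τ : ℝ → ℤ := fun i => if i = α then t else if i = β then 1 else 0
  have e1 : ∀ k : ℤ, ∑ i ∈ s, ((k - τ i : ℤ) : ℝ) * (m i * i) =
      k * (md * δ) - k * m0 - (t * (m α * α) + m β * β) := fun k => by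
    have : ∑ i ∈ s, (τ i : ℝ) * (m i * i) = t * (m α * α) + m β * β := by
      rw [Finset.sum_eq_add α β hne (fun i _ hi => by simp [τ, hi.1, hi.2])
        (fun e => absurd hα e) fun e => absurd hβ e]
      simp [τ, hne.symm]
    simp only [Int.cast_sub, sub_mul]
    rw [Finset.sum_sub_distrib, this, ← Finset.mul_sum, hrel]
    ring
  have e2 : ∀ (k : ℤ) (i : ℝ), i ≠ α → (1 * k + -if i = β then 1 else 0) = k - τ i :=
    fun k i hi => by simp only [τ, if_neg hi]; ring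
  have e3 : ∀ k : ℤ, -1 * t + 1 * k + 0 = k - τ α := fun k => by simp only [τ, if_pos]; ring
  simp only [mem_ofPred_eq, mem_inter_iff, e3]
  constructor
  · rintro ⟨k, ⟨h1, j, h2, h3⟩, h4⟩
    obtain ⟨l, h5, h6⟩ := In_sum ⟨α, hα⟩ (w := fun i => ((k - τ i : ℤ) : ℝ) * (m i * i))
      (p := 0) (q := 1 / 100 / s.card) fun i hi => by
        by_cases e : i = α
        · exact e ▸ h4
        · exact e2 k i e ▸ h1 i (Finset.mem_erase.2 ⟨e, hi⟩)
    rw [mul_div_cancel₀ _ n0.ne'] at h6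
    rw [e1] at h5 h6
    exact ⟨j - k * m0 - l, by push_cast; linarith only [h2, h6], by push_cast; linarith only [h3, h5]⟩
  · rintro ⟨j, h1, h2⟩
    obtain ⟨lo, hi, l1, l2, l3, l4, l5⟩ : ∃ lo hi : ℝ, lo < hi ∧ 0 ≤ lo ∧ hi ≤ 1 / 100 ∧
        2 / 5 ≤ t * (m α * α) + m β * β - j + lo ∧ t * (m α * α) + m β * β - j + hi ≤ 1 / 2 :=
      ⟨max 0 (2 / 5 - (t * (m α * α) + m β * β - j)),
        min (1 / 100) (1 / 2 - (t * (m α * α) + m β * β - j)),
        max_lt (lt_min (by norm_num) (by linarith only [h2])) (lt_min (by linarith only [h1]) (by linarith only [h1, h2])),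
        le_max_left _ _, min_le_left _ _, sub_le_iff_le_add'.1 (le_max_right _ _),
        le_sub_iff_add_le'.1 (min_le_right _ _)⟩
    have l6 := div_lt_div_of_pos_right l1 n0
    obtain ⟨k, -, hk⟩ := kron hI s subset_rfl (fun i => m i)
      (fun i hi => by exact_mod_cast hm i hi)
      (fun i => τ i * (m i * i) + (lo / s.card + hi / s.card) / 2)
      (δ := (hi / s.card - lo / s.card) / 2) (by linarith only [l6]) finite_empty
    have h3 : ∀ i ∈ s, In (((k - τ i : ℤ) : ℝ) * (m i * i)) (lo / s.card) (hi / s.card) :=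
      fun i hi => by
        obtain ⟨l, hl⟩ := hk i hi
        rw [abs_lt] at hl
        push_cast at hl ⊢
        exact ⟨l, by linarith only [hl, hl.1], by linarith only [hl, hl.2]⟩
    have h4 : ∀ i ∈ s, In (((k - τ i : ℤ) : ℝ) * (m i * i)) 0 (1 / 100 / s.card) := fun i hi =>
      (h3 i hi).imp fun l hl => ⟨(div_nonneg l2 n0.le).trans_lt hl.1,
        hl.2.trans_le (div_le_div_of_nonneg_right l3 n0.le)⟩
    obtain ⟨l, h5, h6⟩ := In_sum ⟨α, hα⟩ h3
    rw [mul_div_cancel₀ _ n0.ne', e1] at h5 h6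
    refine ⟨k, ⟨fun i hi => ?_, j + k * m0 + l, by push_cast; linarith only [l4, h5], by push_cast; linarith only [l5, h6]⟩,
      h4 α hα⟩
    rw [e2 k i (Finset.mem_erase.1 hi).1]
    exact h4 i (Finset.mem_of_mem_erase hi)

end Pool.Agent.Work.MP_340ce7_lc
end

-- merged part: Pool.Agent.Work.MP_340ce7_lc.Full
section
/-! Step F5: neighbourhoods and one edge give all half circles. -/

namespace Pool.Agent.Work.MP_340ce7_lc

open Set

variable {D : Set ℤ → Prop}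

theorem Full_denom {γ x : ℝ} (hx : x ∈ Sp γ) :
    ∃ N : ℤ, 0 < N ∧ ∃ a b : ℤ, (N : ℝ) * x = a + b * γ := by
  obtain ⟨p, q, rfl⟩ := mem_Sp.1 hx
  refine ⟨(p.den : ℤ) * q.den, by positivity, p.num * q.den, q.num * p.den, ?_⟩
  have h1 : (p : ℝ) * p.den = p.num := by exact_mod_cast Rat.mul_den_eq_num p
  have h2 : (q : ℝ) * q.den = q.num := by exact_mod_cast Rat.mul_den_eq_num q
  push_cast
  rw [← h1, ← h2]
  ring

/-- The sign of `t γ` near zero. -/
theorem loc_pos (hD : Good1 D) {γ : ℝ} (hγ : Irrational γ) (hN : Nb D γ) (hE : Edge D γ) :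
    ∃ (P : Set ℤ) (η : ℝ), 0 < η ∧ D P ∧ ∀ t : ℤ, Near (t * γ) η → (t ∈ P ↔ H (t * γ)) := by
  obtain ⟨Q, c, η, hη, hQ, hE⟩ := hE
  obtain ⟨η1, hη1, V, hV, hV1, hV2⟩ := hN (η / 4) (by linarith only [hη])
  have hμ : 0 < min (η1 / 2) (η / 4) := lt_min (by linarith) (by linarith)
  obtain ⟨g, -, ng, hg1, hg2⟩ := kron0 hγ
    (show c - min (η1 / 2) (η / 4) < c + min (η1 / 2) (η / 4) by linarith) finite_empty
  have hm1 := min_le_left (η1 / 2) (η / 4)
  have hm2 := min_le_right (η1 / 2) (η / 4)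
  have hQ1 : D (Q ∩ {u | 1 * u + -g ∈ V}) := hD.inter hQ (hD.aff 1 (-g) hV)
  refine ⟨{0} ∪ {t | ∃ u ∈ Q ∩ {u | 1 * u + -g ∈ V}, -1 * t + 1 * u + 0 ∈ Qᶜ}ᶜ,
    min (min (η / 2) (η1 / 2)) (1 / 2), lt_min (lt_min (by linarith only [hμ, hm2]) (by linarith only [hμ, hm1])) (by norm_num),
    hD.union (hD.single 0) (hD.compl (hD.conv (-1) 1 0 hQ1 (hD.compl hQ))), ?_⟩
  rintro t ⟨n, hn⟩
  have hn1 := abs_lt.1 (hn.trans_le ((min_le_left _ _).trans (min_le_left _ _)))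
  have hn2 := abs_lt.1 (hn.trans_le ((min_le_left _ _).trans (min_le_right _ _)))
  have hn3 := hn.trans_le (min_le_right _ _)
  rw [← H_sub_int _ n, H_small hn3]
  constructor
  · intro ht
    by_contra hx
    have hx' : t * γ - n < 0 := not_le.1 hx
    rcases ht with ht | ht
    · have h0 : t = 0 := ht
      subst h0
      have h1 := abs_lt.1 hn3
      have h2 : (0 : ℝ) < n := by simpa using hx'
      have h3 : (n : ℝ) < 1 := by
        have := h1.1
        simp only [Int.cast_zero, zero_mul] at this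
        linarith only [h1]
      have h4 : 0 < n := by exact_mod_cast h2
      have h5 : n < 1 := by exact_mod_cast h3
      omega
    · obtain ⟨u, -, k, hu1, hu2⟩ := kron0 hγ (show c + (t * γ - n) < c by linarith only [hx]) finite_empty
      refine ht ⟨u, ⟨(hE u).1 ⟨k, by linarith only [hn1, hu1, hu2, hn1.1], hu2⟩, hV1 _ ⟨k - ng, ?_⟩⟩,
        (hE _).2 ⟨k - n, ?_, ?_⟩⟩
      · push_cast
        rw [abs_lt]
        constructor <;> linarith only [hg2, hm1, hn2, hu1, hg1, hu2, hn2.1]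
      · push_cast
        linarith only [hu1]
      · push_cast
        linarith only [hn1, hu1, hu2, hn1.1]
  · intro hx
    rcases hx.eq_or_lt with h0 | h0
    · left
      by_contra ht
      have h1 : (t : ℝ) ≠ 0 := by exact_mod_cast ht
      refine hγ ⟨(n : ℚ) / (t : ℚ), ?_⟩
      push_cast
      field_simp
      linarith only [h0, hx]
    · right
      rintro ⟨u, ⟨hu, huV⟩, hut⟩
      obtain ⟨m, hm⟩ := hV2 _ huV
      have h1 := abs_lt.1 hm
      push_cast at h1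
      have h2 : u * γ - (m + ng) ≤ c := by
        by_contra h3
        exact (hE u).2 ⟨m + ng, by push_cast; linarith only [h3], by push_cast; linarith only [hμ, hg2, hm2, h1, h1.2]⟩ hu
      refine hut ((hE _).1 ⟨m + ng - n, ?_, ?_⟩)
      · push_cast
        linarith only [hg1, hm2, hn1, h1, h1.1, hn1.2]
      · push_cast
        linarith only [h0, h2]

/-- Local definability on the circle gives definability. -/
theorem of_local (hD : Good1 D) {γ : ℝ} (hγ : Irrational γ) (hN : Nb D γ) (X : Set ℤ)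
    (h : ∀ θ : ℝ, ∃ (X0 : Set ℤ) (δ : ℝ), 0 < δ ∧ D X0 ∧
      ∀ t : ℤ, Near (t * γ - θ) δ → (t ∈ X0 ↔ t ∈ X)) : D X := by
  have key : ∀ θ : ℝ, ∃ (W : Set ℤ) (e : ℝ), 0 < e ∧ D W ∧ W ⊆ X ∧
      ∀ t ∈ X, Near (t * γ - θ) e → t ∈ W := by
    intro θ
    obtain ⟨X0, δ, hδ, hX0, hX⟩ := h θ
    obtain ⟨η, hη, V, hV, hV1, hV2⟩ := hN (δ / 2) (by linarith only [hδ])
    have hμ : 0 < min (η / 2) (δ / 2) := lt_min (by linarith) (by linarith)
    obtain ⟨g, -, ng, hg1, hg2⟩ := kron0 hγ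
      (show θ - min (η / 2) (δ / 2) < θ + min (η / 2) (δ / 2) by linarith only [hμ]) finite_empty
    have hm1 := min_le_left (η / 2) (δ / 2)
    have hm2 := min_le_right (η / 2) (δ / 2)
    have hnear : ∀ t : ℤ, 1 * t + -g ∈ V → Near (t * γ - θ) δ := by
      intro t ht
      obtain ⟨m, hm⟩ := hV2 _ ht
      have h1 := abs_lt.1 hm
      push_cast at h1
      refine ⟨m + ng, ?_⟩
      push_cast
      rw [abs_lt]
      constructor <;> linarith only [hg1, hm2, h1, hg2, h1.1, h1.2]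
    refine ⟨{t | 1 * t + -g ∈ V} ∩ X0, η / 2, by linarith only [hμ, hm1], hD.inter (hD.aff 1 (-g) hV) hX0,
      fun t ht => (hX t (hnear t ht.1)).1 ht.2, ?_⟩
    rintro t ht ⟨n, hn⟩
    have h1 := abs_lt.1 hn
    have h2 : 1 * t + -g ∈ V := by
      refine hV1 _ ⟨n - ng, ?_⟩
      push_cast
      rw [abs_lt]
      constructor <;> linarith only [hg2, hm1, h1, hg1, h1.1, h1.2]
    exact ⟨h2, (hX t (hnear t h2)).2 ht⟩
  choose W e he hW hWX hXW using key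
  obtain ⟨s, -, hs⟩ := (isCompact_Icc (a := (0 : ℝ)) (b := 1)).elim_nhds_subcover
    (fun θ => Metric.ball θ (e θ)) fun θ _ => Metric.ball_mem_nhds θ (he θ)
  have hX : X = ⋃ θ ∈ (s : Set ℝ), W θ := by
    refine Subset.antisymm (fun t ht => ?_) (iUnion₂_subset fun θ _ => hWX θ)
    have h1 := hs (show Int.fract (t * γ) ∈ Icc (0 : ℝ) 1 from
      ⟨Int.fract_nonneg _, (Int.fract_lt_one _).le⟩)
    obtain ⟨θ, hθ, h2⟩ := mem_iUnion₂.1 h1
    refine mem_iUnion₂.2 ⟨θ, hθ, hXW θ t ht ⟨⌊t * γ⌋, ?_⟩⟩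
    rw [Metric.mem_ball, Real.dist_eq] at h2
    rwa [show (t : ℝ) * γ - θ - (⌊t * γ⌋ : ℤ) = Int.fract (t * γ) - θ by
      unfold Int.fract; ring]
  rw [hX]
  exact hD.biUnion s.finite_toSet fun θ _ => hW θ

theorem full_of_basic (hD : Good1 D) {γ : ℝ}
    (h : ∀ r ∈ Sp γ, D {t : ℤ | H (t * γ + r)}) : Full D γ := by
  intro β hβ r hr
  obtain ⟨N, hN, a, b, hab⟩ := Full_denom hβ
  have hZ : ∀ s : ℤ, D {u : ℤ | b * u + 0 ∈ {t : ℤ | H (t * γ + (s * β + r))}} := fun s =>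
    hD.aff b 0 (h _ ((Sp γ).add_mem (by simpa using rat_mul_mem hβ (s : ℚ)) hr))
  have hcalc : ∀ u s : ℤ, H (((N * u + s : ℤ) : ℝ) * β + r) ↔
      H (((b * u + 0 : ℤ) : ℝ) * γ + (s * β + r)) := by
    intro u s
    rw [← H_add_int (((b * u + 0 : ℤ) : ℝ) * γ + (s * β + r)) (u * a)]
    refine iff_of_eq (congrArg H ?_)
    push_cast
    linear_combination (u : ℝ) * hab
  have e : {t : ℤ | H (t * β + r)} = {t : ℤ | ∃ s ∈ Ico 0 N,
      ∃ u ∈ {u : ℤ | b * u + 0 ∈ {t : ℤ | H (t * γ + (s * β + r))}},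
        1 * t + -N * u + 0 ∈ ({s} : Set ℤ)} := by
    ext t
    simp only [mem_ofPred_eq, mem_singleton_iff]
    constructor
    · intro ht
      have h1 : N * (t / N) + t % N = t := Int.mul_ediv_add_emod t N
      refine ⟨t % N, ⟨Int.emod_nonneg t hN.ne', Int.emod_lt_of_pos t hN⟩, t / N,
        (hcalc _ _).1 (by rwa [h1]), by linarith only [h1]⟩
    · rintro ⟨s, -, u, hu, hs⟩
      have h1 : t = N * u + s := by linarith
      rw [h1]
      exact (hcalc _ _).2 hu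
  rw [e]
  exact hD.ex (finite_Ico 0 N) fun s _ => hD.conv 1 (-N) 0 (hZ s) (hD.single s)

theorem full_of_nb_edge (hD : Good1 D) {γ : ℝ} (hγ : Irrational γ) (hN : Nb D γ)
    (hE : Edge D γ) : Full D γ := by
  obtain ⟨P, η, hη, hP, hPs⟩ := loc_pos hD hγ hN hE
  refine full_of_basic hD fun r hr => of_local hD hγ hN _ fun θ => ?_
  by_cases hw : ∃ l : ℤ, θ + r = l / 2
  · obtain ⟨l, hl⟩ := hw
    obtain ⟨N, hN0, a, b, hab⟩ := Full_denom hr
    have hN1 : (1 : ℝ) ≤ N := by exact_mod_cast hN0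
    have hδ : 0 < min η (1 / 2) / (2 * N) := div_pos (lt_min hη (by norm_num)) (by linarith only [hN1])
    have key : ∀ t n : ℤ, |t * γ - θ - n| < min η (1 / 2) / (2 * N) →
        |t * γ - θ - n| < 1 / 2 ∧ (2 * N * t + 2 * b ∈ P ↔ 0 ≤ t * γ - θ - n) := by
      intro t n hn
      rw [lt_div_iff₀ (by linarith only [hN1])] at hn
      have h1 : |2 * N * (t * γ - θ - n)| < min η (1 / 2) := by
        rw [abs_mul, abs_of_pos (by linarith only [hN1] : (0 : ℝ) < 2 * N)]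
        linarith only [hn]
      have h2 : ((2 * N * t + 2 * b : ℤ) : ℝ) * γ - ((N * l - 2 * a + 2 * N * n : ℤ) : ℝ) =
          2 * N * (t * γ - θ - n) := by
        push_cast
        linear_combination (2 * (N : ℝ)) * hl - 2 * hab
      have h3 := min_le_right η (1 / 2)
      have h4 := abs_nonneg (t * γ - θ - n)
      refine ⟨by linarith only [hn, h3, hN1, h4, mul_nonneg_of_nonpos_of_nonpos (Mathlib.Tactic.Linarith.sub_nonpos_of_le hN1) (Mathlib.Tactic.Linarith.sub_nonpos_of_le h4)], ?_⟩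
      rw [hPs _ ⟨N * l - 2 * a + 2 * N * n, by rw [h2]; exact h1.trans_le (min_le_left _ _)⟩,
        ← H_sub_int _ (N * l - 2 * a + 2 * N * n), h2, H_small (h1.trans_le h3)]
      exact mul_nonneg_iff_of_pos_left (by linarith only [hN1])
    have hX0 : D {t : ℤ | 2 * N * t + 2 * b ∈ P} := hD.aff (2 * N) (2 * b) hP
    rcases Int.even_or_odd' l with ⟨j, hj | hj⟩
    · refine ⟨_, _, hδ, hX0, ?_⟩
      rintro t ⟨n, hn⟩
      obtain ⟨h1, h2⟩ := key t n hn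
      simp only [mem_ofPred_eq]
      rw [h2, ← H_small h1, ← H_add_int _ (n + j)]
      refine iff_of_eq (congrArg H ?_)
      rw [hj] at hl
      push_cast at hl ⊢
      linarith only [hl]
    · refine ⟨_, _, hδ, hD.compl hX0, ?_⟩
      rintro t ⟨n, hn⟩
      obtain ⟨h1, h2⟩ := key t n hn
      simp only [mem_compl_iff, mem_ofPred_eq]
      rw [h2, ← H_small h1, ← H_add_half, ← H_add_int _ (n + j)]
      refine iff_of_eq (congrArg H ?_)
      rw [hj] at hl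
      push_cast at hl ⊢
      linarith only [hl]
  · obtain ⟨ε, hε, hiso⟩ := wall_isolated {0, 1 / 2} (θ + r)
    refine ⟨{_t : ℤ | H (θ + r)}, ε, hε, ?_, ?_⟩
    · by_cases h0 : H (θ + r)
      · simpa [h0] using hD.univ
      · simpa [h0] using hD.empty
    · rintro t ⟨n, hn⟩
      simp only [mem_ofPred_eq]
      rw [← H_sub_int (t * γ + r) n]
      refine H_const fun l hl => hw ⟨l, ?_⟩
      have h1 : |(l : ℝ) / 2 - (θ + r)| < ε := by
        refine (abs_sub_left_of_mem_uIcc hl).trans_lt ?_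
        rwa [show (t : ℝ) * γ + r - n - (θ + r) = t * γ - θ - n by ring]
      rcases Int.even_or_odd' l with ⟨j, hj | hj⟩
      · have h2 : (l : ℝ) / 2 = 0 + j := by rw [hj]; push_cast; ring
        rw [h2] at h1 ⊢
        exact (hiso 0 (by simp) j h1).symm
      · have h2 : (l : ℝ) / 2 = 1 / 2 + j := by rw [hj]; push_cast; ring
        rw [h2] at h1 ⊢
        exact (hiso (1 / 2) (by simp) j h1).symm

end Pool.Agent.Work.MP_340ce7_lc
end

-- merged part: Pool.Agent.Work.MP_340ce7_lc.Cyc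
section
/-! The cyclic order and half circles. -/

namespace Pool.Agent.Work.MP_340ce7_lc

open Set

theorem Cyc_fr (x y : ℝ) :
    (Int.fract x ≤ Int.fract y ∧ Int.fract (y - x) = Int.fract y - Int.fract x) ∨
      (Int.fract y < Int.fract x ∧ Int.fract (y - x) = Int.fract y - Int.fract x + 1) := by
  have h1 := Int.fract_nonneg x
  have h2 := Int.fract_nonneg y
  have h3 := Int.fract_lt_one x
  have h4 := Int.fract_lt_one y
  rcases le_or_gt (Int.fract x) (Int.fract y) with h | h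
  · refine Or.inl ⟨h, Int.fract_eq_iff.2 ⟨by linarith, by linarith, ⌊y⌋ - ⌊x⌋, ?_⟩⟩
    unfold Int.fract
    push_cast
    ring
  · refine Or.inr ⟨h, Int.fract_eq_iff.2 ⟨by linarith, by linarith, ⌊y⌋ - ⌊x⌋ - 1, ?_⟩⟩
    unfold Int.fract
    push_cast
    ring

theorem Cyc_in {v w : ℝ} (hw : w ≤ 1) : In v 0 w ↔ 0 < Int.fract v ∧ Int.fract v < w := by
  constructor
  · rintro ⟨n, h1, h2⟩
    rw [← Int.fract_sub_intCast v n, Int.fract_eq_self.2 ⟨h1.le, by linarith⟩]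
    exact ⟨h1, h2⟩
  · exact fun h => ⟨⌊v⌋, h⟩

theorem cyc_iff {α : ℝ} (a b c : ℤ) :
    Cyc α a b c ↔ In (((b - a : ℤ) : ℝ) * α) 0 (Int.fract (((c - a : ℤ) : ℝ) * α)) := by
  rw [Cyc_in (Int.fract_lt_one _).le, Cyc]
  push_cast
  rw [sub_mul, sub_mul]
  have h1 := Int.fract_nonneg (a * α)
  have h2 := Int.fract_nonneg (b * α)
  have h3 := Int.fract_nonneg (c * α)
  have h4 := Int.fract_lt_one (a * α)
  have h5 := Int.fract_lt_one (b * α)
  have h6 := Int.fract_lt_one (c * α)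
  rcases Cyc_fr (a * α) (b * α) with ⟨e1, e2⟩ | ⟨e1, e2⟩ <;>
    rcases Cyc_fr (a * α) (c * α) with ⟨e3, e4⟩ | ⟨e3, e4⟩ <;> rw [e2, e4] <;> constructor
  all_goals first
    | (rintro (⟨g1, g2⟩ | ⟨g1, g2⟩ | ⟨g1, g2⟩) <;> constructor <;> linarith only [g1, g2, e1, e3, h3, h5, h2, h4])
    | (rintro ⟨g1, g2⟩
       first
        | exact Or.inl ⟨by linarith, by linarith⟩
        | exact Or.inr (Or.inl ⟨by linarith, by linarith⟩)
        | exact Or.inr (Or.inr ⟨by linarith, by linarith⟩))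

theorem Cyc_pos {α : ℝ} (hα : Irrational α) (k : ℤ) : 0 < Int.fract (k * α) ↔ k ≠ 0 := by
  constructor
  · rintro h rfl
    simp at h
  · intro hk
    refine lt_of_le_of_ne (Int.fract_nonneg _) fun e => (hα.intCast_mul hk).ne_int ⌊k * α⌋ ?_
    unfold Int.fract at e
    linarith only [e]

theorem Cyc_lt (u v : ℝ) : Int.fract u < Int.fract v ↔ (H u ∧ ¬ H v) ∨
    (((H u ∧ H v) ∨ (¬ H u ∧ ¬ H v)) ∧ H (v - u) ∧ 0 < Int.fract (v - u)) := by
  have h1 := Int.fract_nonneg u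
  have h2 := Int.fract_nonneg v
  have h3 := Int.fract_lt_one u
  have h4 := Int.fract_lt_one v
  simp only [H, not_lt]
  rcases Cyc_fr u v with ⟨e1, e2⟩ | ⟨e1, e2⟩ <;> rw [e2] <;> constructor
  · intro h
    rcases lt_or_ge (Int.fract u) (1 / 2) with g1 | g1 <;>
      rcases lt_or_ge (Int.fract v) (1 / 2) with g2 | g2
    · exact Or.inr ⟨Or.inl ⟨g1, g2⟩, by linarith only [h1, g2], by linarith only [h]⟩
    · exact Or.inl ⟨g1, g2⟩
    · linarith only [h, g1, g2]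
    · exact Or.inr ⟨Or.inr ⟨g1, g2⟩, by linarith only [h4, g1], by linarith only [h]⟩
  · rintro (⟨g1, g2⟩ | ⟨-, -, g⟩) <;> linarith
  · intro h
    linarith
  · rintro (⟨g1, g2⟩ | ⟨⟨g1, g2⟩ | ⟨g1, g2⟩, g3, -⟩) <;> linarith

theorem cyc_of_H {P : ∀ ι : Type, Set (ι → ℤ) → Prop} (hP : Good P) {α : ℝ} (hα : Irrational α)
    (h : D1 P {t : ℤ | H (t * α)}) : P (Fin 3) {x | Cyc α (x 0) (x 1) (x 2)} := by
  have hH : ∀ i j : Fin 3, P (Fin 3) {x | H (((x i - x j : ℤ) : ℝ) * α)} := fun i j =>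
    hP.d1 h ((IsAff.var i).sub (IsAff.var j))
  have hE : ∀ i j : Fin 3, P (Fin 3) {x | x i - x j = 0}ᶜ := fun i j =>
    hP.compl (hP.eq ((IsAff.var i).sub (IsAff.var j)) (IsAff.const 0))
  have key := hP.inter (hE 1 0) (hP.union (hP.inter (hH 1 0) (hP.compl (hH 2 0)))
    (hP.inter (hP.union (hP.inter (hH 1 0) (hH 2 0))
      (hP.inter (hP.compl (hH 1 0)) (hP.compl (hH 2 0)))) (hP.inter (hH 2 1) (hE 2 1))))
  refine (congrArg (P (Fin 3)) (Set.ext fun x => ?_)).mp key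
  have e : ((x 2 - x 0 : ℤ) : ℝ) * α - ((x 1 - x 0 : ℤ) : ℝ) * α = ((x 2 - x 1 : ℤ) : ℝ) * α := by
    push_cast
    ring
  rw [mem_ofPred_eq, cyc_iff, Cyc_in (Int.fract_lt_one _).le, Cyc_lt, e, Cyc_pos hα, Cyc_pos hα]
  rfl

theorem Cyc_arc {P : ∀ ι : Type, Set (ι → ℤ) → Prop} (hP : Good P) {α : ℝ}
    (hα : Irrational α) (h : P (Fin 3) {x | Cyc α (x 0) (x 1) (x 2)}) {p p' q q' : ℝ}
    (h1 : p < p') (h2 : p' ≤ q) (h3 : q < q') (h4 : q' ≤ p + 1) :
    ∃ x y : ℝ, p < x ∧ x < p' ∧ q < y ∧ y < q' ∧ D1 P {t : ℤ | In (t * α) x y} := by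
  obtain ⟨a, -, m, a1, a2⟩ := kron0 hα h1 finite_empty
  obtain ⟨b, -, n, b1, b2⟩ := kron0 hα h3 finite_empty
  refine ⟨_, _, a1, a2, b1, b2, ?_⟩
  have key := hP.aff (κ := Unit) (fun x => ![a, x (), b]) (fun i => by
    fin_cases i
    · exact IsAff.const a
    · exact IsAff.var ()
    · exact IsAff.const b) h
  refine (congrArg (P Unit) (Set.ext fun x => ?_)).mp key
  have e : Int.fract (((b - a : ℤ) : ℝ) * α) = (b * α - n) - (a * α - m) :=
    Int.fract_eq_iff.2 ⟨by linarith only [h2, a2, b1], by linarith, n - m, by push_cast; ring⟩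
  change Cyc α a (x ()) b ↔ In (x () * α) _ _
  rw [cyc_iff, e]
  constructor
  · rintro ⟨k, g1, g2⟩
    push_cast at g1 g2
    exact ⟨k + m, by push_cast; linarith, by push_cast; linarith⟩
  · rintro ⟨k, g1, g2⟩
    exact ⟨k - m, by push_cast; linarith, by push_cast; linarith⟩

theorem full_of_cyc {P : ∀ ι : Type, Set (ι → ℤ) → Prop} (hP : Good P) {α : ℝ}
    (hα : Irrational α) (h : P (Fin 3) {x | Cyc α (x 0) (x 1) (x 2)}) : Full (D1 P) α := by
  refine full_of_nb_edge hP.good1 hα (fun κ hκ => ?_) ?_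
  · obtain ⟨k, k0, k1, k2⟩ : ∃ k : ℝ, 0 < k ∧ k ≤ κ ∧ k ≤ 1 / 4 :=
      ⟨min κ (1 / 4), by positivity, min_le_left _ _, min_le_right _ _⟩
    obtain ⟨x, y, x1, x2, y1, y2, hD⟩ := Cyc_arc hP hα h (p := -k) (p' := -(k / 2)) (q := k / 2)
      (q' := k) (by linarith only [k0]) (by linarith only [k0]) (by linarith only [k0]) (by linarith only [k0, k2])
    refine ⟨k / 2, by positivity, _, hD, ?_, ?_⟩
    · rintro t ⟨n, hn⟩
      have := abs_lt.1 hn
      exact ⟨n, by linarith only [x2, this], by linarith only [y1, this]⟩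
    · rintro t ⟨n, g1, g2⟩
      exact ⟨n, abs_lt.2 ⟨by linarith only [k1, x1, g1], by linarith only [k1, y2, g2]⟩⟩
  · obtain ⟨x, y, x1, x2, y1, y2, hD⟩ := Cyc_arc hP hα h (p := -(1 / 2)) (p' := -(1 / 4)) (q := 0)
      (q' := 1 / 8) (by norm_num) (by norm_num) (by norm_num) (by norm_num)
    refine ⟨_, y, 1 / 4, by norm_num, hD, fun t => ⟨?_, ?_⟩⟩
    · rintro ⟨n, g1, g2⟩
      exact ⟨n, by linarith only [x2, y1, g1], g2⟩
    · rintro ⟨n, g1, g2⟩ ⟨m, g3, g4⟩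
      have e1 : (n : ℝ) < m := by linarith only [g1, g4]
      have e2 : (m : ℝ) < n + 1 := by linarith only [x1, y1, y2, g2, g3]
      have e3 : n < m := by exact_mod_cast e1
      have e4 : m < n + 1 := by exact_mod_cast e2
      omega

theorem cyc_of_full {P : ∀ ι : Type, Set (ι → ℤ) → Prop} (hP : Good P) {α β : ℝ}
    (hβ : Irrational β) (hβα : β ∈ Sp α) (h : Full (D1 P) α) :
    P (Fin 3) {x | Cyc β (x 0) (x 1) (x 2)} :=
  cyc_of_H hP hβ (by simpa using h β hβα 0 (Sp α).zero_mem)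

end Pool.Agent.Work.MP_340ce7_lc
end

-- merged part: Pool.Agent.Work.MP_340ce7_lc.Counter
section
/-! The exotic intermediate structure in the dependent case. -/

namespace Pool.Agent.Work.MP_340ce7_lc

open Set

theorem ind_pair {α β : ℝ} (hα : Irrational α) (hβ : β ∉ Sp α) : Ind {α, β} := by
  classical
  have hne : α ≠ β := fun h => hβ (h ▸ self_mem_Sp α)
  intro s c c0 hs h
  let c' : ℝ → ℚ := fun x => if x ∈ s then c x else 0
  have h1 : ∑ x ∈ ({α, β} : Finset ℝ), (c' x : ℝ) * x = c0 := by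
    rw [← h]
    symm
    refine Finset.sum_subset_zero_on_sdiff (fun x hx => by simpa using hs hx) ?_ ?_
    · intro x hx
      simp [c', (Finset.mem_sdiff.1 hx).2]
    · intro x hx
      simp [c', hx]
  rw [Finset.sum_pair hne] at h1
  have h2 : c' β = 0 := by
    by_contra hb
    have hb' : (c' β : ℝ) ≠ 0 := by exact_mod_cast hb
    refine hβ (mem_Sp.2 ⟨c0 / c' β, -c' α / c' β, ?_⟩)
    push_cast
    field_simp
    linarith only [h1]
  have h3 : c' α = 0 := by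
    by_contra ha
    have ha' : (c' α : ℝ) ≠ 0 := by exact_mod_cast ha
    refine hα ⟨c0 / c' α, ?_⟩
    rw [h2] at h1
    push_cast at h1 ⊢
    field_simp
    linarith
  intro x hx
  have h4 : c' x = c x := if_pos hx
  rcases hs hx with rfl | rfl
  · exact h4 ▸ h3
  · exact h4 ▸ h2

/-- Two points close to a point off the walls are in the same cell. -/
theorem same_of_near {W : Finset ℝ} {x ε : ℝ} (hx : ∀ k ∈ W, ∀ j : ℤ, k + j ≠ x)
    (hε : ∀ k ∈ W, ∀ j : ℤ, |k + j - x| < ε → k + j = x) {u v : ℝ}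
    (hu : In u (x - ε) (x + ε)) (hv : In v (x - ε) (x + ε)) : Same W u v := by
  obtain ⟨n, h1, h2⟩ := hu
  obtain ⟨m, h3, h4⟩ := hv
  refine ⟨n - m, fun k hk j hj => hx k hk (j - n) (hε k hk _ ?_)⟩
  push_cast at hj ⊢
  rw [abs_lt]
  rcases mem_uIcc.1 hj with h | h <;> constructor <;> linarith only [h1, h, h4, h3, h2, h.1, h.2]

theorem exists_off_wall (W : Finset ℝ) : ∃ x : ℝ, ∀ k ∈ W, ∀ j : ℤ, k + j ≠ x := by
  obtain ⟨ε, h0, h⟩ := wall_isolated W 0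
  refine ⟨ε / 2, fun k hk j hj => ?_⟩
  have := h k hk j (by rw [hj, sub_zero, abs_of_pos (by linarith only [h0])]; linarith)
  linarith only [h0, hj, this]

theorem mem_Sp_of_det {α β : ℝ} (hα : Irrational α) {K : ℝ → Submodule ℚ ℝ}
    (hK : (1 : ℝ) ∈ K α) (h : D1 (Det {α} K) {t : ℤ | H (t * β)}) : β ∈ Sp α := by
  classical
  by_contra hβ
  have hne : β ≠ α := fun h => hβ (h ▸ self_mem_Sp β)
  obtain ⟨N, hN, A0, W, Φ, h0, hΦ, hT, _⟩ := tame_of_det (by simpa using hK) h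
  obtain ⟨x, hx⟩ := exists_off_wall W
  obtain ⟨ε, hε, hw⟩ := wall_isolated W x
  have key : ∀ y : ℝ, ∃ k : ℤ, k ∉ Φ ∧ In (k * α) (x - ε) (x + ε) ∧
      In (((N : ℤ) * k : ℤ) * β) (y - 1 / 8) (y + 1 / 8) := by
    intro y
    obtain ⟨k, hk, h1⟩ := kron (ind_pair hα hβ) {α, β} (by simp)
      (fun γ => if γ = α then 1 else N)
      (fun γ _ => by
        by_cases hγ : γ = α
        · simp [hγ]
        · simpa [hγ] using hN.ne')
      (fun γ => if γ = α then x else y) (δ := min ε (1 / 8)) (by positivity) hΦ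
    obtain ⟨n, hn⟩ := h1 α (by simp)
    obtain ⟨m, hm⟩ := h1 β (by simp)
    simp only [if_true, hne, if_false] at hn hm
    have h2 := abs_lt.1 (hn.trans_le (min_le_left _ _))
    have h3 := abs_lt.1 (hm.trans_le (min_le_right _ _))
    push_cast at h2 h3
    refine ⟨k, hk, ⟨n, by linarith only [h2, h2.1], by linarith only [h2, h2.2]⟩, m, ?_, ?_⟩
    · push_cast
      linarith only [h3, h3.1]
    · push_cast
      linarith only [h3, h3.2]
  obtain ⟨k, hk, a1, n, a2, a3⟩ := key (1 / 4)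
  obtain ⟨k', hk', b1, n', b2, b3⟩ := key (-(1 / 4))
  have h1 := hT k k' hk hk' (fun γ hγ => by
    have : γ = α := h0 hγ
    rw [this]
    exact same_of_near hx hw a1 b1) ((H_iff _).2 ⟨n, by linarith only [a2], by linarith only [a3]⟩)
  exact (not_H_iff _).2 ⟨n', by linarith only [b2], by linarith only [b3]⟩ h1

theorem arc_not_det {α a b : ℝ} (hα : Irrational α) {m : ℤ} (hm : m ≠ 0) (h1 : a < b)
    (h2 : b < a + 1 / 2) (hb : b ∉ Sp α) :
    ¬ D1 (Det {α} Sp) {t : ℤ | In (t * (m * α)) a b} := by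
  intro h
  obtain ⟨N, hN, A0, W, Φ, h0, hΦ, hT, hW⟩ := tame_of_det (fun β _ => one_mem_Sp β) h
  set M : ℤ := N * m with hM
  have hM0 : (M : ℝ) ≠ 0 := by
    exact_mod_cast mul_ne_zero (by exact_mod_cast hN.ne') hm
  have hMa : 0 < |(M : ℝ)| := abs_pos.2 hM0
  have hx : ∀ k ∈ W, ∀ j : ℤ, k + j ≠ b / M := by
    intro k hk j hj
    obtain ⟨β, hβ, hk'⟩ := hW k hk
    have hβ' : β = α := hβ
    subst hβ'
    have h3 := rat_mul_mem ((Sp β).add_mem hk' (rat_mem_Sp β j)) M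
    push_cast at h3
    rw [hj, mul_div_cancel₀ _ hM0] at h3
    exact hb h3
  obtain ⟨ε, hε, hw⟩ := wall_isolated W (b / M)
  have key : ∀ p q : ℝ, p < q → -(|(M : ℝ)| * ε) < p → q < |(M : ℝ)| * ε →
      ∃ k : ℤ, k ∉ Φ ∧ In (k * α) (b / M - ε) (b / M + ε) ∧
        In ((((N : ℤ) * k : ℤ) : ℝ) * (m * α)) (b + p) (b + q) := by
    intro p q hpq hp hq
    obtain ⟨k, hk, n, a1, a2⟩ := kron0 hα
      (a := b / M + (p + q) / 2 / M - (q - p) / 2 / |(M : ℝ)|)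
      (b := b / M + (p + q) / 2 / M + (q - p) / 2 / |(M : ℝ)|)
      (by have : 0 < (q - p) / 2 / |(M : ℝ)| := div_pos (by linarith only [hpq]) hMa
          linarith only [this]) hΦ
    set y : ℝ := k * α - n - b / M with hy
    have a3 : |y - (p + q) / 2 / M| < (q - p) / 2 / |(M : ℝ)| :=
      abs_lt.2 ⟨by linarith only [a1], by linarith only [a2]⟩
    have a4 : |M * y - (p + q) / 2| < (q - p) / 2 := by
      rw [lt_div_iff₀ hMa, ← abs_mul] at a3
      rwa [show (y - (p + q) / 2 / M) * M = M * y - (p + q) / 2 by field_simp] at a3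
    have a5 := abs_lt.1 a4
    have a6 : |y| < ε := by
      have : |(M : ℝ)| * |y| < |(M : ℝ)| * ε := by
        rw [← abs_mul]
        exact abs_lt.2 ⟨by linarith only [hp, a5, a5.1], by linarith only [hq, a5, a5.2]⟩
      exact lt_of_mul_lt_mul_left this hMa.le
    have a7 := abs_lt.1 a6
    have a8 : (((N : ℤ) * k : ℤ) : ℝ) * (m * α) - ((M * n : ℤ) : ℝ) = b + M * y := by
      rw [hy, mul_sub, mul_div_cancel₀ _ hM0, hM]
      push_cast
      ring
    exact ⟨k, hk, ⟨n, by linarith only [a7, a7.1], by linarith only [a7, a7.2]⟩, M * n,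
      by rw [a8]; linarith only [a5, a5.1], by rw [a8]; linarith only [a5, a5.2]⟩
  set η : ℝ := min (|(M : ℝ)| * ε / 2) (min (b - a) (1 / 2)) with hη
  have hη0 : 0 < η := lt_min (by positivity) (lt_min (by linarith only [h1]) (by norm_num))
  have hη1 : η ≤ |(M : ℝ)| * ε / 2 := min_le_left _ _
  have hη2 : η ≤ b - a := (min_le_right _ _).trans (min_le_left _ _)
  have hη3 : η ≤ 1 / 2 := (min_le_right _ _).trans (min_le_right _ _)
  have hMε : 0 < |(M : ℝ)| * ε := by positivity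
  obtain ⟨k, hk, a1, n, a2, a3⟩ := key (-η) 0 (by linarith only [hη0]) (by linarith only [hη0, hη1]) hMε
  obtain ⟨k', hk', b1, n', b2, b3⟩ := key 0 η hη0 (by linarith only [hη1, a2, a3]) (by linarith only [hη1, a2, a3])
  obtain ⟨j, c1, c2⟩ := hT k k' hk hk' (fun γ hγ => by
    have : γ = α := h0 hγ
    rw [this]
    exact same_of_near hx hw a1 b1) ⟨n, by linarith only [hη2, a2], by linarith only [a3]⟩
  have d1 : (n' : ℝ) < j := by linarith only [b2, c2]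
  have d2 : (j : ℝ) < n' + 1 := by linarith only [h2, hη2, b3, c1]
  have d3 : n' < j := by exact_mod_cast d1
  have d4 : j < n' + 1 := by exact_mod_cast d2
  omega

theorem counter {A : Set ℝ} (hA : ∀ α ∈ A, Irrational α) (h : ¬ Indep A) :
    ∃ M : Str, Below (cycStr ∅) M ∧ Below M (cycStr A) ∧
      ∀ B ⊆ A, ¬ (Below M (cycStr B) ∧ Below (cycStr B) M) := by
  have hP := good_df (df_add A)
  obtain ⟨α, hα, m, a, b, hm, h1, h2, hb, hQ⟩ := exotic_arc hA h hP.good1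
    fun α hα => full_of_cyc hP (hA α hα) (df_cyc hα)
  have hi := hA α hα
  set Q := {t : ℤ | In (t * (m * α)) a b} with hQdef
  refine ⟨unStr Q, below_iff.2 (cyc_sub (good_df (df_add_un Q)) (by simp)),
    below_iff.2 (un_sub hP hQ), ?_⟩
  rintro B hB ⟨h3, h4⟩
  have g1 : Good (Det {α} fun _ => ⊤) := good_det (ind_single hi) (by simp)
  have g2 : Good (Det {α} Sp) :=
    good_det (ind_single hi) fun β _ => ⟨one_mem_Sp β, self_mem_Sp β⟩
  have q1 : D1 (Det {α} fun _ => ⊤) Q := by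
    have e : Q = {t : ℤ | H (t * (((-m : ℤ) : ℚ) * α) + a)}ᶜ ∩
        {t : ℤ | H (t * (((m : ℤ) : ℚ) * α) + -b)}ᶜ := by
      ext t
      simp only [hQdef, mem_ofPred_eq, mem_inter_iff, mem_compl_iff, In_iff_H h1 h2]
      push_cast
      rw [show (t : ℝ) * (-m * α) + a = a - t * (m * α) by ring, ← sub_eq_add_neg]
    rw [e]
    exact g1.good1.inter (g1.good1.compl (det_H (mem_singleton α) Submodule.mem_top _))
      (g1.good1.compl (det_H (mem_singleton α) Submodule.mem_top _))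
  have f2 : Full (D1 (Det {α} Sp)) α :=
    full_of_basic g2.good1 fun r hr => by simpa using det_H (A := {α}) (K := Sp) rfl hr 1
  refine arc_not_det hi hm h1 h2 hb (cyc_sub g2 (fun β hβ => ?_) _ _
    (below_iff.1 h3 _ _ (d1_un Q)))
  have hβi := hA β (hB hβ)
  have f1 := full_of_cyc g1 hβi (un_sub g1 q1 _ _ (below_iff.1 h4 _ _ (df_cyc hβ)))
  refine cyc_of_full g2 hβi (mem_Sp_of_det hi (K := fun _ => ⊤) trivial ?_) f2
  simpa using f1 β (self_mem_Sp β) 0 (Sp β).zero_mem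

end Pool.Agent.Work.MP_340ce7_lc
end

-- merged part: Pool.Agent.Work.MP_340ce7_lc.Fill
section
/-! Step F6 (b), (c). -/

namespace Pool.Agent.Work.MP_340ce7_lc

open Set

variable {D : Set ℤ → Prop} {A : Set ℝ}

/-- (b) A weighted sumset fills the other coordinates. -/
theorem fill (hA : Ind A) {A0 : Finset ℝ} (h0 : (↑A0 : Set ℝ) ⊆ A) {α : ℝ} (hα : α ∈ A0)
    {Φ Z : Set ℤ} (hΦ : Φ.Finite) {p q ρ : ℝ} {θ : ℝ → ℝ} (hZ : Box A0 α Φ p q ρ θ Z)
    {r : ℕ} (hr0 : 0 < r) (hr : 1 < (r + 1) * ρ) (t : ℤ)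
    (ht : In (t * α) ((r + 1) * p) ((r + 1) * q)) : ∃ u ∈ Z, t - r * u ∈ Z := by
  classical
  obtain ⟨n, hn1, hn2⟩ := ht
  have hr1 : (1 : ℝ) ≤ r := by exact_mod_cast hr0
  have hR : (0 : ℝ) < r + 1 := by linarith only [hr1]
  obtain ⟨x0, hx0⟩ : ∃ x0 : ℝ, (r + 1) * x0 = t * α - n :=
    ⟨(t * α - n) / (r + 1), by field_simp⟩
  have hp : p < x0 := lt_of_mul_lt_mul_left (by rw [hx0]; exact hn1) hR.le
  have hq : x0 < q := lt_of_mul_lt_mul_left (by rw [hx0]; exact hn2) hR.le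
  obtain ⟨w, hw⟩ : ∃ w : ℝ, (r + 1) * w = 1 := ⟨1 / (r + 1), by field_simp⟩
  have hwρ : w < ρ := lt_of_mul_lt_mul_left (by rw [hw]; exact hr) hR.le
  obtain ⟨y, hy⟩ : ∃ y : ℝ → ℝ, ∀ β, (r + 1) * y β = Int.fract (t * β - (r + 1) * θ β) :=
    ⟨fun β => Int.fract (t * β - (r + 1) * θ β) / (r + 1), fun β => by field_simp⟩
  have hy0 : ∀ β, 0 ≤ y β := fun β =>
    nonneg_of_mul_nonneg_right (a := (r : ℝ) + 1) (by rw [hy]; exact Int.fract_nonneg _) hR
  have hy1 : ∀ β, y β < w := fun β =>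
    lt_of_mul_lt_mul_left (by rw [hy, hw]; exact Int.fract_lt_one _) hR.le
  obtain ⟨c, hc0, hc1, hc2, hc3⟩ : ∃ c : ℝ, 0 < c ∧ c ≤ x0 - p ∧ c ≤ q - x0 ∧ c ≤ ρ - w :=
    ⟨min (x0 - p) (min (q - x0) (ρ - w)),
      lt_min (by linarith) (lt_min (by linarith) (by linarith)), min_le_left _ _,
      (min_le_right _ _).trans (min_le_left _ _), (min_le_right _ _).trans (min_le_right _ _)⟩
  obtain ⟨d, hd0, hd⟩ : ∃ d : ℝ, 0 < d ∧ r * d = c :=
    ⟨c / r, div_pos hc0 (by linarith), by field_simp⟩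
  have hdc : d ≤ c := by linarith only [hd, hr1, hd0, mul_nonneg_of_nonpos_of_nonpos (Mathlib.Tactic.Linarith.sub_nonpos_of_le hr1) (le_of_lt (Mathlib.Tactic.Linarith.sub_neg_of_lt hd0))]
  have hΦ' : {u : ℤ | t - r * u ∈ Φ}.Finite := by
    refine hΦ.preimage (f := fun u : ℤ => t - r * u) fun a _ b _ h => ?_
    have h1 : (r : ℤ) * a = r * b := by
      have : t - r * a = t - r * b := h
      linarith only [h]
    exact mul_left_cancel₀ (by exact_mod_cast hr0.ne') h1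
  obtain ⟨u, hu, hk⟩ := kron1 hA A0 h0 (fun β => if β = α then x0 else θ β + y β) hd0
    (hΦ.union hΦ')
  have hu1 : u ∉ Φ := fun h => hu (Or.inl h)
  have hu2 : t - r * u ∉ Φ := fun h => hu (Or.inr h)
  have hmul : ∀ e : ℝ, |e| < d → |r * e| < c := fun e he => by
    rw [abs_mul, abs_of_nonneg (by linarith only [hr1] : (0 : ℝ) ≤ r), ← hd]
    exact mul_lt_mul_of_pos_left he (by linarith)
  obtain ⟨m, hm⟩ := hk α hα
  simp only [if_true] at hm
  refine ⟨u, hZ u hu1 ?_ fun β hβ hne => ?_, hZ _ hu2 ?_ fun β hβ hne => ?_⟩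
  · have := abs_lt.1 hm
    exact ⟨m, by linarith only [hc1, hdc, this, this.1], by linarith only [hc2, hdc, this, this.2]⟩
  · obtain ⟨l, hl⟩ := hk β hβ
    simp only [if_neg hne] at hl
    have := abs_lt.1 hl
    refine ⟨l, abs_lt.2 ⟨?_, ?_⟩⟩
    · linarith only [hc3, hdc, this, hy0, hy1, this.1, hy0 β, hy1 β]
    · linarith only [hc3, hdc, this, hy1, this.2, hy1 β]
  · have := abs_lt.1 (hmul _ hm)
    refine ⟨n - r * m, ?_, ?_⟩
    · push_cast
      linarith only [hx0, hc1, this, this.2]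
    · push_cast
      linarith only [hx0, hc2, this, this.1]
  · obtain ⟨l, hl⟩ := hk β hβ
    simp only [if_neg hne] at hl
    have := abs_lt.1 (hmul _ hl)
    have h2 := hy β
    unfold Int.fract at h2
    refine ⟨⌊t * β - (r + 1) * θ β⌋ - r * l, abs_lt.2 ⟨?_, ?_⟩⟩
    · push_cast
      linarith only [hc3, this, h2, hy0, hy1, this.2, hy0 β, hy1 β]
    · push_cast
      linarith only [hc3, this, h2, hy1, this.1, hy1 β]

/-- Pigeonhole: an arithmetic progression of length `L + 1` close to `L` points. -/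
theorem torsion_near {α ε : ℝ} {L : ℕ} {K : Finset ℝ} (hK : K.card ≤ L) {t g : ℤ}
    (h : ∀ j ∈ Finset.range (L + 1), ∃ k ∈ K, Near ((((j : ℤ) * t + g : ℤ) : ℝ) * α - k) ε) :
    Near (t * (L.factorial * α)) (2 * L.factorial * ε) := by
  classical
  choose! f hf1 hf2 using h
  have key : ∀ j ∈ Finset.range (L + 1), ∀ j' ∈ Finset.range (L + 1), j' < j → f j = f j' →
      Near (t * (L.factorial * α)) (2 * L.factorial * ε) := by
    intro j hj j' hj' hlt he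
    obtain ⟨n, hn⟩ := hf2 j hj
    obtain ⟨n', hn'⟩ := hf2 j' hj'
    rw [he] at hn
    have hjL := Finset.mem_range.1 hj
    obtain ⟨b, hb⟩ : (j - j') ∣ L.factorial := Nat.dvd_factorial (by omega) (by omega)
    have hb0 : 0 < b := Nat.pos_of_ne_zero (by
      rintro rfl
      exact (Nat.factorial_pos L).ne' (by simpa using hb))
    have hbM : b ≤ L.factorial := Nat.le_of_dvd (Nat.factorial_pos L) ⟨j - j', by rw [hb, mul_comm]⟩
    have hbR : ((L.factorial : ℕ) : ℝ) = ((j : ℝ) - j') * b := by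
      rw [hb]
      push_cast [Nat.cast_sub hlt.le]
      ring
    have hb0' : (0 : ℝ) < b := by exact_mod_cast hb0
    have hbM' : (b : ℝ) ≤ L.factorial := by exact_mod_cast hbM
    have hε : 0 < ε := (abs_nonneg _).trans_lt hn
    have h1 : |((j : ℝ) - j') * t * α - (n - n')| < 2 * ε := by
      have e1 := abs_lt.1 hn
      have e2 := abs_lt.1 hn'
      push_cast at e1 e2
      refine abs_lt.2 ⟨?_, ?_⟩
      · linarith only [e1, e2, e1.1, e2.2]
      · linarith only [e1, e2, e1.2, e2.1]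
    refine ⟨b * (n - n'), ?_⟩
    have e : (t : ℝ) * (L.factorial * α) - ((b * (n - n') : ℤ) : ℝ) =
        b * (((j : ℝ) - j') * t * α - (n - n')) := by
      rw [hbR]
      push_cast
      ring
    rw [e, abs_mul, abs_of_pos hb0']
    calc (b : ℝ) * |((j : ℝ) - j') * t * α - (n - n')| < b * (2 * ε) :=
          mul_lt_mul_of_pos_left h1 hb0'
      _ ≤ L.factorial * (2 * ε) := mul_le_mul_of_nonneg_right hbM' (by linarith only [hε])
      _ = 2 * L.factorial * ε := by ring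
  obtain ⟨j, hj, j', hj', hne, he⟩ := Finset.exists_ne_map_eq_of_card_lt_of_maps_to
    (s := Finset.range (L + 1)) (t := K) (by rw [Finset.card_range]; omega) (f := f) hf1
  rcases lt_or_gt_of_ne hne with h | h
  · exact key j' hj' j hj h he.symm
  · exact key j hj j' hj' h he

/-- (c) A definable set which contains an arc and is close to at most `L` points. -/
theorem torsion (hD : Good1 D) {α : ℝ} (hα : Irrational α) (L : ℕ) {S : Set ℤ} (hS : D S)
    {p q ε : ℝ} (hpq : p < q) (hε : 0 < ε) (h1 : ∀ t : ℤ, In (t * α) p q → t ∈ S)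
    {K : Finset ℝ} (hK : K.card ≤ L) (h2 : ∀ t ∈ S, ∃ k ∈ K, Near (t * α - k) ε) :
    ∃ η : ℝ, 0 < η ∧ ∃ V : Set ℤ, D V ∧
      (∀ t : ℤ, Near (t * (L.factorial * α)) η → t ∈ V) ∧
        ∀ t ∈ V, Near (t * (L.factorial * α)) (3 * L.factorial * ε) := by
  obtain ⟨g, -, n0, hg1, hg2⟩ := kron0 hα hpq (Φ := ∅) finite_empty
  obtain ⟨M, hM⟩ : ∃ M : ℕ, M = L.factorial := ⟨_, rfl⟩
  have hM0 : 0 < M := hM ▸ Nat.factorial_pos L
  have hM1 : (1 : ℝ) ≤ M := by exact_mod_cast hM0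
  have hL : (0 : ℝ) < L + 1 := by positivity
  obtain ⟨κ, hκ0, hκ1, hκ2⟩ : ∃ κ : ℝ, 0 < κ ∧ κ ≤ g * α - n0 - p ∧ κ ≤ q - (g * α - n0) :=
    ⟨min (g * α - n0 - p) (q - (g * α - n0)), lt_min (by linarith only [hg1]) (by linarith only [hg2]),
      min_le_left _ _, min_le_right _ _⟩
  obtain ⟨η, hη0, hη⟩ : ∃ η : ℝ, 0 < η ∧ (L + 1) * (2 * η) = κ :=
    ⟨κ / (2 * (L + 1)), by positivity, by field_simp⟩
  obtain ⟨d, hd0, hd1, hd2⟩ : ∃ d : ℝ, 0 < d ∧ M * d ≤ ε ∧ M * d ≤ η := by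
    refine ⟨min ε η / M, div_pos (lt_min hε hη0) (by linarith only [hM1]), ?_, ?_⟩
    · rw [mul_div_cancel₀ _ (by linarith only [hM1])]
      exact min_le_left _ _
    · rw [mul_div_cancel₀ _ (by linarith only [hM1])]
      exact min_le_right _ _
  obtain ⟨w, hw⟩ : ∃ w : ℝ, M * w = 1 := ⟨1 / M, by field_simp⟩
  obtain ⟨u, -, m, hu1, hu2⟩ := kron0 hα (a := w - d) (b := w + d) (by linarith only [hd0]) (Φ := ∅)
    finite_empty
  obtain ⟨e, he, he'⟩ : ∃ e : ℝ, u * α = m + w + e ∧ |e| < d :=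
    ⟨u * α - m - w, by ring, abs_lt.2 ⟨by linarith only [hu1], by linarith only [hu2]⟩⟩
  have hje : ∀ j : ℕ, j < M → |(j : ℝ) * e| ≤ M * d := fun j hj => by
    have hj' : (j : ℝ) ≤ M := by exact_mod_cast hj.le
    rw [abs_mul, abs_of_nonneg (Nat.cast_nonneg j)]
    exact mul_le_mul hj' he'.le (abs_nonneg _) (by linarith only [hM1])
  let T : Set ℤ := {t | ∀ j ∈ (Finset.range (L + 1) : Set ℕ), (j : ℤ) * t + g ∈ S}
  have hT : D T := hD.all (Finset.finite_toSet _) fun j _ => hD.aff j g hS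
  rw [← hM]
  refine ⟨η, hη0, {t | ∃ j ∈ (Finset.range M : Set ℕ), 1 * t + -((j : ℤ) * u) ∈ T},
    hD.ex (Finset.finite_toSet _) fun j _ => hD.aff 1 _ hT, ?_, ?_⟩
  · rintro t ⟨n, hn⟩
    have hMz : (0 : ℤ) < M := by exact_mod_cast hM0
    obtain ⟨j, hj⟩ : ∃ j : ℕ, (j : ℤ) = n % M :=
      ⟨(n % M).toNat, Int.toNat_of_nonneg (Int.emod_nonneg _ hMz.ne')⟩
    have hjM : j < M := by
      have := Int.emod_lt_of_pos n hMz
      omega
    have hnj : (n : ℝ) = M * ((n / M : ℤ) : ℝ) + j := by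
      have : n = M * (n / M) + j := by rw [hj, Int.mul_ediv_add_emod]
      exact_mod_cast this
    refine ⟨j, by simpa using hjM, fun i hi => h1 _ ?_⟩
    have hi' : (i : ℝ) ≤ L + 1 := by
      have : i < L + 1 := by simpa using hi
      exact_mod_cast this.le
    obtain ⟨z, hz⟩ : ∃ z : ℝ, z = t * α - ((n / M : ℤ) : ℝ) - j * w := ⟨_, rfl⟩
    have hz1 : M * z = t * (M * α) - n := by
      rw [hz, hnj]
      have : (M : ℝ) * (j * w) = j := by rw [mul_left_comm, hw, mul_one]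
      linarith only [this]
    have hz2 : |z| < η := by
      rw [← hz1, abs_mul, abs_of_pos (by linarith only [hM1] : (0 : ℝ) < M)] at hn
      (refine lt_of_not_ge fun h_nl => ?_; linarith only [h_nl, hn, hM1, hη0, abs_nonneg z, mul_nonneg_of_nonpos_of_nonpos (Mathlib.Tactic.Linarith.sub_nonpos_of_le (Mathlib.Tactic.Linarith.natCast_nonneg ℝ M)) (Mathlib.Tactic.Linarith.sub_nonpos_of_le h_nl), mul_nonneg_of_nonpos_of_nonpos (Mathlib.Tactic.Linarith.sub_nonpos_of_le hM1) (le_of_lt (Mathlib.Tactic.Linarith.sub_neg_of_lt hη0))])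
    have hz3 : |z - j * e| < 2 * η := by
      have := abs_sub z (j * e)
      linarith only [hd2, hz2, this, hje, hjM, hje j hjM]
    have hz4 : |(i : ℝ) * (z - j * e)| < κ := by
      rw [abs_mul, abs_of_nonneg (Nat.cast_nonneg i), ← hη]
      calc (i : ℝ) * |z - j * e| ≤ (L + 1) * |z - j * e| :=
            mul_le_mul_of_nonneg_right hi' (abs_nonneg _)
        _ < (L + 1) * (2 * η) := mul_lt_mul_of_pos_left hz3 hL
    have hz5 := abs_lt.1 hz4
    have e1 : ((((i : ℤ) * (1 * t + -((j : ℤ) * u)) + g : ℤ) : ℝ)) * α -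
        ((i * (n / M - j * m) + n0 : ℤ) : ℝ) = g * α - n0 + i * (z - j * e) := by
      have : (((i : ℤ) * (1 * t + -((j : ℤ) * u)) + g : ℤ) : ℝ) * α =
          i * (t * α - j * (u * α)) + g * α := by
        push_cast
        ring
      rw [this, he, hz, Int.cast_add, Int.cast_mul, Int.cast_sub, Int.cast_mul]
      simp only [Int.cast_natCast]
      ring
    refine ⟨i * (n / M - j * m) + n0, ?_, ?_⟩
    · rw [e1]
      linarith only [hκ1, hz5, hz5.1]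
    · rw [e1]
      linarith only [hκ2, hz5, hz5.2]
  · rintro t ⟨j, hj, ht⟩
    have hjM : j < M := by simpa using hj
    obtain ⟨n, hn⟩ := torsion_near (α := α) (ε := ε) hK (t := 1 * t + -((j : ℤ) * u)) (g := g)
      fun i hi => h2 _ (ht i (Finset.mem_coe.2 hi))
    rw [← hM] at hn
    refine ⟨n + j * (M * m + 1), ?_⟩
    have e1 : (t : ℝ) * (M * α) - ((n + j * (M * m + 1) : ℤ) : ℝ) =
        (((1 * t + -((j : ℤ) * u) : ℤ) : ℝ) * (M * α) - n) + M * (j * e) := by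
      have h3 : ((1 * t + -((j : ℤ) * u) : ℤ) : ℝ) * (M * α) =
          t * (M * α) - j * M * (u * α) := by
        push_cast
        ring
      have h4 : (j : ℝ) * M * w = j := by rw [mul_assoc, hw, mul_one]
      rw [h3, he]
      push_cast
      linarith only [h4]
    have h5 : |(M : ℝ) * (j * e)| ≤ M * ε := by
      rw [abs_mul, abs_of_pos (by linarith only [hM1] : (0 : ℝ) < M)]
      exact mul_le_mul_of_nonneg_left ((hje j hjM).trans hd1) (by linarith only [hM1])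
    rw [e1]
    have := abs_add_le (((1 * t + -((j : ℤ) * u) : ℤ) : ℝ) * (M * α) - n) (M * (j * e))
    linarith only [hn, h5, this]

end Pool.Agent.Work.MP_340ce7_lc
end

-- merged part: Pool.Agent.Work.MP_340ce7_lc.SixA
section
/-! Step F6 (a): dependence on one coordinate gives neighbourhoods of zero. -/

namespace Pool.Agent.Work.MP_340ce7_lc

open Set

variable {D : Set ℤ → Prop} {A : Set ℝ}

theorem SixA_wall {K : Finset ℝ} {x y : ℝ} (h : ¬ Same K x y) (n : ℤ) :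
    ∃ k ∈ K, ∃ j : ℤ, |k + j - x| ≤ |y - x - n| := by
  by_contra hc
  refine h ⟨-n, fun k hk j hj => hc ⟨k, hk, j, ?_⟩⟩
  have h1 := abs_sub_left_of_mem_uIcc hj
  have h2 : y + ((-n : ℤ) : ℝ) - x = y - x - n := by push_cast; ring
  rwa [h2] at h1

theorem SixA_gap {τ ω : ℝ} {m d : ℕ} {N : ℤ} (hτ : 0 < τ) (hm : 10 * ((m : ℝ) + 1) * τ ≤ 1)
    (hω : |ω - 5 * τ / 2| < τ / 2) (hd : 1 ≤ d) (hdm : d ≤ m) (h : |d * ω - N| < 2 * τ) :
    False := by
  have h1 := abs_lt.1 hω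
  have h2 := abs_lt.1 h
  have h3 : (1 : ℝ) ≤ d := by exact_mod_cast hd
  have h4 : (d : ℝ) ≤ m := by exact_mod_cast hdm
  have h5 : ω ≤ d * ω := by linarith only [hτ, h3, h1, h1.1, mul_nonneg_of_nonpos_of_nonpos (le_of_lt (Mathlib.Tactic.Linarith.sub_neg_of_lt hτ)) (Mathlib.Tactic.Linarith.sub_nonpos_of_le h3), mul_nonneg_of_nonpos_of_nonpos (le_of_lt (Mathlib.Tactic.Linarith.sub_neg_of_lt h1.left)) (Mathlib.Tactic.Linarith.sub_nonpos_of_le h3)]
  have h6 : d * ω ≤ m * (3 * τ) := by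
    apply mul_le_mul h4 (by linarith only [h1, h1.2]) (by linarith only [hτ, h1, h1.1]) (by linarith only [h3, h4])
  have h7 : (0 : ℝ) < N := by linarith only [h1, h2, h5, h1.1, h2.2]
  have h8 : (N : ℝ) < 1 := by linarith only [hτ, hm, h1, h2, h5, h6, h2.1]
  have h9 : 0 < N := by exact_mod_cast h7
  have h10 : N < 1 := by exact_mod_cast h8
  omega

theorem SixA_mul {i m : ℕ} (hi : i ≤ m) {x d : ℝ} (h : |x| < d) : |i * x| ≤ m * d := by
  rw [abs_mul, Nat.abs_cast]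
  exact mul_le_mul (by exact_mod_cast hi) h.le (abs_nonneg _) (Nat.cast_nonneg _)

/-- (a) A definable set close to the `α`-walls which contains a box of fixed radius. -/
theorem near_walls (hA : Ind A) (hD : Good1 D) {A0 K : Finset ℝ} (h0 : (↑A0 : Set ℝ) ⊆ A)
    {α : ℝ} (hα : α ∈ A0) {Φ Y : Set ℤ} (hΦ : Φ.Finite) (hY : D Y) (hT : Tame A0 K Φ Y)
    (hdep : Dep A0 Φ Y α) :
    ∃ (ρ : ℝ) (θ : ℝ → ℝ), 0 < ρ ∧ ∀ ε : ℝ, 0 < ε → ∃ (Z Φ' : Set ℤ) (p q : ℝ),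
      D Z ∧ Φ'.Finite ∧ p < q ∧ Box A0 α Φ' p q ρ θ Z ∧
        ∀ t ∈ Z, ∃ k ∈ K, Near (t * α - k) ε := by
  classical
  obtain ⟨c, ε₀, ρ, θ, hε₀, hρ, hdep⟩ := hdep
  refine ⟨ρ / 2, θ, by linarith only [hρ], fun ε hε => ?_⟩
  obtain ⟨m, hm⟩ : ∃ m : ℕ, m = (A0 ×ˢ K).card := ⟨_, rfl⟩
  have hm0 : (0 : ℝ) ≤ m := Nat.cast_nonneg _
  obtain ⟨τ, hτ, hτ1, hτ2⟩ : ∃ τ : ℝ, 0 < τ ∧ 10 * ((m : ℝ) + 1) * τ ≤ 1 ∧
      10 * ((m : ℝ) + 1) * τ ≤ ρ := by
    have h1 : (0 : ℝ) < 10 * ((m : ℝ) + 1) := by positivity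
    have h2 : 10 * ((m : ℝ) + 1) * (min ρ 1 / (10 * ((m : ℝ) + 1))) = min ρ 1 := by field_simp
    exact ⟨min ρ 1 / (10 * ((m : ℝ) + 1)), div_pos (lt_min hρ one_pos) h1,
      h2.le.trans (min_le_right _ _), h2.le.trans (min_le_left _ _)⟩
  obtain ⟨e, he, he1, he2⟩ : ∃ e : ℝ, 0 < e ∧ e ≤ ε / 2 ∧ e ≤ ε₀ :=
    ⟨min (ε / 2) ε₀, lt_min (by linarith only [hε]) hε₀, min_le_left _ _, min_le_right _ _⟩
  obtain ⟨δ, hδ, hδ1⟩ : ∃ δ : ℝ, 0 < δ ∧ m * δ ≤ e / 8 := by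
    have h1 : (0 : ℝ) < 8 * ((m : ℝ) + 1) := by positivity
    have h2 : 8 * ((m : ℝ) + 1) * (e / (8 * ((m : ℝ) + 1))) = e := by field_simp
    have h3 := div_pos he h1
    exact ⟨e / (8 * ((m : ℝ) + 1)), h3, by linarith only [h2, h3]⟩
  obtain ⟨w, -, hw⟩ := kron1 hA A0 h0 (fun β => if β = α then 0 else 5 * τ / 2)
    (δ := min δ (τ / 2)) (lt_min hδ (by linarith only [hτ])) finite_empty
  obtain ⟨s, -, hs⟩ := kron1 hA A0 h0 (fun β => if β = α then 3 * e / 4 else 0)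
    (δ := min (e / 4) τ) (lt_min (by linarith only [he]) hτ) finite_empty
  choose! nw hnw using hw
  choose! ns hns using hs
  have wα : |w * α - nw α| < δ := by
    have := (hnw α hα).trans_le (min_le_left _ _)
    simpa using this
  have wβ : ∀ β ∈ A0, β ≠ α → |(w * β - nw β) - 5 * τ / 2| < τ / 2 := fun β hβ hne => by
    have := (hnw β hβ).trans_le (min_le_right _ _)
    rw [if_neg hne] at this
    rwa [sub_right_comm]
  have sα : |(s * α - ns α) - 3 * e / 4| < e / 4 := by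
    have := (hns α hα).trans_le (min_le_left _ _)
    rw [if_pos rfl] at this
    rwa [sub_right_comm]
  have sβ : ∀ β ∈ A0, β ≠ α → |s * β - ns β| < τ := fun β hβ hne => by
    have := (hns β hβ).trans_le (min_le_right _ _)
    rw [if_neg hne] at this
    simpa using this
  have sα' := abs_lt.1 sα
  refine ⟨{t | ∀ i ∈ Iic m, 1 * t + (i : ℕ) * w ∈ Y \ Φ ∧ 1 * t + ((i : ℕ) * w + s) ∈ Yᶜ \ Φ},
    ⋃ i ∈ Iic m, ({t | t + (i : ℕ) * w ∈ Φ} ∪ {t | t + ((i : ℕ) * w + s) ∈ Φ}),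
    c - e / 4, c - e / 8, ?_, ?_, by linarith only [he], ?_, ?_⟩
  · exact hD.all (finite_Iic m) fun i _ =>
      hD.inter (hD.aff 1 _ (hD.diff hY (hD.finite hΦ)))
        (hD.aff 1 _ (hD.diff (hD.compl hY) (hD.finite hΦ)))
  · exact (finite_Iic m).biUnion fun i _ =>
      (hΦ.preimage (add_left_injective _).injOn).union
        (hΦ.preimage (add_left_injective _).injOn)
  · rintro t ht ⟨n, hn1, hn2⟩ hβ i hi
    have hi' : i ≤ m := hi
    have h1 : t + (i : ℤ) * w ∉ Φ := fun h => ht (mem_biUnion hi (Or.inl h))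
    have h2 : t + ((i : ℤ) * w + s) ∉ Φ := fun h => ht (mem_biUnion hi (Or.inr h))
    have h3 := abs_le.1 ((SixA_mul hi' wα).trans hδ1)
    have h4 : ∀ β ∈ A0, β ≠ α → |i * (w * β - nw β)| ≤ m * (3 * τ) := fun β h h' => by
      have := abs_lt.1 (wβ β h h')
      exact SixA_mul hi' (abs_lt.2 ⟨by linarith only [hτ, this, this.1], by linarith only [this, this.2]⟩)
    rw [one_mul]
    refine ⟨⟨(hdep _ h1 fun β h h' => ?_).1 ⟨n + i * nw α, ?_, ?_⟩, h1⟩,
      ⟨(hdep _ h2 fun β h h' => ?_).2 ⟨n + i * nw α + ns α, ?_, ?_⟩, h2⟩⟩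
    · obtain ⟨j, hj⟩ := hβ β h h'
      have h5 := abs_le.1 (h4 β h h')
      have h6 := abs_lt.1 hj
      refine ⟨j + i * nw β, abs_lt.2 ⟨?_, ?_⟩⟩ <;> push_cast <;> linarith only [hτ, hτ2, h5, h6, h5.1, h5.2, h6.1, h6.2]
    · push_cast; linarith only [he2, hn1, hn2, h3, h3.1]
    · push_cast; linarith only [hn2, h3, h3.2]
    · obtain ⟨j, hj⟩ := hβ β h h'
      have h5 := abs_le.1 (h4 β h h')
      have h6 := abs_lt.1 hj
      have h7 := abs_lt.1 (sβ β h h')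
      refine ⟨j + i * nw β + ns β, abs_lt.2 ⟨?_, ?_⟩⟩ <;> push_cast <;>
        linarith only [hτ, hτ2, h5, h6, h7, h5.1, h5.2, h6.1, h6.2, h7.1, h7.2]
    · push_cast; linarith only [sα', hn1, hn2, h3, h3.1, sα'.1]
    · push_cast; linarith only [he2, sα', hn2, h3, h3.2, sα'.2]
  · intro t ht
    by_contra hc
    have key : ∀ i : ℕ, i ≤ m → ∃ b : ℝ × ℝ, b ∈ A0 ×ˢ K ∧ b.1 ≠ α ∧ ∃ j : ℤ,
        |b.2 + j - (t + i * w) * b.1| < τ := by
      intro i hi
      obtain ⟨⟨h1, h2⟩, h3, h4⟩ := ht i hi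
      have h5 : ¬ ∀ β ∈ A0, Same K (((1 * t + (i : ℤ) * w : ℤ) : ℝ) * β)
          (((1 * t + ((i : ℤ) * w + s) : ℤ) : ℝ) * β) := fun h => h3 (hT _ _ h2 h4 h h1)
      push Not at h5
      obtain ⟨β, hβ, h5⟩ := h5
      obtain ⟨k, hk, j, hj⟩ := SixA_wall h5 (ns β)
      have e1 : (((1 * t + (i : ℤ) * w : ℤ) : ℝ) * β) = (t + i * w) * β := by push_cast; ring
      have e2 : ((1 * t + ((i : ℤ) * w + s) : ℤ) : ℝ) * β - (t + i * w) * β - ns β =
          s * β - ns β := by push_cast; ring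
      rw [e1, e2] at hj
      by_cases hne : β = α
      · exfalso
        subst hne
        have h6 := abs_le.1 ((SixA_mul hi wα).trans hδ1)
        have h7 := abs_le.1 (hj.trans (abs_le.2 (⟨by linarith only [he, sα', sα'.1], by linarith only [sα', sα'.2]⟩ :
          -e ≤ s * β - ns β ∧ s * β - ns β ≤ e)))
        refine hc ⟨k, hk, j - i * nw β, abs_lt.2 ⟨?_, ?_⟩⟩ <;> push_cast <;>
          linarith only [he, he1, h6, h7, h6.1, h6.2, h7.1, h7.2]
      · exact ⟨(β, k), Finset.mem_product.2 ⟨hβ, hk⟩, hne, j, hj.trans_lt (sβ β hβ hne)⟩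
    choose! b hb1 hb2 J hJ using key
    have main : ∀ i i' : ℕ, i ≤ m → i' < i → b i = b i' → False := by
      intro i i' hi hlt hb
      obtain ⟨d, rfl⟩ : ∃ d, i = i' + d := ⟨i - i', by omega⟩
      have h1 := abs_lt.1 (hJ _ hi)
      have h2 := abs_lt.1 (hJ i' (by omega))
      rw [hb] at h1
      refine SixA_gap hτ hτ1 (wβ _ (Finset.mem_product.1 (hb1 i' (by omega))).1
        (hb2 i' (by omega))) (d := d) (N := J (i' + d) - J i' - d * nw (b i').1) (by omega)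
        (by omega) (abs_lt.2 ⟨?_, ?_⟩) <;> push_cast at h1 ⊢ <;> linarith only [h2, h1, h1.1, h1.2, h2.1, h2.2]
    obtain ⟨i, hi, i', hi', hne, hb⟩ := Finset.exists_ne_map_eq_of_card_lt_of_maps_to
      (s := Finset.range (m + 1)) (t := A0 ×ˢ K) (f := b) (by rw [Finset.card_range]; omega)
      fun i hi => hb1 i (Nat.lt_succ_iff.1 (Finset.mem_range.1 hi))
    have h1 := Finset.mem_range.1 hi
    have h2 := Finset.mem_range.1 hi'
    rcases lt_or_gt_of_ne hne with h | h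
    · exact main i' i (by omega) h hb.symm
    · exact main i i' (by omega) h hb

theorem nb_of_dep (hA : Ind A) (hD : Good1 D) {A0 K : Finset ℝ} (h0 : (↑A0 : Set ℝ) ⊆ A)
    {α : ℝ} (hα : α ∈ A0) {Φ Y : Set ℤ} (hΦ : Φ.Finite) (hY : D Y) (hT : Tame A0 K Φ Y)
    (hdep : Dep A0 Φ Y α) : ∃ M : ℕ, 0 < M ∧ Nb D (M * α) := by
  classical
  obtain ⟨ρ, θ, hρ, H⟩ := near_walls hA hD h0 hα hΦ hY hT hdep
  obtain ⟨r, hr0, hr⟩ : ∃ r : ℕ, 0 < r ∧ 1 < ((r : ℝ) + 1) * ρ := by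
    obtain ⟨r, hr⟩ := exists_nat_gt (1 / ρ)
    rw [div_lt_iff₀ hρ] at hr
    exact ⟨r + 1, Nat.succ_pos _, by push_cast; linarith only [hρ, hr]⟩
  refine ⟨(K.card * K.card).factorial, Nat.factorial_pos _, fun κ hκ => ?_⟩
  have hL : (0 : ℝ) < ((K.card * K.card).factorial : ℕ) := by exact_mod_cast Nat.factorial_pos _
  have hr1 : (0 : ℝ) < (r : ℝ) + 1 := by positivity
  obtain ⟨ε, hε, hεκ⟩ : ∃ ε : ℝ, 0 < ε ∧
      3 * (((K.card * K.card).factorial : ℕ) : ℝ) * (((r : ℝ) + 1) * ε) = κ :=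
    ⟨κ / (3 * (((K.card * K.card).factorial : ℕ) : ℝ) * ((r : ℝ) + 1)), by positivity,
      by field_simp⟩
  obtain ⟨Z, Φ', p, q, hZ, hΦ', hpq, hB, hK⟩ := H ε hε
  have h := torsion hD (hA.irrational (h0 hα)) (K.card * K.card)
    (hD.conv 1 (-(r : ℤ)) 0 hZ hZ) (p := ((r : ℝ) + 1) * p) (q := ((r : ℝ) + 1) * q)
    (ε := ((r : ℝ) + 1) * ε) (mul_lt_mul_of_pos_left hpq hr1) (mul_pos hr1 hε) (fun t ht => by
      obtain ⟨u, hu, h1⟩ := fill hA h0 hα hΦ' hB hr0 hr t ht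
      refine ⟨u, hu, ?_⟩
      rwa [show 1 * t + -(r : ℤ) * u + 0 = t - r * u by ring])
    (K := Finset.image₂ (fun k k' : ℝ => r * k + k') K K) (Finset.card_image₂_le _ _ _) (by
      rintro t ⟨u, hu, h1⟩
      obtain ⟨k, hk, n, hn⟩ := hK u hu
      obtain ⟨k', hk', n', hn'⟩ := hK _ h1
      have h2 := abs_le.1 (SixA_mul (le_refl r) hn)
      have h3 := abs_lt.1 hn'
      refine ⟨_, Finset.mem_image₂_of_mem hk hk', r * n + n', abs_lt.2 ⟨?_, ?_⟩⟩ <;>
        push_cast at h3 ⊢ <;> linarith only [h2, h3, h2.1, h2.2, h3.1, h3.2])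
  rwa [hεκ] at h

end Pool.Agent.Work.MP_340ce7_lc
end

-- merged part: Pool.Agent.Work.MP_340ce7_lc.SixB
section
/-! Step F6 (d), (e): neighbourhoods of zero in a tame class give an edge. -/

namespace Pool.Agent.Work.MP_340ce7_lc

open Set

variable {D : Set ℤ → Prop} {A : Set ℝ}

/-- (d) The supremum of a tame set is reached by a box. -/
theorem sup_edge (hA : Ind A) {A0 K : Finset ℝ} (h0 : (↑A0 : Set ℝ) ⊆ A) {α : ℝ} (hα : α ∈ A0)
    {Φ V : Set ℤ} (hΦ : Φ.Finite) (hT : Tame A0 K Φ V) {M : ℕ} (hM : 0 < M) {η : ℝ}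
    (hη : 0 < η) (h1 : ∀ t : ℤ, Near (t * (M * α)) η → t ∈ V)
    (h2 : ∀ t ∈ V, Near (t * (M * α)) (1 / 8)) :
    ∃ (c c' ξ ρ : ℝ) (n : ℤ) (θ : ℝ → ℝ) (Φ' : Set ℤ), Φ'.Finite ∧ 0 < ξ ∧ 0 < ρ ∧
      |c| ≤ 1 / 8 ∧ M * c' = c + n ∧ Box A0 α Φ' (c' - ξ) c' ρ θ V ∧
        ∀ t ∈ V, t ∉ Φ' → ∃ j : ℤ, -(1 / 8) < t * (M * α) - j ∧ t * (M * α) - j ≤ c := by
  classical
  have hγ : Irrational (M * α) := (hA.irrational (h0 hα)).natCast_mul hM.ne'
  have M0 : (0 : ℝ) < M := Nat.cast_pos.2 hM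
  obtain ⟨Φ', hf, hΦ'⟩ : ∃ Φ' : Set ℤ, Φ'.Finite ∧ ∀ t ∉ Φ', t ∉ Φ ∧
      ∀ β ∈ A0, ∀ k ∈ K, ∀ j : ℤ, (t : ℝ) * β ≠ k + j :=
    ⟨Φ ∪ ⋃ β ∈ (A0 : Set ℝ), {t : ℤ | ∃ k ∈ K, ∃ j : ℤ, (t : ℝ) * β = k + j},
      hΦ.union (A0.finite_toSet.biUnion fun β hβ => finite_on_wall K (hA.irrational (h0 hβ))),
      fun t ht => ⟨fun h => ht (Or.inl h), fun β hβ k hk j h =>
        ht (Or.inr (mem_biUnion hβ ⟨k, hk, j, h⟩))⟩⟩
  obtain ⟨S, hS⟩ : ∃ S : Set ℝ, ∀ y, y ∈ S ↔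
      ∃ t ∈ V, t ∉ Φ' ∧ ∃ j : ℤ, y = t * (M * α) - j ∧ |y| < 1 / 8 := ⟨Set.ofPred _, fun _ => Iff.rfl⟩
  have hb : ∀ y ∈ S, y ≤ 1 / 8 := fun y hy => by
    obtain ⟨-, -, -, -, -, h⟩ := (hS y).1 hy
    exact (abs_lt.1 h).2.le
  have hne : S.Nonempty := by
    have m0 : 0 < min η (1 / 8) := lt_min hη (by norm_num)
    obtain ⟨t, ht, j, a, b⟩ := kron0 hγ (neg_lt_self m0) hf
    have h := abs_lt.2 ⟨a, b⟩
    exact ⟨_, (hS _).2 ⟨t, h1 t ⟨j, h.trans_le (min_le_left _ _)⟩, ht, j, rfl,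
      h.trans_le (min_le_right _ _)⟩⟩
  obtain ⟨c, hc⟩ : ∃ c, c = sSup S := ⟨_, rfl⟩
  have hu : ∀ y ∈ S, y ≤ c := fun y hy => hc ▸ le_csSup ⟨_, hb⟩ hy
  obtain ⟨ξ, ξ0, hξ⟩ := wall_isolated (K.image (M * ·)) c
  obtain ⟨y, hy, hy1⟩ := exists_lt_of_lt_csSup hne (hc ▸ sub_lt_self c ξ0 : c - ξ < sSup S)
  have hy2 := hu y hy
  obtain ⟨t0, tV, tΦ, n, hn, hy3⟩ := (hS y).1 hy
  obtain ⟨ρ, ρ0, hρ⟩ := wall_isolated ((K ×ˢ A0).image fun p => p.1 - t0 * p.2) 0
  have e1 : (M : ℝ) * ((c + n) / M) = c + n := mul_div_cancel₀ _ M0.ne'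
  have e2 : (M : ℝ) * (ξ / M) = ξ := mul_div_cancel₀ _ M0.ne'
  refine ⟨c, (c + n) / M, ξ / M, ρ, n, fun β => t0 * β, Φ', hf, div_pos ξ0 M0, ρ0,
    abs_le.2 ⟨by linarith only [hy2, hy3, (abs_lt.1 hy3).1], hc ▸ csSup_le hne hb⟩, e1,
    fun t ht ⟨m, m1, m2⟩ hβ => hT t0 t (hΦ' t0 tΦ).1 (hΦ' t ht).1 (fun β hβ0 => ?_) tV,
    fun t ht ht' => ?_⟩
  · by_cases e : β = α
    · subst e
      refine ⟨-m, fun k hk j hj => (hΦ' t0 tΦ).2 β hα k hk j ?_⟩
      have a1 := mul_lt_mul_of_pos_left m1 M0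
      have a2 := mul_lt_mul_of_pos_left m2 M0
      have a3 := hξ _ (Finset.mem_image_of_mem _ hk) (M * j - n)
      rw [Int.cast_neg, mem_uIcc] at hj
      push_cast at a3
      rcases hj with ⟨b1, b2⟩ | ⟨b1, b2⟩ <;> have b3 := mul_le_mul_of_nonneg_left b1 M0.le <;>
        have b4 := mul_le_mul_of_nonneg_left b2 M0.le <;>
        have b5 := a3 (abs_lt.2 ⟨by linarith only [hy1, hn, b3, e1, e2, a1], by linarith only [e1, e2, a1, a2, b4, hy2, hn]⟩)
      · linarith only [e1, a2, b4, b5]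
      · exact mul_left_cancel₀ M0.ne' (by linarith only [b4, hy2, hn, b5])
    · obtain ⟨l, hl⟩ := hβ β hβ0 e
      refine ⟨-l, fun k hk j hj => (hΦ' t0 tΦ).2 β hβ0 k hk j ?_⟩
      have a1 := abs_sub_left_of_mem_uIcc hj
      have a2 := hρ _ (Finset.mem_image_of_mem _ (Finset.mk_mem_product hk hβ0)) j (by
        rw [show k - t0 * β + j - 0 = k + j - t0 * β by ring]
        refine a1.trans_lt ?_
        rwa [show t * β + (-l : ℤ) - t0 * β = t * β - t0 * β - l by push_cast; ring])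
      simp only at a2
      linarith only [a2]
  · obtain ⟨j, hj⟩ := h2 t ht
    exact ⟨j, (abs_lt.1 hj).1, hu _ ((hS _).2 ⟨t, ht, ht', j, rfl, hj⟩)⟩

/-- (e) -/
theorem edge_of_tame (hA : Ind A) (hD : Good1 D) {A0 K : Finset ℝ} (h0 : (↑A0 : Set ℝ) ⊆ A)
    {α : ℝ} (hα : α ∈ A0) {Φ V : Set ℤ} (hV : D V) (hΦ : Φ.Finite) (hT : Tame A0 K Φ V)
    {M : ℕ} (hM : 0 < M) (hN : Nb D (M * α)) {η : ℝ} (hη : 0 < η)
    (h1 : ∀ t : ℤ, Near (t * (M * α)) η → t ∈ V)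
    (h2 : ∀ t ∈ V, Near (t * (M * α)) (1 / 8)) : Edge D (M * α) := by
  obtain ⟨c, c', ξ, ρ, n, θ, Φ', hf, ξ0, ρ0, hc, e1, hB, hu⟩ := sup_edge hA h0 hα hΦ hT hM hη h1 h2
  have hγ : Irrational (M * α) := (hA.irrational (h0 hα)).natCast_mul hM.ne'
  have M0 : (0 : ℝ) < M := Nat.cast_pos.2 hM
  obtain ⟨r, hr⟩ := exists_nat_gt (1 / ρ)
  have r0 : 0 < r := Nat.cast_pos.1 ((one_div_pos.2 ρ0).trans hr)
  have r1 : (1 : ℝ) ≤ r := by exact_mod_cast r0
  have r2 : 1 < (r + 1) * ρ := by linarith only [ρ0, hr, (div_lt_iff₀ ρ0).1 hr]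
  obtain ⟨κ, κ0, hκ⟩ : ∃ κ : ℝ, 0 < κ ∧ (r + 1) * κ = 1 / 4 :=
    ⟨1 / 4 / (r + 1), by positivity, mul_div_cancel₀ _ (by positivity)⟩
  have κ1 : κ ≤ 1 / 8 := by (refine le_of_not_gt fun h_nl => ?_; linarith only [h_nl, r1, hκ, mul_nonneg_of_nonpos_of_nonpos (Mathlib.Tactic.Linarith.sub_nonpos_of_le (Mathlib.Tactic.Linarith.natCast_nonneg ℝ r)) (le_of_lt (Mathlib.Tactic.Linarith.sub_neg_of_lt h_nl))])
  obtain ⟨η2, η0, V2, hV2, v1, v2⟩ := hN κ κ0
  have m0 : 0 < min (η2 / 2) κ := lt_min (half_pos η0) κ0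
  obtain ⟨g, -, jg, g1, g2⟩ := kron0 hγ (a := c - min (η2 / 2) κ) (b := c + min (η2 / 2) κ)
    (by linarith only [m0]) finite_empty
  have m1 := min_le_left (η2 / 2) κ
  have m2 := min_le_right (η2 / 2) κ
  obtain ⟨Z, hZ, z0⟩ : ∃ Z, D Z ∧ ∀ t, t ∈ Z ↔ (t ∈ V ∧ t ∉ Φ') ∧ 1 * t + -g ∈ V2 :=
    ⟨_, hD.inter (hD.diff hV (hD.finite hf)) (hD.aff 1 (-g) hV2), fun _ => Iff.rfl⟩
  have z1 : ∀ t ∈ Z, ∃ j : ℤ, c - 2 * κ < t * (M * α) - j ∧ t * (M * α) - j ≤ c := fun t ht => by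
    obtain ⟨⟨a, b⟩, d⟩ := (z0 t).1 ht
    obtain ⟨j, j1, j2⟩ := hu t a b
    obtain ⟨i, hi⟩ := v2 _ d
    have i1 := abs_lt.1 hi
    have i2 := abs_le.1 hc
    push_cast at i1
    have i3 : (j : ℝ) < i + jg + 1 := by linarith only [κ0, κ1, g2, m2, j1, i2, i1, i1.1]
    have i4 : (i : ℝ) + jg < j + 1 := by linarith only [κ0, κ1, g1, m2, j2, i1, i1.2]
    have i5 : j < i + jg + 1 := by exact_mod_cast i3
    have i6 : i + jg < j + 1 := by exact_mod_cast i4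
    obtain rfl : j = i + jg := by omega
    refine ⟨_, ?_, j2⟩
    push_cast
    linarith only [g1, m2, i1, i1.1]
  obtain ⟨ξ1, x0, x1, x2⟩ : ∃ ξ1 : ℝ, 0 < ξ1 ∧ ξ1 ≤ ξ ∧ M * ξ1 ≤ η2 / 2 :=
    ⟨min ξ (η2 / 2 / M), lt_min ξ0 (by positivity), min_le_left _ _,
      (le_div_iff₀' M0).1 (min_le_right _ _)⟩
  have z2 : Box A0 α Φ' (c' - ξ1) c' ρ θ Z := fun t ht ⟨m, a1, a2⟩ hβ => by
    refine (z0 t).2 ⟨⟨hB t ht ⟨m, by linarith only [x1, a1], a2⟩ hβ, ht⟩, v1 _ ⟨M * m + n - jg, ?_⟩⟩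
    have a3 := mul_lt_mul_of_pos_left a1 M0
    have a4 := mul_lt_mul_of_pos_left a2 M0
    push_cast
    exact abs_lt.2 ⟨by linarith only [e1, g2, m1, x2, a3], by linarith only [e1, g1, m1, x2, a3, a4]⟩
  obtain ⟨w, w0, w1, w2⟩ : ∃ w : ℝ, 0 < w ∧ w ≤ (r + 1) * ξ1 ∧ M * w ≤ 1 / 2 :=
    ⟨min ((r + 1) * ξ1) (1 / 2 / M), lt_min (by positivity) (by positivity), min_le_left _ _,
      (le_div_iff₀' M0).1 (min_le_right _ _)⟩
  refine ⟨_, (r + 1) * c', w, w0, hD.conv M (-r) 0 hZ hZ, fun t => ⟨fun ⟨m, a1, a2⟩ => ?_,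
    fun ⟨m, a1, a2⟩ ⟨u, u1, u2⟩ => ?_⟩⟩
  · obtain ⟨u, u1, u2⟩ := fill hA h0 hα hf z2 r0 r2 (M * t)
      ⟨m, by push_cast; linarith only [w1, a1], by push_cast; linarith only [a2]⟩
    exact ⟨u, u1, by rwa [add_zero, neg_mul, ← sub_eq_add_neg]⟩
  · obtain ⟨i, i1, i2⟩ := z1 _ u1
    obtain ⟨j, j1, j2⟩ := z1 _ u2
    have a3 := mul_lt_mul_of_pos_left a1 M0
    have a4 := mul_lt_mul_of_pos_left a2 M0
    have a5 := mul_le_mul_of_nonneg_left i1.le (Nat.cast_nonneg (α := ℝ) r)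
    have a6 := mul_le_mul_of_nonneg_left i2 (Nat.cast_nonneg (α := ℝ) r)
    have a7 := congrArg (((r : ℝ) + 1) * ·) e1
    push_cast at j1 j2
    have b1 : (M : ℝ) * m + (r + 1) * n < r * i + j := by linarith only [a3, a6, a7, j2]
    have b2 : (r : ℝ) * i + j < M * m + (r + 1) * n + 1 := by linarith only [hκ, w2, a4, a5, a7, j1]
    have b3 : (M : ℤ) * m + (r + 1) * n < r * i + j := by exact_mod_cast b1
    have b4 : (r : ℤ) * i + j < M * m + (r + 1) * n + 1 := by exact_mod_cast b2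
    omega

theorem full_of_nb (hA : Ind A) (hD : Good1 D) (hcl : TameCl A D) {α : ℝ} (hα : α ∈ A)
    {M : ℕ} (hM : 0 < M) (hN : Nb D (M * α)) : Full D α := by
  classical
  obtain ⟨η, hη, V, hV, h1, h2⟩ := hN (1 / 8) (by norm_num)
  obtain ⟨N, N0, A0, K, Φ, h0, hΦ, hT⟩ := hcl V hV
  have hM' : 0 < N * M := Nat.mul_pos N0 hM
  have hγ : Irrational ((N * M : ℕ) * α) := (hA.irrational hα).natCast_mul hM'.ne'
  have e : ∀ t : ℤ, (t : ℝ) * ((N * M : ℕ) * α) = ((N : ℤ) * t : ℤ) * (M * α) := fun t => by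
    push_cast
    ring
  have hd : ∀ {W : Set ℤ}, D W → D {k | (N : ℤ) * k ∈ W} := fun h => by
    simpa only [add_zero] using hD.aff N 0 h
  have hN' : Nb D ((N * M : ℕ) * α) := fun κ hκ => by
    obtain ⟨η, hη, W, hW, a, b⟩ := hN κ hκ
    exact ⟨η, hη, _, hd hW, fun t ht => a _ (e t ▸ ht), fun t ht => (e t).symm ▸ b _ ht⟩
  refine (full_of_nb_edge hD hγ hN' (edge_of_tame hA hD (A0 := insert α A0) (K := K) ?_
    (Finset.mem_insert_self _ _) (hd hV) hΦ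
    (fun t t' a b h => hT t t' a b fun β hβ => h β (Finset.mem_insert_of_mem hβ)) hM' hN' hη
    (fun t ht => h1 _ (e t ▸ ht)) fun t ht => (e t).symm ▸ h2 _ ht)).of_eq
    (Sp_eq hγ (mem_Sp.2 ⟨0, (N * M : ℕ), by simp⟩))
  rw [Finset.coe_insert]
  exact insert_subset hα h0

theorem full_of_dep (hA : Ind A) (hD : Good1 D) (hcl : TameCl A D) {A0 K : Finset ℝ}
    (h0 : (↑A0 : Set ℝ) ⊆ A) {α : ℝ} (hα : α ∈ A0) {Φ Y : Set ℤ} (hΦ : Φ.Finite) (hY : D Y)
    (hT : Tame A0 K Φ Y) (hdep : Dep A0 Φ Y α) : Full D α := by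
  obtain ⟨M, hM, hN⟩ := nb_of_dep hA hD h0 hα hΦ hY hT hdep
  exact full_of_nb hA hD hcl (h0 hα) hM hN

end Pool.Agent.Work.MP_340ce7_lc
end

-- merged part: Pool.Agent.Work.MP_340ce7_lc.Seven
section
/-! Step F7: induction on the arity. -/

namespace Pool.Agent.Work.MP_340ce7_lc

open Set

variable {A : Set ℝ} {P P' : ∀ ι : Type, Set (ι → ℤ) → Prop} {ι : Type}

theorem Good.eqn (hP : Good P) [Finite ι] (a : Fu ι) (c : ℚ) : P ι {x | a (cz x) = c} :=
  det_sub (B := ∅) hP (by simp) ⟨1, {(a, c)}, ∅, one_pos, finite_singleton _, finite_empty,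
    by simp, fun _ _ h hx => (h.eqn (a, c) rfl).1 hx⟩

theorem tameCl_of_det (hdet : ∀ (ι : Type) [Finite ι] (X : Set (ι → ℤ)), P ι X → Det A Sp ι X) :
    TameCl A (D1 P) := by
  intro Y hY
  obtain ⟨N, hN, A0, W, Φ, h1, h2, h3, _⟩ :=
    tame_of_det (fun α _ => one_mem_Sp α) (Y := Y) (hdet Unit _ hY)
  exact ⟨N, hN, A0, W, Φ, h1, h2, h3⟩

/-- On a hyperplane the arity drops. -/
theorem on_plane (hP : Good P) (hP' : Good P') [Finite ι]
    (ih : ∀ (κ : Type) [Finite κ], Nat.card κ < Nat.card ι → ∀ X : Set (κ → ℤ), P κ X → P' κ X)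
    {a : Fu ι} (ha : a ≠ 0) (c : ℚ) {X : Set (ι → ℤ)} (hX : P ι X) :
    P' ι (X ∩ {x | a (cz x) = c}) := by
  classical
  obtain ⟨i, hi⟩ : ∃ i, a (Pi.single i 1) ≠ 0 := by
    by_contra hn
    push Not at hn
    refine ha (LinearMap.pi_ext fun i y => ?_)
    have : (Pi.single i y : ι → ℚ) = y • (Pi.single i 1 : ι → ℚ) := by
      rw [← Pi.single_smul', smul_eq_mul, mul_one]
    rw [this, map_smul, hn i]
    simp
  let τ : ι → Option {j // j ≠ i} := fun j => if h : j = i then none else some ⟨j, h⟩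
  have hτ : ∀ (y : ℤ) (x : ι → ℤ),
      oc y (x ∘ (Subtype.val : {j // j ≠ i} → ι)) ∘ τ = Function.update x i y := by
    intro y x
    funext j
    by_cases h : j = i
    · subst h
      simp [τ]
    · simp [τ, h]
  have h1 := hP.proj (hP.comp τ (hP.inter hX (hP.eqn a c)))
  have h2 := hP'.comp (Subtype.val : {j // j ≠ i} → ι)
    (ih _ (Finite.card_subtype_lt (p := fun j => j ≠ i) (x := i) (by simp)) _ h1)
  have e : X ∩ {x | a (cz x) = c} = {x | a (cz x) = c} ∩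
      {x | ∃ y, Function.update x i y ∈ X ∩ {x | a (cz x) = c}} := by
    ext x
    constructor
    · intro hx
      exact ⟨hx.2, x i, by rwa [Function.update_eq_self]⟩
    · rintro ⟨h3, y, h4, h5⟩
      have h6 : cz (Function.update x i y) =
          cz x + ((y : ℚ) - x i) • (Pi.single i 1 : ι → ℚ) := by
        funext j
        by_cases h : j = i
        · subst h
          simp [cz]
        · simp [cz, h]
      simp only [mem_ofPred_eq] at h3 h5
      rw [h6, map_add, map_smul, h3, smul_eq_mul] at h5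
      have h7 : ((y : ℚ) - x i) * a (Pi.single i 1) = 0 := by linarith only [h5]
      have h8 : y = x i := by
        exact_mod_cast sub_eq_zero.1 ((mul_eq_zero.1 h7).resolve_right hi)
      rw [h8, Function.update_eq_self] at h4
      exact ⟨h4, h3⟩
  rw [e]
  refine hP'.inter (hP'.eqn a c) ?_
  simpa only [mem_ofPred_eq, hτ] using h2

/-- Off the critical hyperplanes only the full members of `A` matter. -/
theorem off_plane (hA : Ind A) (hP : Good P)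
    (hdet : ∀ (ι : Type) [Finite ι] (X : Set (ι → ℤ)), P ι X → Det A Sp ι X) [Finite ι]
    {X : Set (ι → ℤ)} (hX : P ι X) {N : ℕ} {E : Set (Fu ι × ℚ)} {F : Set (Frm ι)}
    (hE : E.Finite) (hF : F.Finite) (hok : ∀ f ∈ F, Ok A Sp f)
    (hd : ∀ x x', Agree N E F (cz x) (cz x') → x ∈ X → x' ∈ X) {x x' : ι → ℤ}
    (h1 : Cong N (cz x) (cz x')) (h2 : ∀ f ∈ F, ∃ n : ℤ, f.b (cz x') - f.b (cz x) = n)
    (h3 : ∀ e ∈ E, e.1 ≠ 0 → e.1 (cz x) ≠ e.2 ∧ e.1 (cz x') ≠ e.2)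
    (h4 : ∀ f ∈ F, f.b ≠ 0 → ∀ l : ℤ, f.ev (cz x) ≠ l / 2 ∧ f.ev (cz x') ≠ l / 2)
    (h5 : ∀ f ∈ F, Full (D1 P) f.α → (H (f.ev (cz x)) ↔ H (f.ev (cz x')))) (hx : x ∈ X) :
    x' ∈ X := by
  classical
  by_contra hx'
  have ev : cz (fun i => x' i - x i) = cz x' - cz x := by
    funext i
    simp [cz]
  obtain ⟨G, Φ, hΦ, hG, hΦ', hq⟩ := line hE hF hd x (fun i => x' i - x i)
    (fun i => by
      obtain ⟨n, hn⟩ := h1 i
      refine ⟨n, ?_⟩
      simp only [cz] at hn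
      exact_mod_cast hn)
    (fun f hf => by rw [ev, map_sub]; exact h2 f hf)
  have e0 : (fun i => x i + 0 * (x' i - x i)) = x := by
    funext i
    ring
  have e1 : (fun i => x i + 1 * (x' i - x i)) = x' := by
    funext i
    ring
  have h0 : ∀ q ∈ G, q.1 ∈ G.image Prod.fst := fun q hq => Finset.mem_image_of_mem _ hq
  have hq' : ∀ q ∈ G, ∃ f ∈ F, q.1 = f.α ∧ (q.2.1 ≠ 0 → f.b ≠ 0) ∧
      q.2.1 * (((0 : ℤ) : ℝ) * q.1) + q.2.2 = f.ev (cz x) ∧
      q.2.1 * (((1 : ℤ) : ℝ) * q.1) + q.2.2 = f.ev (cz x') := by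
    intro q hq0
    obtain ⟨f, hf, a1, a2, a3⟩ := hq q hq0
    refine ⟨f, hf, a1, fun h hb => h ?_, by simp [a3], ?_⟩
    · rw [hb, LinearMap.zero_apply] at a2
      exact_mod_cast a2.symm
    · rw [ev, map_sub] at a2
      have a4 : (q.2.1 : ℝ) = f.b (cz x') - f.b (cz x) := by exact_mod_cast a2.symm
      rw [a3, a4, a1]
      simp only [Frm.ev]
      push_cast
      ring
  obtain ⟨α, hα, hαB, hdep⟩ := switch hG h0 {α | Full (D1 P) α} (t0 := 0) (t1 := 1)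
    (fun h => by
      obtain ⟨e, he, a1, a2⟩ := hΦ' 0 h
      rw [e0] at a2
      exact (h3 e he a1).1 a2)
    (fun h => by
      obtain ⟨e, he, a1, a2⟩ := hΦ' 1 h
      rw [e1] at a2
      exact (h3 e he a1).2 a2)
    (by simpa only [mem_ofPred_eq, e0] using hx) (by simpa only [mem_ofPred_eq, e1] using hx')
    (fun q hq0 hm l => by
      obtain ⟨f, hf, _, a2, a3, _⟩ := hq' q hq0
      rw [a3]
      exact (h4 f hf (a2 hm) l).1)
    (fun q hq0 hm l => by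
      obtain ⟨f, hf, _, a2, _, a4⟩ := hq' q hq0
      rw [a4]
      exact (h4 f hf (a2 hm) l).2)
    (fun q hq0 hB => by
      obtain ⟨f, hf, a1, _, a3, a4⟩ := hq' q hq0
      rw [a3, a4]
      exact h5 f hf (a1 ▸ hB))
  obtain ⟨W, hW, _⟩ := tame_of_pat hG h0
  have hsub : (↑(G.image Prod.fst) : Set ℝ) ⊆ A := by
    intro β hβ
    obtain ⟨q, hq0, rfl⟩ := Finset.mem_image.1 (Finset.mem_coe.1 hβ)
    obtain ⟨f, hf, a1, _⟩ := hq' q hq0
    rw [a1]
    exact (hok f hf).1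
  refine hαB (full_of_dep hA hP.good1 (tameCl_of_det hdet) hsub hα hΦ ?_ hW hdep)
  exact hP.aff (κ := Unit) (fun t i => x i + t () * (x' i - x i))
    (fun i => by
      simpa only [mul_comm] using
        (IsAff.const (x i)).add ((IsAff.var ()).const_mul (x' i - x i))) hX

theorem seven (hA : Ind A) (hP : Good P) (hP' : Good P')
    (hdet : ∀ (ι : Type) [Finite ι] (X : Set (ι → ℤ)), P ι X → Det A Sp ι X)
    (hfull : ∀ α ∈ A, Full (D1 P) α → Full (D1 P') α)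
    (ι : Type) [Finite ι] (X : Set (ι → ℤ)) (hX : P ι X) : P' ι X := by
  induction hn : Nat.card ι using Nat.strong_induction_on generalizing ι with
  | _ n ih =>
  subst hn
  have ih' : ∀ (κ : Type) [Finite κ], Nat.card κ < Nat.card ι →
      ∀ X : Set (κ → ℤ), P κ X → P' κ X := fun κ _ h X hX => ih _ h κ X hX rfl
  obtain ⟨N, E, F, hN, hE, hF, hok, hd⟩ := hdet ι X hX
  obtain ⟨D, hD, hden⟩ := den_common (hF.image Frm.b)
  let C : Set (Fu ι × ℚ) := {e | e.1 ≠ 0 ∧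
    e ∈ E ∪ ⋃ f ∈ F, (fun s => (f.b, s)) '' {s : ℚ | ∃ l : ℤ, (s : ℝ) * f.α + f.r = l / 2}}
  have hC : C.Finite := (hE.union (hF.biUnion fun f hf =>
    (crit_subsingleton (hA.irrational (hok f hf).1)).finite.image _)).subset fun e he => he.2
  let G : Set (ι → ℤ) := ⋂ e ∈ C, {x | e.1 (cz x) = e.2}ᶜ
  have hG : ∀ x ∈ G, (∀ e ∈ E, e.1 ≠ 0 → e.1 (cz x) ≠ e.2) ∧
      ∀ f ∈ F, f.b ≠ 0 → ∀ l : ℤ, f.ev (cz x) ≠ l / 2 := by
    intro x hx
    simp only [G, mem_iInter, mem_compl_iff, mem_ofPred_eq] at hx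
    refine ⟨fun e he h => hx e ⟨h, Or.inl he⟩, fun f hf hb l hl =>
      hx (f.b, f.b (cz x)) ⟨hb, Or.inr ?_⟩ rfl⟩
    simp only [mem_iUnion]
    exact ⟨f, hf, f.b (cz x), ⟨l, hl⟩, rfl⟩
  let FB : Set (Frm ι) := {f ∈ F | Full (D1 P) f.α}
  let X1 : Set (ι → ℤ) := {x' | ∃ x ∈ X ∩ G, Agree (N * D) ∅ FB (cz x) (cz x')}
  have hX1 : P' ι X1 := by
    refine det_sub (B := {α ∈ A | Full (D1 P) α}) hP' (fun α hα => hfull α hα.1 hα.2)
      ⟨N * D, ∅, FB, Nat.mul_pos hN hD, finite_empty, hF.subset fun f hf => hf.1,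
        fun f hf => ⟨⟨(hok f hf.1).1, hf.2⟩, (hok f hf.1).2⟩, ?_⟩
    rintro x x' h ⟨y, hy, h'⟩
    exact ⟨y, hy, h'.trans h⟩
  have e : X = (G ∩ X1) ∪ ⋃ e ∈ C, X ∩ {x | e.1 (cz x) = e.2} := by
    ext x'
    constructor
    · intro hx'
      by_cases hg : x' ∈ G
      · exact Or.inl ⟨hg, x', ⟨hx', hg⟩, Agree.refl _ _ _ _⟩
      · simp only [G, mem_iInter, mem_compl_iff, not_forall, not_not] at hg
        obtain ⟨e, he, h⟩ := hg
        exact Or.inr (mem_biUnion he ⟨hx', h⟩)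
    · rintro (⟨hg', x, ⟨hx, hg⟩, h⟩ | h)
      · refine off_plane hA hP hdet hX hE hF hok hd h.cong.of_mul_left (fun f hf => ?_)
          (fun e he h0 => ⟨(hG x hg).1 e he h0, (hG x' hg').1 e he h0⟩)
          (fun f hf h0 l => ⟨(hG x hg).2 f hf h0 l, (hG x' hg').2 f hf h0 l⟩)
          (fun f hf hfu => h.frm f ⟨hf, hfu⟩) hx
        obtain ⟨n, hn⟩ := hden f.b (mem_image_of_mem _ hf) N _ _ h.cong
        exact ⟨N * n, by rw [hn]; push_cast; ring⟩
      · simp only [mem_iUnion] at h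
        obtain ⟨e, _, h⟩ := h
        exact h.1
  rw [e]
  exact hP'.union (hP'.inter (hP'.biInter hC fun e _ => hP'.compl (hP'.eqn _ _)) hX1)
    (hP'.biUnion hC fun e he => on_plane hP hP' ih' he.1 e.2 hX)

end Pool.Agent.Work.MP_340ce7_lc
end

-- merged part: Pool.Agent.Work.MP_340ce7_lc.Main
section
namespace Pool.Agent.Work.MP_340ce7_lc

open Set

/-- Representatives of the classes modulo rational affine maps. -/
theorem exists_reps {A : Set ℝ} (hA : ∀ α ∈ A, Irrational α) (h : Indep A) :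
    ∃ A' ⊆ A, Ind A' ∧ ∀ α ∈ A, ∃ β ∈ A', α ∈ Sp β := by
  have h1 : ∀ S : Submodule ℚ ℝ, ∃ β : ℝ, (∃ α ∈ A, Sp α = S) → β ∈ A ∧ Sp β = S := by
    intro S
    by_cases hS : ∃ α ∈ A, Sp α = S
    · obtain ⟨α, hα⟩ := hS
      exact ⟨α, fun _ => hα⟩
    · exact ⟨0, fun h => absurd h hS⟩
  choose rep hrep using h1
  have h2 : ∀ α ∈ A, rep (Sp α) ∈ A ∧ Sp (rep (Sp α)) = Sp α :=
    fun α hα => hrep _ ⟨α, hα, rfl⟩
  have h3 : (fun α => rep (Sp α)) '' A ⊆ A := by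
    rintro _ ⟨α, hα, rfl⟩
    exact (h2 α hα).1
  refine ⟨_, h3, (ind_iff fun β hβ => hA β (h3 hβ)).2 (h _ h3 ?_), fun α hα =>
    ⟨_, mem_image_of_mem _ hα, by rw [(h2 α hα).2]; exact self_mem_Sp α⟩⟩
  rintro _ ⟨α, hα, rfl⟩ _ ⟨β, hβ, rfl⟩ hne p q hpq
  have h4 := Sp_eq (hA _ (h2 β hβ).1) (mem_Sp.2 ⟨p, q, hpq⟩)
  rw [(h2 α hα).2, (h2 β hβ).2] at h4
  exact hne (by simp only [h4])

theorem classify {A : Set ℝ} (hA : ∀ α ∈ A, Irrational α) (h : Indep A) (M : Str)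
    (h0 : Below (cycStr ∅) M) (h1 : Below M (cycStr A)) :
    ∃ B ⊆ A, Below M (cycStr B) ∧ Below (cycStr B) M := by
  obtain ⟨A', hA', hI, hrep⟩ := exists_reps hA h
  have hP : Good (Df M) := good_df (below_iff.1 h0 _ _ (df_add ∅))
  have g : Good (Det A' Sp) := good_det hI fun β _ => ⟨one_mem_Sp β, self_mem_Sp β⟩
  let B : Set ℝ := {α ∈ A | Df M (Fin 3) {x | Cyc α (x 0) (x 1) (x 2)}}
  have hP' := good_df (df_add B)
  refine ⟨B, fun α hα => hα.1, below_iff.2 (seven hI hP hP' (fun ι _ X hX => ?_)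
    fun α hα hf => ?_), below_iff.2 (cyc_sub hP fun α hα => hα.2)⟩
  · refine cyc_sub g (fun α hα => ?_) ι X (below_iff.1 h1 ι X hX)
    obtain ⟨β, hβ, h2⟩ := hrep α hα
    exact cyc_of_full g (hA α hα) h2 (full_of_basic g.good1 fun r hr => by
      simpa using det_H (A := A') (K := Sp) hβ hr 1)
  · have hi := hA α (hA' hα)
    exact full_of_cyc hP' hi (df_cyc ⟨hA' hα, cyc_of_full hP hi (self_mem_Sp α) hf⟩)

theorem main (A : Set ℝ) (hA : ∀ α ∈ A, Irrational α) :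
    (∀ M : Str, Below (cycStr ∅) M → Below M (cycStr A) →
      ∃ B ⊆ A, Below M (cycStr B) ∧ Below (cycStr B) M) ↔ Indep A := by
  constructor
  · intro h
    by_contra hn
    obtain ⟨M, h0, h1, h2⟩ := counter hA hn
    obtain ⟨B, hB, h3⟩ := h M h0 h1
    exact h2 B hB h3
  · intro h M h0 h1
    exact classify hA h M h0 h1

end Pool.Agent.Work.MP_340ce7_lc
end
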